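import Pool.Agent.Work.MP_58a5a1_lc.Defs
import Mathlib.Order.Filter.CardinalInter

/-! The large cardinal hypothesis (about the ambient universe of small types) and the notions of
the problem read inside a structure `(M, E)` for the language of set theory. -/

namespace Pool.Agent.Work.MP_1ec257_lc
open Pool.Agent.Lib.ZFModel Pool.Agent.Work.MP_63c7e0_lc Pool.Agent.Work.MP_58a5a1_lc Cardinal

/-- `κ` is strongly compact: it is uncountable and regular, and every `κ`-complete proper filter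
on any set extends to a `κ`-complete ultrafilter. -/
def StronglyCompact (κ : Cardinal.{0}) : Prop :=
  ℵ₀ < κ ∧ κ.IsRegular ∧ ∀ (X : Type) (F : Filter X), F.NeBot → CardinalInterFilter F κ →
    ∃ U : Ultrafilter X, (U : Filter X) ≤ F ∧ CardinalInterFilter (U : Filter X) κ

universe u
variable {M : Type u} (E : M → M → Prop)

/-- `f` is a function with domain `A`. -/
def IsSeq (f A : M) : Prop := ∃ B, IsFun E f A B

/-- `U` is a `κ`-complete ultrafilter on the set `A`. -/
def IsUltra (κ A U : M) : Prop :=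
  (∀ Y, E Y U → Sub E Y A) ∧ E A U ∧ (∀ Y, E Y U → ∃ x, E x Y) ∧
  (∀ Y Z, E Y U → Sub E Y Z → Sub E Z A → E Z U) ∧
  (∀ Y Z C, E Y U → E Z U → (∀ x, E x C ↔ E x Y ∧ E x Z) → E C U) ∧
  (∀ Y Z, Sub E Y A → (∀ x, E x Z ↔ E x A ∧ ¬ E x Y) → E Y U ∨ E Z U) ∧
  ∀ β F Z, E β κ → IsFun E F β U →
    (∀ x, E x Z ↔ E x A ∧ ∀ i Y, App E F i Y → E x Y) → E Z U

/-- `U` is a nonprincipal `κ`-complete ultrafilter on `κ`. -/
def IsMeasure (κ U : M) : Prop := IsUltra E κ κ U ∧ ∀ s x, IsSing E s x → ¬ E s U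

/-- `κ` is a measurable cardinal. -/
def IsMeasurableCard (κ : M) : Prop := IsUncountableCard E κ ∧ ∃ U, IsMeasure E κ U

/-- `l` is the cardinal successor of `κ`. -/
def IsSuccCard (l κ : M) : Prop := IsCard E l ∧ E κ l ∧ ∀ μ, E μ l → E κ μ → ¬ IsCard E μ

/-- `j` is a definable elementary embedding of the universe into the definable transitive
class `N`. -/
structure IsElemEmb (N : M → Prop) (j : M → {y // N y}) : Prop where
  def_N : ∃ (φ : Fml) (c : ℕ → M), ∀ y, N y ↔ Sat E φ (cons y c)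
  def_j : ∃ (φ : Fml) (c : ℕ → M), ∀ x y, y = (j x).1 ↔ Sat E φ (cons x (cons y c))
  transitive : ∀ y z, N y → E z y → N z
  elementary : ∀ (φ : Fml) (v : ℕ → M),
    Sat E φ v ↔ Sat (fun a b : {y // N y} => E a.1 b.1) φ (fun i => j (v i))

/-- `η` is a strictly increasing sequence of ordinals of length `α`, and each member `U = σ β` of
the sequence `σ` is `{X ⊆ κ | η β ∈ j X}`. -/
def Glues (κ α σ : M) (j : M → M) (η : M) : Prop :=
  IsSeq E η α ∧ (∀ β e, App E η β e → IsOrd E e) ∧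
  (∀ β γ e e', E β γ → App E η β e → App E η γ e' → E e e') ∧
  ∀ β U e, App E σ β U → App E η β e → ∀ X, E X U ↔ Sub E X κ ∧ E e (j X)

/-- `κ` has the `α`-gluing property. -/
def GP (κ α : M) : Prop :=
  ∀ σ, IsSeq E σ α → (∀ β U, App E σ β U → IsMeasure E κ U) →
    ∃ (N : M → Prop) (j : M → {y // N y}), IsElemEmb E N j ∧
      (∀ ξ, E ξ κ → (j ξ).1 = ξ) ∧ (j κ).1 ≠ κ ∧
      (∀ f, IsSeq E f κ → (∀ i y, App E f i y → N y) → N f) ∧
      ∃ η, Glues E κ α σ (fun x => (j x).1) η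

/-- `j` is the ultrapower embedding by the ultrafilter `W` on `Q`: `j x = π c` for the constant
function `c` with value `x`, where `π` is the transitive collapse of the ultrapower, that is
`π f = {π g | g w ∈ f w for W-almost all w}` for all functions `f` with domain `Q`. -/
def IsUltrapowerEmb (Q W : M) (j : M → M) : Prop :=
  ∃ π : M → M,
    (∀ f, IsSeq E f Q → ∀ z, E z (π f) ↔ ∃ g, IsSeq E g Q ∧ z = π g ∧
      ∃ B, E B W ∧ ∀ w, E w B → ∃ a b, App E g w a ∧ App E f w b ∧ E a b) ∧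
    ∀ x c, IsSeq E c Q → (∀ w y, App E c w y → y = x) → j x = π c

/-- `κ` has the `α`-gluing property via ultrafilters; `Q` is the set of functions from ordinals
below `κ` to `κ`. -/
def GPU (κ α : M) : Prop :=
  ∀ σ, IsSeq E σ α → (∀ β U, App E σ β U → IsMeasure E κ U) →
    ∃ (Q W : M) (j : M → M), (∀ f, E f Q ↔ ∃ β, E β κ ∧ IsFun E f β κ) ∧ IsUltra E κ Q W ∧
      IsUltrapowerEmb E Q W j ∧ ∃ η, Glues E κ α σ j η

end Pool.Agent.Work.MP_1ec257_lc
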