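import Pool.Agent.Work.MP_1ec257_lc.Int2

/-! Measures derived from seeds, cardinals, and the failure of gluing via ultrafilters. -/

namespace Pool.Agent.Work.MP_1ec257_lc
open Pool.Agent.Lib.ZFModel Pool.Agent.Work.MP_63c7e0_lc Pool.Agent.Work.MP_58a5a1_lc

set_option synthInstance.maxSize 100000

variable {M : Type 1} {E : M → M → Prop} [N : Nice E]

namespace IsUltra
variable {k A W : M} (h : IsUltra E k A W)
include h

omit N in
theorem mem {Z : M} (hZ : Sub E Z A) (h' : AE E W fun x => E x Z) : E Z W :=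
  let ⟨B, h1, h2⟩ := h'
  h.2.2.2.1 B Z h1 h2 hZ

omit N in
theorem ae_of {P : M → Prop} (h' : ∀ x, E x A → P x) : AE E W P := ⟨A, h.2.1, h'⟩

theorem and {P Q : M → Prop} (h1 : AE E W P) (h2 : AE E W Q) :
    AE E W fun x => E x A ∧ P x ∧ Q x := by
  have := ne E
  obtain ⟨B, l1, l2⟩ := h1
  obtain ⟨C, l3, l4⟩ := h2
  obtain ⟨Z, hZ⟩ := sep (E := E) B fun x => E x C
  exact ⟨Z, h.2.2.2.2.1 B C Z l1 l3 hZ, fun x hx =>
    ⟨h.1 B l1 x ((hZ x).1 hx).1, l2 x ((hZ x).1 hx).1, l4 x ((hZ x).1 hx).2⟩⟩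

omit N in
theorem ex {P : M → Prop} (h1 : AE E W P) : ∃ x, P x :=
  let ⟨B, l1, l2⟩ := h1
  let ⟨x, hx⟩ := h.2.2.1 B l1
  ⟨x, l2 x hx⟩

theorem em (P : M → Prop) [Dfn E fun v => P (v 0)] : AE E W P ∨ AE E W fun x => ¬ P x := by
  obtain ⟨Y, hY⟩ := sep (E := E) A P
  obtain ⟨Z, hZ⟩ := sep (E := E) A fun x => ¬ P x
  refine (h.2.2.2.2.2.1 Y Z (fun x hx => ((hY x).1 hx).1) fun x => ?_).imp
    (fun h => ⟨Y, h, fun x hx => ((hY x).1 hx).2⟩) fun h => ⟨Z, h, fun x hx => ((hZ x).1 hx).2⟩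
  rw [hZ, hY]; tauto

theorem all {β : M} (hβ : E β k) (P : M → M → Prop) [Dfn E fun v => P (v 0) (v 1)]
    (h1 : ∀ i, E i β → AE E W (P i)) : AE E W fun x => ∀ i, E i β → P i x := by
  have := ne E
  have : Dfn E fun v => P (v 1) (v 0) := Dfn.rel2 P _ _
  obtain ⟨F, h2, h3⟩ := choice (E := E) β (fun i B => E B W ∧ ∀ x, E x B → P i x) h1
  obtain ⟨Z, hZ⟩ := sep (E := E) A fun x => ∀ i Y, App E F i Y → E x Y
  exact ⟨Z, h.2.2.2.2.2.2 β F Z hβ (h2.isFun fun i hi => (h3 i hi).1) hZ,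
    fun x hx i hi => (h3 i hi).2 x (((hZ x).1 hx).2 i _ (h2.app hi))⟩

end IsUltra

/-- A measure is decided by a point on fewer than `k` sets. -/
theorem IsMeasure.point {k U β γ F : M} (h : IsMeasure E k U) (hβ : E β k) (hγ : E γ k)
    (hF : ∀ i, E i β → Sub E (ev E F i) k) :
    ∃ a, E a k ∧ ¬ E a γ ∧ ∀ i, E i β → (E a (ev E F i) ↔ E (ev E F i) U) := by
  have := ne E
  have h1 := h.1.all hβ (fun i a => E a (ev E F i) ↔ E (ev E F i) U) fun i hi => by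
    rcases h.1.em (fun a => E a (ev E F i)) with h1 | h1
    · exact h1.mono fun a ha => iff_of_true ha (h.1.mem (hF i hi) h1)
    · refine h1.mono fun a ha => iff_of_false ha fun h2 => ?_
      obtain ⟨x, -, l1, l2⟩ := h.1.ex (h.1.and h1 ⟨_, h2, fun _ h => h⟩)
      exact l1 l2
  have h2 := h.1.all hγ (fun i a => ¬ a = i) fun i hi => by
    refine (h.1.em (fun a => a = i)).resolve_left fun ⟨B, l1, l2⟩ => ?_
    obtain ⟨x, hx⟩ := h.1.2.2.1 B l1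
    exact h.2 B i (fun y => ⟨l2 y, fun e => e ▸ l2 x hx ▸ hx⟩) l1
  obtain ⟨a, l1, l2, l3⟩ := h.1.ex (h.1.and h1 h2)
  exact ⟨a, l1, fun h => l3 a h rfl, l2⟩

theorem IsMeasure.isCard {k U : M} (h : IsMeasure E k U) (hk : IsOrd E k) : IsCard E k := by
  have := ne E
  refine ⟨hk, fun α hα ⟨f, h1, h2⟩ => ?_⟩
  have h3 := h.1.all hα (fun i a => ¬ ev E f a = i) fun i hi => by
    refine (h.1.em (fun a => ev E f a = i)).resolve_left fun ⟨B, l1, l2⟩ => ?_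
    obtain ⟨x, hx⟩ := h.1.2.2.1 B l1
    refine h.2 B x (fun y => ⟨fun hy => h2 y x i ?_ ?_, fun e => e ▸ hx⟩) l1
    · exact l2 y hy ▸ (IsFun.seq h1).app (h.1.1 B l1 y hy)
    · exact l2 x hx ▸ (IsFun.seq h1).app (h.1.1 B l1 x hx)
  obtain ⟨a, l1, l2, -⟩ := h.1.ex (h.1.and h3 h3)
  exact l2 _ (IsFun.ev_mem h1 l1) rfl

theorem isSuccCard {k l : M} (hl : IsOrd E l) (hk : E k l) (h1 : ∀ α, E α l → Injects E α k)
    (h2 : ∀ f, (∀ x y y', App E f x y → App E f x y' → y = y') →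
      ∃ γ, E γ l ∧ ∀ x y, E x k → E y l → App E f x y → E y γ) : IsSuccCard E l k := by
  have := ne E
  refine ⟨⟨hl, fun α hα ⟨f, h3, h4⟩ => ?_⟩, hk, fun μ hμ h h' => h'.2 k h (h1 μ hμ)⟩
  obtain ⟨e, h5, h6⟩ := h1 α hα
  obtain ⟨r, -, hr⟩ := rel (E := E) k l fun x y => x = ev E e (ev E f y)
  obtain ⟨γ, h7, h8⟩ := h2 r fun x y y' l1 l2 => by
    obtain ⟨-, l3, l4⟩ := (hr _ _).1 l1
    obtain ⟨-, l5, l6⟩ := (hr _ _).1 l2
    have l7 := h6 _ _ x (l4 ▸ (IsFun.seq h5).app (IsFun.ev_mem h3 l3))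
      (l6 ▸ (IsFun.seq h5).app (IsFun.ev_mem h3 l5))
    exact h4 _ _ _ ((IsFun.seq h3).app l3) (l7 ▸ (IsFun.seq h3).app l5)
  have l1 := IsFun.ev_mem h5 (IsFun.ev_mem h3 h7)
  exact irr γ (h8 _ γ l1 h7 ((hr _ _).2 ⟨l1, h7, rfl⟩))

/-- The image of an ultrafilter under a map. -/
theorem IsUltra.push {k Q W c : M} (h : IsUltra E k Q W) (hc : IsFun E c Q k) :
    ∃ U, IsUltra E k k U ∧ ∀ X, E X U ↔ Sub E X k ∧ AE E W fun w => E (ev E c w) X := by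
  have := ne E
  obtain ⟨P, hP⟩ := (zf (E := E)).powerset k
  obtain ⟨U, hU⟩ := sep (E := E) P fun X => AE E W fun w => E (ev E c w) X
  have hU' : ∀ X, E X U ↔ Sub E X k ∧ AE E W fun w => E (ev E c w) X := fun X => by
    rw [hU, hP]; rfl
  refine ⟨U, ⟨fun Y hY => ((hU' Y).1 hY).1,
    (hU' k).2 ⟨fun _ h => h, h.ae_of fun x hx => IsFun.ev_mem hc hx⟩,
    fun Y hY => let ⟨x, hx⟩ := h.ex ((hU' Y).1 hY).2; ⟨_, hx⟩,
    fun Y Z hY h1 h2 => (hU' Z).2 ⟨h2, ((hU' Y).1 hY).2.mono fun x hx => h1 _ hx⟩,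
    fun Y Z C hY hZ h1 => (hU' C).2 ⟨fun x hx => ((hU' Y).1 hY).1 x ((h1 x).1 hx).1,
      (h.and ((hU' Y).1 hY).2 ((hU' Z).1 hZ).2).mono fun x hx => (h1 _).2 hx.2⟩,
    fun Y Z hY h1 => (h.em fun w => E (ev E c w) Y).imp (fun h => (hU' Y).2 ⟨hY, h⟩)
      fun h2 => (hU' Z).2 ⟨fun x hx => ((h1 x).1 hx).1,
        (h.and h2 h2).mono fun x hx => (h1 _).2 ⟨IsFun.ev_mem hc hx.1, hx.2.1⟩⟩,
    fun β F Z hβ hF h1 => (hU' Z).2 ⟨fun x hx => ((h1 x).1 hx).1, ?_⟩⟩, hU'⟩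
  have h2 := h.all hβ (fun i w => E (ev E c w) (ev E F i))
    fun i hi => ((hU' _).1 (IsFun.ev_mem hF hi)).2
  refine (h.and h2 h2).mono fun x hx => (h1 _).2 ⟨IsFun.ev_mem hc hx.1, fun i Y h3 => ?_⟩
  obtain ⟨h4, rfl⟩ := (IsFun.seq hF).app_iff.1 h3
  exact hx.2.1 i h4

/-- In an ultrapower every seed below the image of `X` is represented by a function into `X`. -/
theorem IsUltrapowerEmb.seed {k Q W : M} {j : M → M} (hj : IsUltrapowerEmb E Q W j)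
    (h : IsUltra E k Q W) {e X₀ : M} (he : E e (j X₀)) :
    ∃ g, IsSeq E g Q ∧ ∀ X, E e (j X) ↔ AE E W fun w => E (ev E g w) X := by
  have := ne E
  obtain ⟨π, h1, h2⟩ := hj
  have h3 : ∀ f, IsSeq E f Q → ∀ z, E z (π f) ↔ ∃ g, IsSeq E g Q ∧ z = π g ∧
      AE E W fun w => E (ev E g w) (ev E f w) := fun f hf z => (h1 f hf z).trans
    (exists_congr fun g => and_congr_right fun hg => and_congr_right fun _ =>
      ⟨fun h' => AE.mono h' fun w ⟨a, b, l1, l2, l3⟩ => by rwa [hg.ev_eq l1, hf.ev_eq l2],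
        fun h' => (h.and h' h').mono fun w hw => ⟨_, _, hg.app hw.1, hf.app hw.1, hw.2.1⟩⟩)
  have h4 : ∀ y g g', IsSeq E g Q → IsSeq E g' Q → y = π g → y = π g' →
      AE E W fun w => ev E g w = ev E g' w := by
    intro y
    induction y using N.wf.induction with
    | h y ih =>
      have key : ∀ g g' f, IsSeq E g Q → IsSeq E g' Q → y = π g → y = π g' → IsSeq E f Q →
          (AE E W fun w => E (ev E f w) (ev E g w)) → AE E W fun w => E (ev E f w) (ev E g' w) := by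
        intro g g' f hg hg' e e' hf h5
        have l1 : E (π f) y := e ▸ (h3 g hg _).2 ⟨f, hf, rfl, h5⟩
        obtain ⟨f', l2, l3, l4⟩ := (h3 g' hg' _).1 (e' ▸ l1)
        exact (h.and l4 (ih _ l1 f f' hf l2 rfl l3)).mono fun w hw => hw.2.2 ▸ hw.2.1
      intro g g' hg hg' e e'
      refine (h.em fun w => ev E g w = ev E g' w).resolve_right fun hn => ?_
      obtain ⟨f, hf, h5⟩ := choice (E := E) Q (fun w z => ¬ ev E g w = ev E g' w →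
        ¬ (E z (ev E g w) ↔ E z (ev E g' w))) fun w _ => by
          by_contra hc
          push Not at hc
          exact (hc w).1 (ext (E := E) fun z => (hc z).2)
      rcases h.em fun w => E (ev E f w) (ev E g w) with h6 | h6
      · obtain ⟨w, -, ⟨l1, l2, l3⟩, l4⟩ := h.ex (h.and (h.and h6 (key g g' f hg hg' e e' hf h6)) hn)
        exact h5 w l1 l4 (iff_of_true l2 l3)
      · have h7 : AE E W fun w => E (ev E f w) (ev E g' w) :=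
          (h.and hn h6).mono fun w ⟨l1, l2, l3⟩ => by have := h5 w l1 l2; tauto
        obtain ⟨w, -, l1, l2⟩ := h.ex (h.and h6 (key g' g f hg' hg e' e hf h7))
        exact l1 l2
  have h5 : ∀ X z, E z (j X) ↔ ∃ g, IsSeq E g Q ∧ z = π g ∧ AE E W fun w => E (ev E g w) X := by
    intro X z
    obtain ⟨c, l1, l2⟩ := choice (E := E) Q (fun _ y => y = X) fun _ _ => ⟨X, rfl⟩
    rw [h2 X c l1 fun w y l3 => by obtain ⟨l4, rfl⟩ := l1.app_iff.1 l3; exact l2 w l4, h3 c l1]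
    exact exists_congr fun g => and_congr_right fun _ => and_congr_right fun _ =>
      ⟨fun h' => (h.and h' h').mono fun w hw => l2 w hw.1 ▸ hw.2.1,
        fun h' => (h.and h' h').mono fun w hw => (l2 w hw.1).symm ▸ hw.2.1⟩
  obtain ⟨g, hg, rfl, -⟩ := (h5 X₀ e).1 he
  refine ⟨g, hg, fun X => (h5 X _).trans ⟨fun ⟨g', l1, l2, l3⟩ => ?_, fun h => ⟨g, hg, rfl, h⟩⟩⟩
  exact (h.and l3 (h4 _ g g' hg l1 rfl l2)).mono fun w hw => hw.2.2 ▸ hw.2.1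

/-- A sequence of measures without upper bound in the Rudin-Keisler order cannot be glued by an
ultrafilter. -/
theorem not_gpu {k α σ R : M} (hα : E k α) (hσ : IsSeq E σ α)
    (h1 : ∀ β, E β α → IsMeasure E k (ev E σ β))
    (h2 : ∀ W, IsMeasure E k W → ∃ β, E β α ∧ ∀ f, IsFun E f k k → ∃ X, E X (ev E σ β) ∧
      AE E W fun ξ => ¬ E (ev E f ξ) X)
    (h3 : ∀ f β, E β k → IsFun E f β k → ∃ a, E a k ∧ ∀ i ζ, E i k → E ζ k →
      (App E f i ζ ↔ App E (ev E R a) i ζ)) (hk : IsOrd E k) : ¬ GPU E k α := by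
  have := ne E
  intro h
  obtain ⟨Q, W, j, hQ, hW, hj, η, h4, -, -, h5⟩ := h σ hσ fun β U hU => by
    obtain ⟨l1, rfl⟩ := hσ.app_iff.1 hU
    exact h1 β l1
  obtain ⟨c, h6, h7⟩ := choice (E := E) Q (fun f a => E a k ∧ ∀ i ζ, E i k → E ζ k →
    (App E f i ζ ↔ App E (ev E R a) i ζ)) fun f hf => by
      obtain ⟨β, l1, l2⟩ := (hQ f).1 hf
      exact h3 f β l1 l2
  have h8 : ∀ f, E f Q → ∀ f', E f' Q → ev E c f = ev E c f' → Sub E f f' := by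
    intro f hf f' hf' e p hp
    obtain ⟨β, l1, l2⟩ := (hQ f).1 hf
    obtain ⟨x, y, l3, l4, l5⟩ := l2.1 p hp
    have l6 := hk.1 β l1 x l3
    obtain ⟨q, l7, l8⟩ := ((h7 f' hf').2 x y l6 l4).2
      (e ▸ ((h7 f hf).2 x y l6 l4).1 ⟨p, hp, l5⟩)
    exact pair_unique zf l8 l5 ▸ l7
  have h9 : ∀ f, E f Q → ∀ f', E f' Q → ev E c f = ev E c f' → f = f' := fun f hf f' hf' e =>
    ext (E := E) fun p => ⟨h8 f hf f' hf' e p, h8 f' hf' f hf e.symm p⟩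
  have h10 : ∀ β, E β α → ∃ g, IsSeq E g Q ∧ ∀ X, E X (ev E σ β) →
      Sub E X k ∧ AE E W fun w => E (ev E g w) X := fun β hβ => by
    have l1 := h5 β _ _ (hσ.app hβ) (h4.app hβ)
    obtain ⟨g, l2, l3⟩ := hj.seed hW ((l1 k).1 (h1 β hβ).1.2.1).2
    exact ⟨g, l2, fun X hX => ⟨((l1 X).1 hX).1, (l3 X).1 ((l1 X).1 hX).2⟩⟩
  obtain ⟨U, hU, hU'⟩ := hW.push (h6.isFun fun f hf => (h7 f hf).1)
  by_cases hp : ∀ s x, IsSing E s x → ¬ E s U
  · obtain ⟨β, l1, l2⟩ := h2 U ⟨hU, hp⟩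
    obtain ⟨g, l3, l4⟩ := h10 β l1
    obtain ⟨f, l5, l6⟩ := choice (E := E) k (fun a y => E y k ∧
      ∀ w, E w Q → ev E c w = a → E (ev E g w) k → y = ev E g w) fun a ha => by
        by_cases hc : ∃ w, E w Q ∧ ev E c w = a ∧ E (ev E g w) k
        · obtain ⟨w, m1, m2, m3⟩ := hc
          exact ⟨_, m3, fun w' m4 m5 _ => by rw [h9 w m1 w' m4 (m2.trans m5.symm)]⟩
        · exact ⟨a, ha, fun w m1 m2 m3 => absurd ⟨w, m1, m2, m3⟩ hc⟩
    obtain ⟨X, l7, B, l8, l9⟩ := l2 f (l5.isFun fun a ha => (l6 a ha).1)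
    obtain ⟨w, m1, m2, m3⟩ := hW.ex (hW.and (l4 X l7).2 ((hU' B).1 l8).2)
    refine l9 _ m3 ?_
    rw [(l6 _ (h7 w m1).1).2 w m1 rfl ((l4 X l7).1 _ m2)]
    exact m2
  · push Not at hp
    obtain ⟨s, a, l1, l2⟩ := hp
    obtain ⟨g, l3, l4⟩ := h10 k hα
    have l5 := ((hU' s).1 l2).2
    obtain ⟨w, m1, m2, -⟩ := hW.ex (hW.and l5 l5)
    obtain ⟨t, ht⟩ := exists_sing (zf (E := E)) (ev E g w)
    obtain ⟨Z, hZ⟩ := sep (E := E) k fun x => ¬ E x t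
    have l6 : ∀ X, E X (ev E σ k) → E (ev E g w) X := fun X hX => by
      obtain ⟨w', m3, m4, m5⟩ := hW.ex (hW.and l5 (l4 X hX).2)
      rwa [h9 w m1 w' m3 (((l1 _).1 m2).trans ((l1 _).1 m4).symm)]
    rcases (h1 k hα).1.2.2.2.2.2.1 t Z (fun x hx => (ht x).1 hx ▸ l6 k (h1 k hα).1.2.1) hZ
      with m3 | m3
    · exact (h1 k hα).2 t _ ht m3
    · exact ((hZ _).1 (l6 Z m3)).2 ((ht _).2 rfl)

namespace Sys
variable {D : Sys E}

/-- The measure derived from a nonconstant seed. -/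
theorem push {t : M} (ht : E t D.S) (hn : ∀ ξ, ¬ D.ae fun x => ev E t x = ξ) :
    ∃ U, IsMeasure E D.k U ∧ ∀ X, E X U ↔ Sub E X D.k ∧ D.ae fun x => E (ev E t x) X := by
  have := ne E
  obtain ⟨P, hP⟩ := (zf (E := E)).powerset D.k
  obtain ⟨U, hU⟩ := sep (E := E) P fun X => AE E D.U fun w => E (ev E t w) X
  have hU' : ∀ X, E X U ↔ Sub E X D.k ∧ D.ae fun w => E (ev E t w) X := fun X => by
    rw [hU, hP]; rfl
  have hc := D.S_fun t ht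
  refine ⟨U, ⟨⟨fun Y hY => ((hU' Y).1 hY).1,
    (hU' _).2 ⟨fun _ h => h, ae_of fun x hx => IsFun.ev_mem hc hx⟩,
    fun Y hY => let ⟨x, hx⟩ := ae_ex ((hU' Y).1 hY).2; ⟨_, hx.2⟩,
    fun Y Z hY h1 h2 => (hU' Z).2 ⟨h2, ((hU' Y).1 hY).2.mono fun x hx => h1 _ hx⟩,
    fun Y Z C hY hZ h1 => (hU' C).2 ⟨fun x hx => ((hU' Y).1 hY).1 x ((h1 x).1 hx).1,
      (ae_and ((hU' Y).1 hY).2 ((hU' Z).1 hZ).2).mono fun x hx => (h1 _).2 hx⟩,
    fun Y Z hY h1 => (ultra ht (fun w => E (ev E t w) Y) fun x _ x' _ e h => e ▸ h).imp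
      (fun h => (hU' Y).2 ⟨hY, h⟩) fun h2 => (hU' Z).2 ⟨fun x hx => ((h1 x).1 hx).1,
        (ae_I h2).mono fun x hx => (h1 _).2 ⟨IsFun.ev_mem hc hx.1, hx.2⟩⟩,
    fun β F Z hβ hF h1 => (hU' Z).2 ⟨fun x hx => ((h1 x).1 hx).1, ?_⟩⟩,
    fun s x hs h => hn x (((hU' s).1 h).2.mono fun y hy => (hs _).1 hy)⟩, hU'⟩
  refine (ultra ht (fun w => E (ev E t w) Z) fun x _ x' _ e h => e ▸ h).resolve_right fun h2 => ?_
  obtain ⟨g, h3, -, h4⟩ := wit ht (fun x i => E i β ∧ ¬ E (ev E t x) (ev E F i))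
    fun x _ x' _ e i h => e ▸ h
  have h5 := (ae_I h2).mono fun x ⟨l1, l2⟩ => h4 x l1 (by
    by_contra hc'
    refine l2 ((h1 _).2 ⟨IsFun.ev_mem hc l1, fun i Y l3 => ?_⟩)
    obtain ⟨l4, rfl⟩ := (IsFun.seq hF).app_iff.1 l3
    exact by_contra fun l5 => hc' ⟨i, l4, l5⟩)
  obtain ⟨i, -, h6⟩ := const h3 ((ae_I (ae_and h5 (D.d_gt β hβ))).mono
    fun x ⟨l1, l2, l3⟩ => d_trans l1 l2.1 l3)
  obtain ⟨x, -, l1, l2⟩ := ae_ex (ae_and h5 h6)
  exact ae_false (ae_and h5 h6) ((hU' _).1 (IsFun.ev_mem hF (l2 ▸ l1.1))).2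
    fun x _ ⟨l3, l4⟩ l5 => l3.2 (l4.symm ▸ l5)

end Sys

/-- The data supplied by the forcing. -/
structure Full (E : M → M → Prop) extends Sys E where
  l : M
  L : M
  En : M
  Rc : M
  ord_l : IsOrd E l
  k_l : E k l
  inj : ∀ α, E α l → Injects E α k
  bdd : ∀ f, (∀ x y y', App E f x y → App E f x y' → y = y') →
    ∃ γ, E γ l ∧ ∀ x y, E x k → E y l → App E f x y → E y γ
  lv : ∀ β W, E β l → IsMeasure E k W → ∃ t, E t S ∧ App E L β t ∧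
    ∀ X, Sub E X k → (E X W ↔ AE E U fun x => E (ev E t x) X)
  lv_inc : ∀ β γ t t', E β γ → App E L β t → App E L γ t' → toSys.In t t'
  en : ∀ β, E β l → E (ev E En β) S ∧ ∀ ξ, ¬ AE E U fun x => ev E (ev E En β) x = ξ
  nr : ∀ W, IsMeasure E k W → ∃ β, E β l ∧ ∀ f, IsFun E f k k → ∃ X, Sub E X k ∧
    (AE E U fun x => E (ev E (ev E En β) x) X) ∧ AE E W fun ξ => ¬ E (ev E f ξ) X
  code : ∀ f β, E β k → IsFun E f β k → ∃ a, E a k ∧ ∀ i ζ, E i k → E ζ k →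
    (App E f i ζ ↔ App E (ev E Rc a) i ζ)

theorem Full.main (D : Full E) :
    IsMeasurableCard E D.k ∧ IsSuccCard E D.l D.k ∧ GP E D.k D.l ∧ ¬ GPU E D.k D.l := by
  have := ne E
  obtain ⟨σ, h1, h2⟩ := choice (E := E) D.l (fun β U => ∀ X, E X U ↔ Sub E X D.k ∧
    AE E D.U fun x => E (ev E (ev E D.En β) x) X) fun β hβ => by
      obtain ⟨U, -, h⟩ := Sys.push (D := D.toSys) (D.en β hβ).1 (D.en β hβ).2
      exact ⟨U, h⟩
  have h3 : ∀ β, E β D.l → IsMeasure E D.k (ev E σ β) := fun β hβ => by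
    obtain ⟨U, h, h'⟩ := Sys.push (D := D.toSys) (D.en β hβ).1 (D.en β hβ).2
    rwa [ext (E := E) fun X => (h2 β hβ X).trans (h' X).symm]
  refine ⟨⟨⟨(h3 _ D.k_l).isCard D.ord_k, D.w, D.isOmega, D.w_k⟩, _, h3 _ D.k_l⟩,
    isSuccCard D.ord_l D.k_l D.inj D.bdd, Sys.gp D.lv D.lv_inc,
    not_gpu D.k_l h1 h3 (fun W hW => ?_) D.code D.ord_k⟩
  obtain ⟨β, l1, l2⟩ := D.nr W hW
  exact ⟨β, l1, fun f hf => let ⟨X, l3, l4, l5⟩ := l2 f hf; ⟨X, (h2 β l1 X).2 ⟨l3, l4⟩, l5⟩⟩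

end Pool.Agent.Work.MP_1ec257_lc
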