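import Pool.Agent.Work.MP_1ec257_lc.Req
import Pool.Agent.Work.MP_1ec257_lc.Int3

/-! The values of the names for ground objects. -/

namespace Pool.Agent.Work.MP_1ec257_lc
open Pool.Agent.Lib.ZFModel Pool.Agent.Work.MP_63c7e0_lc Pool.Agent.Work.MP_58a5a1_lc Name Set

variable {O : Type} [LinearOrder O] [WellFoundedLT O] {X : Gd O} (g : Hull X.a₀ X.W)

namespace Hull

theorem req (k : Kd) (l₁ : List (Name X.P)) (l₃ : List X.A) (h₁ : ∀ x ∈ l₁, x ∈ g.N)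
    (h₃ : ∀ x ∈ l₃, x ∈ g.AN)
    (h : ∀ r, ∃ q ≤ r, ∃ j y, X.W k (envOf emptyName l₁) (envOf X.a₀ l₃) q j y) :
    ∃ r, g.G r ∧ ∃ j ∈ g.AN, ∃ y ∈ g.N, X.W k (envOf emptyName l₁) (envOf X.a₀ l₃) r j y :=
  let ⟨p, hp⟩ := g.toGen.ne
  g.meet k l₁ l₃ h₁ h₃ p hp fun r _ => h r

theorem op_mem (n : ℕ) (l : List X.A) (hl : ∀ x ∈ l, x ∈ g.AN)
    (h : ∃ j, X.op n (envOf X.a₀ l) j) : ∃ j ∈ g.AN, X.op n (envOf X.a₀ l) j :=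
  let ⟨_, _, j, hj, _, _, h⟩ := g.req (.op n) [] l mem_list₀ hl
    fun r => let ⟨j, h⟩ := h; ⟨r, le_rfl, j, emptyName, h⟩
  ⟨j, hj, h⟩

theorem fn_mem (m : Fm) (l : List X.A) (hl : ∀ x ∈ l, x ∈ g.AN) :
    X.FN m (envOf X.a₀ l) ∈ g.N :=
  let ⟨_, _, _, _, _, hy, h⟩ := g.req (.mk m) [] l mem_list₀ hl
    fun r => ⟨r, le_rfl, X.a₀, _, rfl⟩
  (show _ = _ from h) ▸ hy

theorem back (m : Fm) (l : List X.A) (hl : ∀ x ∈ l, x ∈ g.AN) {j : X.A} {p : X.P} (hp : g.G p)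
    (h1 : X.nm m (envOf X.a₀ l) j ∈ g.N) (h2 : X.cnd m (envOf X.a₀ l) j p) :
    ∃ j' ∈ g.AN, ∃ r, g.G r ∧ X.cnd m (envOf X.a₀ l) j' r ∧
      X.nm m (envOf X.a₀ l) j = X.nm m (envOf X.a₀ l) j' :=
  let ⟨r, hr, j', hj, _, _, h⟩ := g.meet (.back m) [X.nm m (envOf X.a₀ l) j] l (mem_list₁ h1) hl p hp
    fun r hr => ⟨r, le_rfl, j, emptyName, rfl, X.cnd_mono _ _ _ _ _ hr h2⟩
  ⟨j', hj, r, hr, h.2, h.1⟩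

theorem mem_FN (m : Fm) (l : List X.A) (hl : ∀ x ∈ l, x ∈ g.AN)
    (hN : ∀ j ∈ g.AN, X.nm m (envOf X.a₀ l) j ∈ g.N) (x : g.M) :
    g.E x (g.val (X.FN m (envOf X.a₀ l))) ↔ ∃ j ∈ g.AN, ∃ r, g.G r ∧
      X.cnd m (envOf X.a₀ l) j r ∧ x = g.val (X.nm m (envOf X.a₀ l) j) := by
  refine (g.E_rName (g.fn_mem m l hl) x).trans ⟨?_, ?_⟩
  · rintro ⟨j, p, h1, h2, h3, rfl⟩
    obtain ⟨j', h4, r, h5, h6, h7⟩ := g.back m l hl h2 h3 h1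
    exact ⟨j', h4, r, h5, h6, congrArg _ h7⟩
  · rintro ⟨j, h1, r, h2, h3, rfl⟩
    exact ⟨j, r, h3, h2, hN j h1, rfl⟩

theorem app_FN (m : Fm) (l : List X.A) (hl : ∀ x ∈ l, x ∈ g.AN) (τ : X.A → Name X.P)
    (hτ : ∀ j, X.nm m (envOf X.a₀ l) j = pairN (ordN j.o) (τ j))
    (hN : ∀ j ∈ g.AN, ordN j.o ∈ g.N ∧ τ j ∈ g.N) :
    (∀ p, g.E p (g.val (X.FN m (envOf X.a₀ l))) → ∃ x y, IsPair g.E p x y) ∧
    ∀ x y, App g.E (g.val (X.FN m (envOf X.a₀ l))) x y ↔ ∃ j ∈ g.AN, ∃ r, g.G r ∧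
      X.cnd m (envOf X.a₀ l) j r ∧ x = g.val (ordN j.o) ∧ y = g.val (τ j) := by
  have h := g.mem_FN m l hl fun j hj => hτ j ▸ g.pair_mem (hN j hj).1 (hN j hj).2
  refine ⟨fun p hp => ?_, fun x y => ⟨fun ⟨p, h1, h2⟩ => ?_, ?_⟩⟩
  · obtain ⟨j, h3, r, -, -, rfl⟩ := (h p).1 hp
    exact ⟨_, _, hτ j ▸ g.isPair (hN j h3).1 (hN j h3).2⟩
  · obtain ⟨j, h3, r, h4, h5, rfl⟩ := (h p).1 h1
    rw [hτ] at h2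
    exact ⟨j, h3, r, h4, h5, pair_inj zf h2 (g.isPair (hN j h3).1 (hN j h3).2)⟩
  · rintro ⟨j, h3, r, h4, h5, rfl, rfl⟩
    exact ⟨_, (h _).2 ⟨j, h3, r, h4, h5, rfl⟩, hτ j ▸ g.isPair (hN j h3).1 (hN j h3).2⟩

def On (a : O) : Prop := ∃ j ∈ g.AN, j.o = a
def Fn (f : O → O) : Prop := ∃ j ∈ g.AN, j.f = f
def Sn (s : Set O) : Prop := ∃ j ∈ g.AN, j.s = s
def Yn (y : X.Y) : Prop := ∃ j ∈ g.AN, j.y = y

noncomputable def o (a : O) : g.M := g.val (ordN a)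
noncomputable def sM (s : Set O) : g.M := g.val (X.subN s)
noncomputable def fM (D : Set O) (f : O → O) : g.M := g.val (X.funN D f)

variable {g}

theorem On.mem {a : O} (h : g.On a) : ordN a ∈ g.N := by
  obtain ⟨j, hj, rfl⟩ := h
  obtain ⟨_, _, _, _, _, hy, h⟩ := g.req .ord [] [j] mem_list₀ (mem_list₁ hj)
    fun r => ⟨r, le_rfl, X.a₀, _, rfl⟩
  exact (show _ = _ from h) ▸ hy

theorem On.mem_o {a : O} (h : g.On a) (x : g.M) :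
    g.E x (g.o a) ↔ ∃ b, g.On b ∧ b < a ∧ x = g.o b := by
  have h1 := h.mem
  obtain ⟨j, hj, rfl⟩ := h
  rw [o]
  rw [ordN_eq] at h1 ⊢
  refine (g.E_rName h1 x).trans ⟨?_, ?_⟩
  · rintro ⟨b, p, -, h2, h3, rfl⟩
    obtain ⟨j', h4, r, -, h6, h7⟩ := g.back .ord [j] (mem_list₁ hj) (j := { X.a₀ with o := b.1 })
      h2 h3 b.2
    exact ⟨j'.o, ⟨j', h4, rfl⟩, h6, congrArg _ h7⟩
  · rintro ⟨b, h2, h3, rfl⟩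
    obtain ⟨p, hp⟩ := g.toGen.ne
    exact ⟨⟨b, h3⟩, p, trivial, hp, h2.mem, rfl⟩

theorem o_inj {a b : O} (ha : g.On a) (hb : g.On b) (h : g.o a = g.o b) : a = b := by
  rcases lt_trichotomy a b with h1 | h1 | h1
  · exact absurd ((hb.mem_o _).2 ⟨a, ha, h1, h.symm⟩) (irr _)
  · exact h1
  · exact absurd ((ha.mem_o _).2 ⟨b, hb, h1, h⟩) (irr _)

theorem o_lt {a b : O} (ha : g.On a) (hb : g.On b) : g.E (g.o a) (g.o b) ↔ a < b :=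
  (hb.mem_o _).trans ⟨fun ⟨_, h0, h1, h2⟩ => o_inj ha h0 h2 ▸ h1, fun h => ⟨a, ha, h, rfl⟩⟩

theorem On.isOrd {a : O} (h : g.On a) : IsOrd g.E (g.o a) := by
  refine ⟨fun x hx y hy => ?_, fun x y hx hy => ?_⟩
  · obtain ⟨b, h1, h2, rfl⟩ := (h.mem_o _).1 hx
    obtain ⟨c, h3, h4, rfl⟩ := (h1.mem_o _).1 hy
    exact (o_lt h3 h).2 (h4.trans h2)
  · obtain ⟨b, h1, -, rfl⟩ := (h.mem_o _).1 hx
    obtain ⟨c, h3, -, rfl⟩ := (h.mem_o _).1 hy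
    rcases lt_trichotomy b c with l | l | l
    · exact Or.inl ((o_lt h1 h3).2 l)
    · exact Or.inr (Or.inl (l ▸ rfl))
    · exact Or.inr (Or.inr ((o_lt h3 h1).2 l))

theorem Sn.mem {s : Set O} (h : g.Sn s) : X.subN s ∈ g.N := by
  obtain ⟨j, hj, rfl⟩ := h
  exact g.fn_mem .sub [j] (mem_list₁ hj)

theorem Sn.mem_s {s : Set O} (h : g.Sn s) (x : g.M) :
    g.E x (g.sM s) ↔ ∃ b, g.On b ∧ b ∈ s ∧ x = g.o b := by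
  obtain ⟨j, hj, rfl⟩ := h
  obtain ⟨p, hp⟩ := g.toGen.ne
  refine (g.mem_FN .sub [j] (mem_list₁ hj) (fun j' hj' => On.mem ⟨j', hj', rfl⟩) x).trans
    ⟨fun ⟨j', h1, _, _, h2, h3⟩ => ⟨_, ⟨j', h1, rfl⟩, h2, h3⟩, ?_⟩
  rintro ⟨_, ⟨j', h1, rfl⟩, h2, h3⟩
  exact ⟨j', h1, p, hp, h2, h3⟩

theorem Sn.o_mem {s : Set O} (h : g.Sn s) {a : O} (ha : g.On a) : g.E (g.o a) (g.sM s) ↔ a ∈ s :=
  (h.mem_s _).trans ⟨fun ⟨_, h0, h1, h2⟩ => o_inj ha h0 h2 ▸ h1, fun h => ⟨a, ha, h, rfl⟩⟩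

theorem Fn.app {f : O → O} (h : g.Fn f) {a : O} (ha : g.On a) : g.On (f a) := by
  obtain ⟨j, hj, rfl⟩ := h
  obtain ⟨j', hj', rfl⟩ := ha
  exact g.op_mem 4 [j, j'] (mem_list₂ hj hj') ⟨{ X.a₀ with o := _ }, rfl⟩

theorem Fn.mem {f : O → O} (h : g.Fn f) {D : Set O} (hD : g.Sn D) : X.funN D f ∈ g.N := by
  obtain ⟨j, hj, rfl⟩ := h
  obtain ⟨j', hj', rfl⟩ := hD
  exact g.fn_mem .fn [j', j] (mem_list₂ hj' hj)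

theorem seq_of {f A : g.M} (h1 : ∀ p, g.E p f → ∃ x y, IsPair g.E p x y)
    (h2 : ∀ x y, App g.E f x y → g.E x A) (h3 : ∀ x, g.E x A → ∃ y, App g.E f x y)
    (h4 : ∀ x y y', App g.E f x y → App g.E f x y' → y = y') : IsSeq g.E f A := by
  obtain ⟨r, hr⟩ := exists_range (E := g.E) f
  refine ⟨r, fun p hp => ?_, h3, h4⟩
  obtain ⟨x, y, h⟩ := h1 p hp
  exact ⟨x, y, h2 x y ⟨p, hp, h⟩, hr x y ⟨p, hp, h⟩, h⟩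

theorem Fn.seq {f : O → O} (h : g.Fn f) {D : Set O} (hD : g.Sn D) {A : g.M}
    (hA : ∀ x, g.E x A ↔ ∃ b, g.On b ∧ b ∈ D ∧ x = g.o b) :
    IsSeq g.E (g.fM D f) A ∧ ∀ b, g.On b → b ∈ D → ev g.E (g.fM D f) (g.o b) = g.o (f b) := by
  have h0 := fun a => h.app (a := a)
  obtain ⟨j, hj, rfl⟩ := h
  obtain ⟨j', hj', rfl⟩ := hD
  obtain ⟨p, hp⟩ := g.toGen.ne
  obtain ⟨h1, h2⟩ := g.app_FN .fn [j', j] (mem_list₂ hj' hj) (fun i => ordN (j.f i.o)) (fun _ => rfl)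
    fun i hi => ⟨On.mem ⟨i, hi, rfl⟩, (h0 _ ⟨i, hi, rfl⟩).mem⟩
  have h3 : ∀ b, g.On b → b ∈ j'.s → App g.E (g.fM j'.s j.f) (g.o b) (g.o (j.f b)) := by
    rintro _ ⟨i, hi, rfl⟩ hb
    exact (h2 _ _).2 ⟨i, hi, p, hp, hb, rfl, rfl⟩
  have h4 : IsSeq g.E (g.fM j'.s j.f) A := seq_of h1
    (fun x y h => let ⟨i, l1, _, _, l2, l3, _⟩ := (h2 _ _).1 h; (hA x).2 ⟨_, ⟨i, l1, rfl⟩, l2, l3⟩)
    (fun x hx => let ⟨b, l1, l2, l3⟩ := (hA x).1 hx; ⟨_, l3 ▸ h3 b l1 l2⟩)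
    fun x y y' h h' => by
      obtain ⟨i, l1, -, -, -, l3, rfl⟩ := (h2 _ _).1 h
      obtain ⟨i', l4, -, -, -, l5, rfl⟩ := (h2 _ _).1 h'
      rw [o_inj ⟨i, l1, rfl⟩ ⟨i', l4, rfl⟩ (l3.symm.trans l5)]
  exact ⟨h4, fun b h5 h6 => h4.ev_eq (h3 b h5 h6)⟩

variable (g)

theorem base : g.On X.k ∧ g.Fn X.d ∧ g.Sn univ :=
  let ⟨j, hj, h1, h2, h3⟩ := g.op_mem 0 [] mem_list₀ ⟨X.a₀, rfl, rfl, rfl⟩
  ⟨⟨j, hj, h1⟩, ⟨j, hj, h2⟩, ⟨j, hj, h3⟩⟩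

theorem on_k : g.On X.k := g.base.1
theorem fn_d : g.Fn X.d := g.base.2.1
theorem sn_univ : g.Sn univ := g.base.2.2
theorem on_kp : g.On X.kp := g.op_mem 1 [] mem_list₀ ⟨{ X.a₀ with o := _ }, rfl⟩
theorem on_w : g.On X.w := g.op_mem 2 [] mem_list₀ ⟨{ X.a₀ with o := _ }, rfl⟩

theorem on_nat (n : ℕ) : g.On (X.nat n) :=
  let ⟨_, _, j, hj, _, _, h⟩ := g.req (.nat n) [] [] mem_list₀ mem_list₀
    fun r => ⟨r, le_rfl, { X.a₀ with o := _ }, emptyName, rfl⟩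
  ⟨j, hj, h⟩

variable {g}

theorem On.iio {a : O} (h : g.On a) : g.Sn (Iio a) := by
  obtain ⟨j, hj, rfl⟩ := h
  exact g.op_mem 3 [j] (mem_list₁ hj) ⟨{ X.a₀ with s := _ }, rfl⟩

theorem fn_sd {a : O} (h : g.On a) {y : X.Y} (hy : g.Yn y) : g.Fn (X.sd a y) := by
  obtain ⟨j, hj, rfl⟩ := h
  obtain ⟨j', hj', rfl⟩ := hy
  exact g.op_mem 6 [j, j'] (mem_list₂ hj hj') ⟨{ X.a₀ with f := _ }, rfl⟩

theorem Sn.inter {s t : Set O} (h : g.Sn s) (h' : g.Sn t) : g.Sn (s ∩ t) := by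
  obtain ⟨j, hj, rfl⟩ := h
  obtain ⟨j', hj', rfl⟩ := h'
  exact g.op_mem 9 [j, j'] (mem_list₂ hj hj') ⟨{ X.a₀ with s := _ }, rfl⟩

theorem Sn.compl {s : Set O} (h : g.Sn s) : g.Sn sᶜ := by
  obtain ⟨j, hj, rfl⟩ := h
  exact g.op_mem 19 [j] (mem_list₁ hj) ⟨{ X.a₀ with s := _ }, rfl⟩

theorem Sn.pre {s : Set O} (h : g.Sn s) {f : O → O} (hf : g.Fn f) : g.Sn (f ⁻¹' s) := by
  obtain ⟨j, hj, rfl⟩ := hf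
  obtain ⟨j', hj', rfl⟩ := h
  exact g.op_mem 13 [j, j'] (mem_list₂ hj hj') ⟨{ X.a₀ with s := _ }, rfl⟩

theorem Fn.comp {f f' : O → O} (h : g.Fn f) (h' : g.Fn f') : g.Fn (f ∘ f') := by
  obtain ⟨j, hj, rfl⟩ := h
  obtain ⟨j', hj', rfl⟩ := h'
  exact g.op_mem 18 [j, j'] (mem_list₂ hj hj') ⟨{ X.a₀ with f := _ }, rfl⟩

theorem Fn.ev {f : O → O} (h : g.Fn f) {b : O} (hb : g.On b) :
    ev g.E (g.fM univ f) (g.o b) = g.o (f b) :=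
  (h.seq g.sn_univ g.sn_univ.mem_s).2 b hb trivial

theorem Fn.isFun {f : O → O} (h : g.Fn f) (hf : ∀ x, f x < X.k) :
    IsFun g.E (g.fM univ f) (g.sM univ) (g.o X.k) :=
  (h.seq g.sn_univ g.sn_univ.mem_s).1.isFun fun x hx => by
    obtain ⟨b, h1, -, rfl⟩ := (g.sn_univ.mem_s x).1 hx
    rw [h.ev h1]
    exact (o_lt (h.app h1) g.on_k).2 (hf b)

variable (g)

noncomputable def SM : g.M := g.val (X.FN .S (envOf X.a₀ []))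
noncomputable def UM : g.M := g.val (X.FN .U (envOf X.a₀ []))

theorem mem_S (x : g.M) : g.E x g.SM ↔ ∃ f, g.Fn f ∧ (∀ x, f x < X.k) ∧ x = g.fM univ f := by
  obtain ⟨p, hp⟩ := g.toGen.ne
  refine (g.mem_FN .S [] mem_list₀ (fun j hj => Fn.mem ⟨j, hj, rfl⟩ g.sn_univ) x).trans
    ⟨fun ⟨j', h1, _, _, h2, h3⟩ => ⟨_, ⟨j', h1, rfl⟩, h2, h3⟩, ?_⟩
  rintro ⟨_, ⟨j', h1, rfl⟩, h2, h3⟩
  exact ⟨j', h1, p, hp, h2, h3⟩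

theorem mem_U (x : g.M) : g.E x g.UM ↔ ∃ s, g.Sn s ∧ s ∈ X.U ∧ x = g.sM s := by
  obtain ⟨p, hp⟩ := g.toGen.ne
  refine (g.mem_FN .U [] mem_list₀ (fun j hj => Sn.mem ⟨j, hj, rfl⟩) x).trans
    ⟨fun ⟨j', h1, _, _, h2, h3⟩ => ⟨_, ⟨j', h1, rfl⟩, h2, h3⟩, ?_⟩
  rintro ⟨_, ⟨j', h1, rfl⟩, h2, h3⟩
  exact ⟨j', h1, p, hp, h2, h3⟩

variable {g}

theorem Sn.ae {s : Set O} (h : g.Sn s) (hs : s ∈ X.U) {Q : g.M → Prop}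
    (hQ : ∀ b, g.On b → b ∈ s → Q (g.o b)) : AE g.E g.UM Q :=
  ⟨_, (g.mem_U _).2 ⟨s, h, hs, rfl⟩, fun x hx => by
    obtain ⟨b, h1, h2, rfl⟩ := (h.mem_s x).1 hx
    exact hQ b h1 h2⟩

theorem rl_iff {σ : Name X.P} (hσ : σ ∈ g.N) {a b : O} (ha : g.On a) (hb : g.On b) :
    App g.E (g.val σ) (g.o a) (g.o b) ↔ ∃ q, g.G q ∧ Rl σ a b q := g.app_val hσ ha.mem hb.mem

theorem not_nv {σ : Name X.P} (hσ : σ ∈ g.N) {a b δ : O} (ha : g.On a) (hb : g.On b) (h : b < δ)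
    (h1 : App g.E (g.val σ) (g.o a) (g.o b)) {r : X.P} (hr : g.G r) : ¬ Nv (X.Tot σ a δ) r :=
  let ⟨_, h2, h3⟩ := (rl_iff hσ ha hb).1 h1
  g.clash (Gd.Tot.mono X _ _ _) h2 hr ⟨b, h, h3⟩

theorem ex_app {σ τ : Name X.P} (hσ : σ ∈ g.N) (hτ : τ ∈ g.N) {ξ γ δ ζ : O} (h1 : g.On ξ)
    (h2 : g.On γ) (h3 : g.On δ) (h4 : g.On ζ) (h5 : ζ < δ)
    (h6 : App g.E (g.val τ) (g.o ξ) (g.o ζ)) {r : X.P} (hr : g.G r)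
    (h : Dns (fun r => ∃ ζ, X.EX σ τ ξ γ δ r ζ) r) :
    ∃ ζ', g.On ζ' ∧ ζ' < γ ∧ App g.E (g.val σ) (g.o ξ) (g.o ζ') := by
  have h1' := h1
  obtain ⟨j₁, l1, rfl⟩ := h1
  obtain ⟨j₂, l2, rfl⟩ := h2
  obtain ⟨j₃, l3, rfl⟩ := h3
  obtain ⟨s, hs, j, hj, -, -, h7 | h7⟩ := g.meet .ex [σ, τ] [j₁, j₂, j₃] (mem_list₂ hσ hτ)
    (mem_listc l1 (mem_list₂ l2 l3)) r hr fun s hs =>
      let ⟨t, l4, ζ, l5⟩ := h s hs; ⟨t, l4, { X.a₀ with o := ζ }, emptyName, l5⟩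
  · exact ⟨j.o, ⟨j, hj, rfl⟩, h7.1, (rl_iff hσ h1' ⟨j, hj, rfl⟩).2 ⟨s, hs, h7.2⟩⟩
  · exact absurd h7 (not_nv hτ h1' h4 h5 h6 hs)

end Hull

end Pool.Agent.Work.MP_1ec257_lc
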