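import Pool.Agent.Work.MP_1ec257_lc.Ext1

/-! The extender and the list of all measures in the generic extension. -/

namespace Pool.Agent.Work.MP_1ec257_lc
open Pool.Agent.Lib.ZFModel Pool.Agent.Work.MP_63c7e0_lc Pool.Agent.Work.MP_58a5a1_lc Name Set

set_option synthInstance.maxSize 100000

variable {O : Type} [LinearOrder O] [WellFoundedLT O] {X : Gd O} (g : Hull X.a₀ X.W)

namespace Hull

theorem dir_U (A B : g.M) (hA : g.E A g.UM) (hB : g.E B g.UM) :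
    ∃ C, g.E C g.UM ∧ Sub g.E C A ∧ Sub g.E C B := by
  obtain ⟨s, h1, h2, rfl⟩ := (g.mem_U _).1 hA
  obtain ⟨t, h3, h4, rfl⟩ := (g.mem_U _).1 hB
  refine ⟨_, (g.mem_U _).2 ⟨_, h1.inter h3, Filter.inter_mem h2 h4, rfl⟩, fun x hx => ?_,
    fun x hx => ?_⟩ <;> obtain ⟨b, l1, l2, rfl⟩ := ((h1.inter h3).mem_s x).1 hx
  · exact (h1.o_mem l1).2 l2.1
  · exact (h3.o_mem l1).2 l2.2

theorem capt {s : O → O} (h1 : g.Fn s) (h2 : ∀ x, s x < X.k) {e : g.M}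
    (he : IsFun g.E e (g.o X.k) (g.o X.k)) : ∃ f, g.Fn f ∧ (∀ x, f x < X.k) ∧
      ∃ A, g.Sn A ∧ A ∈ X.U ∧ ∀ b, g.On b → b ∈ A → ev g.E e (g.o (s b)) = g.o (f (s b)) := by
  obtain ⟨σ, hσ, rfl⟩ := g.val_surj e
  have h1' := h1
  obtain ⟨j, hj, rfl⟩ := h1
  obtain ⟨r, hr, i, hi, -, -, h | h⟩ := g.req .gr [σ] [j] (mem_list₁ hσ) (mem_list₁ hj)
    fun r => X.ex_gr _ _ r h2
  · refine ⟨i.f, ⟨i, hi, rfl⟩, h.2.1, i.s, ⟨i, hi, rfl⟩, h.1, fun b l1 l2 => ?_⟩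
    exact (IsFun.seq he).ev_eq ((rl_iff hσ (h1'.app l1) (Fn.app ⟨i, hi, rfl⟩ (h1'.app l1))).2
      ⟨r, hr, h.2.2 b l2⟩)
  · have l1 : g.On i.o := ⟨i, hi, rfl⟩
    have l2 := (o_lt l1 g.on_k).2 h.1
    obtain ⟨ζ, l3, l4, l5⟩ := (g.on_k.mem_o _).1 (IsFun.ev_mem he l2)
    exact absurd h.2 (not_nv hσ l1 l3 l4 (l5 ▸ (IsFun.seq he).app l2) hr)

theorem ref_of {s t : O → O} (hs : g.Fn s) (ht : g.Fn t) (h : ∀ x x', s x = s x' → t x = t x') :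
    Ref g.E (g.sM univ) (g.fM univ s) (g.fM univ t) := fun x hx x' hx' e => by
  obtain ⟨b, h1, -, rfl⟩ := (g.sn_univ.mem_s x).1 hx
  obtain ⟨b', h2, -, rfl⟩ := (g.sn_univ.mem_s x').1 hx'
  rw [hs.ev h1, hs.ev h2] at e
  rw [ht.ev h1, ht.ev h2, h _ _ (o_inj (hs.app h1) (hs.app h2) e)]

noncomputable def sys : Sys g.E where
  nat n := g.o (X.nat n)
  w := g.o X.w
  mem_nat a n := ((g.on_nat n).mem_o a).trans ⟨fun ⟨b, _, h1, h2⟩ =>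
    let ⟨m, h3, h4⟩ := (X.lt_nat _ _).1 h1; ⟨m, h3, h4 ▸ h2⟩,
    fun ⟨m, h1, h2⟩ => ⟨_, g.on_nat m, (X.lt_nat _ _).2 ⟨m, h1, rfl⟩, h2⟩⟩
  mem_w a := (g.on_w.mem_o a).trans ⟨fun ⟨b, _, h1, h2⟩ =>
    let ⟨m, h4⟩ := (X.lt_w _).1 h1; ⟨m, h4 ▸ h2⟩,
    fun ⟨m, h2⟩ => ⟨_, g.on_nat m, (X.lt_w _).2 ⟨m, rfl⟩, h2⟩⟩
  k := g.o X.k
  I := g.sM univ
  S := g.SM
  U := g.UM
  d := g.fM univ X.d
  w_k := (o_lt g.on_w g.on_k).2 X.w_lt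
  ord_k := g.on_k.isOrd
  S_fun s hs := by
    obtain ⟨f, h1, h2, rfl⟩ := (g.mem_S _).1 hs
    exact h1.isFun h2
  U_sub A hA x hx := by
    obtain ⟨s, h1, -, rfl⟩ := (g.mem_U _).1 hA
    obtain ⟨b, h2, -, rfl⟩ := (h1.mem_s x).1 hx
    exact (g.sn_univ.o_mem h2).2 trivial
  U_dir := g.dir_U
  U_pr A hA := by
    obtain ⟨s, h1, h2, rfl⟩ := (g.mem_U _).1 hA
    have h1' := h1
    obtain ⟨j, hj, rfl⟩ := h1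
    obtain ⟨i, hi, h⟩ := g.op_mem 10 [j] (mem_list₁ hj)
      (let ⟨x, hx⟩ := X.U.nonempty_of_mem h2; ⟨{ X.a₀ with o := x }, hx⟩)
    exact ⟨_, (h1'.o_mem ⟨i, hi, rfl⟩).2 h⟩
  d_S := (g.mem_S _).2 ⟨_, g.fn_d, X.d_lt, rfl⟩
  d_gt ξ hξ := by
    obtain ⟨a, h1, h2, rfl⟩ := (g.on_k.mem_o _).1 hξ
    have h1' := h1
    obtain ⟨j, hj, rfl⟩ := h1
    refine Sn.ae (g.op_mem 11 [j] (mem_list₁ hj) ⟨{ X.a₀ with s := _ }, rfl⟩) (X.d_gt _ h2)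
      fun b l1 l2 => ?_
    rw [g.fn_d.ev l1]
    exact (o_lt h1' (g.fn_d.app l1)).2 l2
  d_min t ht := by
    obtain ⟨f, h1, h2, rfl⟩ := (g.mem_S _).1 ht
    have h1' := h1
    obtain ⟨j, hj, rfl⟩ := h1
    obtain ⟨i, hi, h3, h4 | h4⟩ := g.op_mem 12 [j] (mem_list₁ hj) (by
      rcases X.d_min _ h2 with h | ⟨ξ, h, h'⟩
      · exact ⟨{ X.a₀ with s := _ }, h, Or.inl fun _ h => h⟩
      · exact ⟨{ X.a₀ with s := _, o := ξ }, h', Or.inr ⟨h, fun _ h => h⟩⟩)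
    · refine Or.inl (Sn.ae ⟨i, hi, rfl⟩ h3 fun b l1 l2 => ?_)
      rw [g.fn_d.ev l1, h1'.ev l1, o_lt (h1'.app l1) (g.fn_d.app l1)]
      exact not_lt.2 (h4 b l2)
    · refine Or.inr ⟨g.o i.o, (o_lt ⟨i, hi, rfl⟩ g.on_k).2 h4.1,
        Sn.ae ⟨i, hi, rfl⟩ h3 fun b l1 l2 => ?_⟩
      rw [h1'.ev l1]
      exact congrArg g.o (h4.2 b l2)
  dir s t hs ht := by
    obtain ⟨_, ⟨j, hj, rfl⟩, h2, rfl⟩ := (g.mem_S _).1 hs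
    obtain ⟨_, ⟨j', hj', rfl⟩, h4, rfl⟩ := (g.mem_S _).1 ht
    obtain ⟨i, hi, h5, h6⟩ := g.op_mem 8 [j, j'] (mem_list₂ hj hj')
      (let ⟨u, h⟩ := X.ex_dir h2 h4; ⟨{ X.a₀ with f := u }, h⟩)
    exact ⟨_, (g.mem_S _).2 ⟨_, ⟨i, hi, rfl⟩, h5, rfl⟩,
      g.ref_of ⟨i, hi, rfl⟩ ⟨j, hj, rfl⟩ fun x x' e => (h6 x x' e).1,
      g.ref_of ⟨i, hi, rfl⟩ ⟨j', hj', rfl⟩ fun x x' e => (h6 x x' e).2⟩
  gr s e hs he := by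
    obtain ⟨s, h1, h2, rfl⟩ := (g.mem_S _).1 hs
    obtain ⟨f, h3, h4, A, h5, h6, h7⟩ := g.capt h1 h2 he
    refine ⟨_, (g.mem_S _).2 ⟨_, h3.comp h1, fun x => h4 _, rfl⟩, h5.ae h6 fun b l1 l2 => ?_⟩
    rw [h1.ev l1, (h3.comp h1).ev l1, h7 b l1 l2]; rfl
  cl σ hσ := by
    obtain ⟨σ, h0, rfl⟩ := g.val_surj σ
    obtain ⟨r, hr, u, hu, -, -, h1, h2, h3⟩ := g.req .cl₁ [σ] [] (mem_list₁ h0) mem_list₀
      fun r => X.ex_cl _ _ r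
    have hu' : g.Fn u.f := ⟨u, hu, rfl⟩
    refine ⟨_, (g.mem_S _).2 ⟨_, hu', h1, rfl⟩, fun x hx x' hx' e =>
      ⟨g.ref_of hu' g.fn_d h2 x hx x' hx' e, fun i hi => ?_⟩⟩
    obtain ⟨b, l1, -, rfl⟩ := (g.sn_univ.mem_s x).1 hx
    obtain ⟨b', l2, -, rfl⟩ := (g.sn_univ.mem_s x').1 hx'
    rw [g.fn_d.ev l1] at hi
    obtain ⟨_, l3, l4, rfl⟩ := ((g.fn_d.app l1).mem_o _).1 hi
    have l5 := (o_lt l3 g.on_k).2 (l4.trans (X.d_lt _))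
    have l3' := l3
    obtain ⟨i, hi', rfl⟩ := l3
    rw [hu'.ev l1, hu'.ev l2] at e
    obtain ⟨s, hs, j, hj, -, -, h | h⟩ := g.meet .cl₂ [σ] [u, i] (mem_list₁ h0) (mem_list₂ hu hi')
      r hr fun s hs => let ⟨t, m1, f, m2⟩ := h3 _ (l4.trans (X.d_lt _)) s hs
        ⟨t, m1, { X.a₀ with f := f }, emptyName, m2⟩
    · have hj' : g.Fn j.f := ⟨j, hj, rfl⟩
      have m1 : ev g.E (g.val σ) (g.o i.o) = g.fM univ j.f := (IsFun.seq hσ).ev_eq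
        ((g.app_val h0 l3'.mem (hj'.mem g.sn_univ)).2 ⟨s, hs, h.1⟩)
      rw [m1, hj'.ev l1, hj'.ev l2, h.2 b b' (o_inj (hu'.app l1) (hu'.app l2) e) l4]
    · obtain ⟨f, m1, m2, m3⟩ := (g.mem_S _).1 (IsFun.ev_mem hσ l5)
      obtain ⟨q, m4, m5⟩ := (g.app_val h0 l3'.mem (m1.mem g.sn_univ)).1
        (show App g.E _ _ (g.fM univ f) from m3 ▸ (IsFun.seq hσ).app l5)
      exact (g.clash (Gd.TotS.mono X _ _) m4 hs ⟨f, m2, m5⟩ h).elim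

theorem sub_k {Z : Set O} (h : g.Sn (Z ∩ Iio X.k)) : Sub g.E (g.sM (Z ∩ Iio X.k)) (g.o X.k) :=
  fun x hx => by
    obtain ⟨b, h1, h2, rfl⟩ := (h.mem_s x).1 hx
    exact (o_lt h1 g.on_k).2 h2.2

/-- Every measure of the extension is generated by a measure of the ground model. -/
theorem ground {W : g.M} (hW : IsMeasure g.E (g.o X.k) W) : ∃ y, g.Yn y ∧
    ∀ Z, g.Sn (Z ∩ Iio X.k) → (g.E (g.sM (Z ∩ Iio X.k)) W ↔ Z ∈ X.ult y) := by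
  obtain ⟨σ, hσ, rfl⟩ := g.val_surj W
  obtain ⟨r, hr, j, hj, -, -, h | h⟩ := g.req .meas [σ] [] (mem_list₁ hσ) mem_list₀
    fun r => X.ex_meas _ _ r
  · refine ⟨j.y, ⟨j, hj, rfl⟩, fun Z hZ => (g.E_val hZ.mem hσ).trans ⟨fun ⟨q, h1, h2⟩ => ?_,
      fun h1 => ⟨r, hr, (h.2 Z).1 h1⟩⟩⟩
    exact (h.2 Z).2 ((h.1 Z).resolve_right (g.clash (Gd.In.mono X _ _) h1 hr h2))
  · exfalso
    have hq : ∀ i ∈ g.AN, g.Sn (j.q i.o ∩ Iio X.k) := fun i hi =>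
      g.op_mem 5 [j, i] (mem_list₂ hj hi) ⟨{ X.a₀ with s := _ }, rfl⟩
    have hj' : g.On j.o := ⟨j, hj, rfl⟩
    obtain ⟨-, h2⟩ := g.app_FN .seq [j] (mem_list₁ hj) (fun i => X.subN (j.q i.o ∩ Iio X.k))
      (fun _ => rfl) fun i hi => ⟨On.mem ⟨i, hi, rfl⟩, (hq i hi).mem⟩
    have h3 : ∀ i ∈ g.AN, i.o < j.o → ev g.E (g.val (X.FN .seq (envOf X.a₀ [j]))) (g.o i.o) =
        g.sM (j.q i.o ∩ Iio X.k) := fun i hi hlt =>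
      ((ev_iff _ _ _).2 (Or.inl ⟨(h2 _ _).2 ⟨i, hi, r, hr, hlt, rfl, rfl⟩, fun y' hy => by
        obtain ⟨i', l1, -, -, -, l2, rfl⟩ := (h2 _ _).1 hy
        rw [o_inj ⟨i, hi, rfl⟩ ⟨i', l1, rfl⟩ l2]⟩)).symm
    have l0 := (o_lt hj' g.on_k).2 h.1
    obtain ⟨α, l1, l2, l3⟩ := hW.point l0 l0 (F := g.val (X.FN .seq (envOf X.a₀ [j])))
      fun i hi => by
        obtain ⟨_, ⟨i, m1, rfl⟩, m2, rfl⟩ := (hj'.mem_o _).1 hi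
        rw [h3 i m1 m2]
        exact g.sub_k (hq i m1)
    obtain ⟨_, ⟨α, l4, rfl⟩, l5, rfl⟩ := (g.on_k.mem_o _).1 l1
    have l4' : g.On α.o := ⟨α, l4, rfl⟩
    rw [o_lt l4' hj', not_lt] at l2
    obtain ⟨s, hs, i, hi, -, -, m1, m2⟩ := g.meet .meas₂ [σ] [j, α] (mem_list₁ hσ)
      (mem_list₂ hj l4) r hr fun s hs =>
        let ⟨t, m1, i, m2⟩ := h.2 _ l2 l5 s hs; ⟨t, m1, { X.a₀ with o := i }, emptyName, m2⟩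
    have m3 := l3 _ ((o_lt ⟨i, hi, rfl⟩ hj').2 m1)
    rw [h3 i hi m1, (hq i hi).o_mem l4'] at m3
    rcases m2 with m2 | m2
    · obtain ⟨q, m4, m5⟩ := (g.E_val (hq i hi).mem hσ).1 (m3.1 ⟨m2.1, l5⟩)
      exact g.clash (Gd.In.mono X _ _) m4 hs m5 m2.2
    · exact m2.1 (m3.2 ((g.E_val (hq i hi).mem hσ).2 ⟨s, hs, m2.2⟩)).1

theorem seed {W : g.M} (hW : IsMeasure g.E (g.o X.k) W) : ∃ y, g.Yn y ∧
    ∀ β, g.On β → β < X.kp → ∀ Z, Sub g.E Z (g.o X.k) →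
      (g.E Z W ↔ AE g.E g.UM fun x => g.E (ev g.E (g.fM univ (X.sd β y)) x) Z) := by
  obtain ⟨y, hy, h⟩ := g.ground hW
  refine ⟨y, hy, fun β h1 h2 Z hZ => ?_⟩
  have h3 := fn_sd h1 hy
  obtain ⟨σ, hσ, rfl⟩ := g.val_surj Z
  obtain ⟨j, hj, rfl⟩ := hy
  obtain ⟨r, hr, i, hi, -, -, h4, h5⟩ := g.req .hom [σ] [j] (mem_list₁ hσ) (mem_list₁ hj)
    fun r => X.ex_hom _ _ r
  have h6 : g.Sn (i.s ∩ Iio X.k) := Sn.inter ⟨i, hi, rfl⟩ g.on_k.iio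
  have h7 := (h _ h6).2 h4
  have h8 : AE g.E g.UM fun x => g.E (ev g.E (g.fM univ (X.sd β j.y)) x) (g.sM (i.s ∩ Iio X.k)) :=
    (h6.pre h3).ae ((X.sd_map β h2 _ _).2 (Filter.inter_mem h4 (X.k_mem _))) fun b l1 l2 => by
      rw [h3.ev l1]; exact (h6.o_mem (h3.app l1)).2 l2
  rcases h5 with h5 | h5
  · have h9 : Sub g.E (g.sM (i.s ∩ Iio X.k)) (g.val σ) := fun x hx => by
      obtain ⟨b, l1, l2, rfl⟩ := (h6.mem_s x).1 hx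
      exact (g.E_val l1.mem hσ).2 ⟨r, hr, h5 b l2.1⟩
    exact iff_of_true (hW.1.2.2.2.1 _ _ h7 h9 hZ) (h8.mono fun x hx => h9 _ hx)
  · have h9 : ∀ x, g.E x (g.sM (i.s ∩ Iio X.k)) → ¬ g.E x (g.val σ) := fun x hx hx' => by
      obtain ⟨b, l1, l2, rfl⟩ := (h6.mem_s x).1 hx
      obtain ⟨q, l3, l4⟩ := (g.E_val l1.mem hσ).1 hx'
      exact g.clash (Q := MemF (ordN b) σ) (fun _ _ hq h => h.mono hq) l3 hr l4 (h5 b l2.1)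
    refine iff_of_false (fun l1 => ?_) fun l1 =>
      Sys.ae_false (D := g.sys) h8 l1 fun x _ l2 l3 => h9 _ l2 l3
    obtain ⟨x, -, l2, l3⟩ := hW.1.ex (hW.1.and ⟨_, h7, fun _ h => h⟩ ⟨_, l1, fun _ h => h⟩)
    exact h9 x l2 l3

noncomputable def LM : g.M := g.val (X.FN .lv (envOf X.a₀ []))
noncomputable def EnM : g.M := g.val (X.FN .en (envOf X.a₀ []))
noncomputable def RM : g.M := g.val (X.FN .rc (envOf X.a₀ []))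

theorem app_L (x y : g.M) : App g.E g.LM x y ↔ ∃ j ∈ g.AN, ∃ r, g.G r ∧ j.o < X.kp ∧
    x = g.o j.o ∧ y = g.fM univ (X.sd j.o j.y) :=
  (g.app_FN .lv [] mem_list₀ (fun j => X.funN univ (X.sd j.o j.y)) (fun _ => rfl) fun j hj =>
    ⟨On.mem ⟨j, hj, rfl⟩, (fn_sd ⟨j, hj, rfl⟩ ⟨j, hj, rfl⟩).mem g.sn_univ⟩).2 x y

theorem join {β : O} (hβ : g.On β) {y : X.Y} (hy : g.Yn y) : ∃ j ∈ g.AN, j.o = β ∧ j.y = y := by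
  obtain ⟨j, hj, rfl⟩ := hβ
  obtain ⟨j', hj', rfl⟩ := hy
  exact g.op_mem 20 [j, j'] (mem_list₂ hj hj') ⟨{ X.a₀ with o := _, y := _ }, rfl, rfl⟩

theorem ev_En {y : X.Y} (hy : g.Yn y) {β : O} (hβ : g.On β) (h : β < X.kp) {r : X.P}
    (hr : g.G r) (hG : Cond.Gn β y r) : ev g.E g.EnM (g.o β) = g.fM univ (X.sd X.k y) := by
  obtain ⟨-, h2⟩ := g.app_FN .en [] mem_list₀ (fun j => X.funN univ (X.sd X.k j.y)) (fun _ => rfl)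
    fun j hj => ⟨On.mem ⟨j, hj, rfl⟩, (fn_sd g.on_k ⟨j, hj, rfl⟩).mem g.sn_univ⟩
  obtain ⟨j, hj, rfl, rfl⟩ := g.join hβ hy
  exact ((ev_iff _ _ _).2 (Or.inl ⟨(h2 _ _).2 ⟨j, hj, r, hr, ⟨h, hG⟩, rfl, rfl⟩, fun y' hy => by
    obtain ⟨i, l1, r', l3, l4, l2, rfl⟩ := (h2 _ _).1 hy
    obtain ⟨s, -, l5, l6⟩ := g.dir _ _ hr l3
    rw [(Cond.Gn.mono _ _ _ _ l5 hG).func
      (o_inj ⟨j, hj, rfl⟩ ⟨i, l1, rfl⟩ l2 ▸ Cond.Gn.mono _ _ _ _ l6 l4.2)]⟩)).symm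

theorem rel_mem {a : O} (h : g.On a) : relN (X.dec a) ∈ g.N := by
  obtain ⟨j, hj, rfl⟩ := h
  obtain ⟨_, _, _, _, _, hy, h⟩ := g.req .rel [] [j] mem_list₀ (mem_list₁ hj)
    fun r => ⟨r, le_rfl, X.a₀, _, rfl⟩
  exact (show _ = _ from h) ▸ hy

theorem ev_R {a : O} (h : g.On a) (ha : a < X.k) :
    ev g.E g.RM (g.o a) = g.val (relN (X.dec a)) := by
  obtain ⟨-, h2⟩ := g.app_FN .rc [] mem_list₀ (fun j => relN (X.dec j.o)) (fun _ => rfl)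
    fun j hj => ⟨On.mem ⟨j, hj, rfl⟩, g.rel_mem ⟨j, hj, rfl⟩⟩
  obtain ⟨p, hp⟩ := g.toGen.ne
  obtain ⟨j, hj, rfl⟩ := h
  exact ((ev_iff _ _ _).2 (Or.inl ⟨(h2 _ _).2 ⟨j, hj, p, hp, ha, rfl, rfl⟩, fun y' hy => by
    obtain ⟨i', l1, -, -, -, l2, rfl⟩ := (h2 _ _).1 hy
    rw [o_inj ⟨j, hj, rfl⟩ ⟨i', l1, rfl⟩ l2]⟩)).symm

noncomputable def full : Full g.E where
  toSys := g.sys
  l := g.o X.kp
  L := g.LM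
  En := g.EnM
  Rc := g.RM
  ord_l := g.on_kp.isOrd
  k_l := (o_lt g.on_k g.on_kp).2 X.k_lt
  inj α hα := by
    obtain ⟨a, h1, h2, rfl⟩ := (g.on_kp.mem_o _).1 hα
    have h1' := h1
    obtain ⟨j, hj, rfl⟩ := h1
    obtain ⟨i, hi, h3, h4⟩ := g.op_mem 7 [j] (mem_list₁ hj)
      (let ⟨e, h⟩ := X.inj _ h2; ⟨{ X.a₀ with f := e }, h⟩)
    have hi' : g.Fn i.f := ⟨i, hi, rfl⟩
    obtain ⟨h5, h6⟩ := hi'.seq h1'.iio h1'.mem_o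
    refine ⟨_, h5.isFun fun x hx => ?_, fun x x' y l1 l2 => ?_⟩
    · obtain ⟨b, l1, l2, rfl⟩ := (h1'.mem_o _).1 hx
      rw [h6 b l1 l2]
      exact (o_lt (hi'.app l1) g.on_k).2 (h3 b l2)
    · obtain ⟨l3, rfl⟩ := h5.app_iff.1 l1
      obtain ⟨l4, l5⟩ := h5.app_iff.1 l2
      obtain ⟨b, m1, m2, rfl⟩ := (h1'.mem_o _).1 l3
      obtain ⟨b', m3, m4, rfl⟩ := (h1'.mem_o _).1 l4
      rw [h6 b m1 m2, h6 b' m3 m4] at l5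
      rw [h4 m2 m4 (o_inj (hi'.app m1) (hi'.app m3) l5)]
  bdd f hf := by
    obtain ⟨σ, hσ, rfl⟩ := g.val_surj f
    obtain ⟨r, hr, j, hj, -, -, h1, h2⟩ := g.req .bdd [σ] [] (mem_list₁ hσ) mem_list₀
      fun r => X.ex_bdd _ _ r
    have hj' : g.On j.o := ⟨j, hj, rfl⟩
    refine ⟨_, (o_lt hj' g.on_kp).2 h1, fun x y hx hy h => ?_⟩
    obtain ⟨ξ, l1, l2, rfl⟩ := (g.on_k.mem_o _).1 hx
    obtain ⟨ζ, l3, l4, rfl⟩ := (g.on_kp.mem_o _).1 hy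
    obtain ⟨ζ', l5, l6, l7⟩ := ex_app hσ hσ l1 hj' g.on_kp l3 l4 h hr (h2 ξ l2)
    rw [hf _ _ _ h l7]
    exact (o_lt l5 hj').2 l6
  lv β W hβ hW := by
    obtain ⟨b, h1, h2, rfl⟩ := (g.on_kp.mem_o _).1 hβ
    obtain ⟨y, hy, h⟩ := g.seed hW
    obtain ⟨j, hj, rfl, rfl⟩ := g.join h1 hy
    obtain ⟨p, hp⟩ := g.toGen.ne
    exact ⟨_, (g.mem_S _).2 ⟨_, fn_sd h1 hy, X.sd_lt _ _, rfl⟩,
      (g.app_L _ _).2 ⟨j, hj, p, hp, h2, rfl, rfl⟩, h _ h1 h2⟩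
  lv_inc β γ t t' h h1 h2 := by
    obtain ⟨j, hj, -, -, -, rfl, rfl⟩ := (g.app_L _ _).1 h1
    obtain ⟨j', hj', -, -, h3, rfl, rfl⟩ := (g.app_L _ _).1 h2
    have l1 : g.Fn (X.sd j.o j.y) := fn_sd ⟨j, hj, rfl⟩ ⟨j, hj, rfl⟩
    have l2 : g.Fn (X.sd j'.o j'.y) := fn_sd ⟨j', hj', rfl⟩ ⟨j', hj', rfl⟩
    have l3 := X.sd_inc _ _ j.y j'.y ((o_lt ⟨j, hj, rfl⟩ ⟨j', hj', rfl⟩).1 h) h3
    have l4 : g.Sn {x | X.sd j.o j.y x < X.sd j'.o j'.y x} := by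
      obtain ⟨i, hi, e⟩ := l1
      obtain ⟨i', hi', e'⟩ := l2
      rw [← e, ← e']
      exact g.op_mem 14 [i, i'] (mem_list₂ hi hi') ⟨{ X.a₀ with s := _ }, rfl⟩
    refine l4.ae l3 fun b m1 m2 => ?_
    rw [l1.ev m1, l2.ev m1]
    exact (o_lt (l1.app m1) (l2.app m1)).2 m2
  en β hβ := by
    obtain ⟨_, ⟨i, hi, rfl⟩, h2, rfl⟩ := (g.on_kp.mem_o _).1 hβ
    obtain ⟨r, hr, j, hj, _, _, h⟩ := g.req .tot [] [i] mem_list₀ (mem_list₁ hi)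
      fun r => X.ex_tot _ _ r
    have h3 : g.Fn (X.sd X.k j.y) := fn_sd g.on_k ⟨j, hj, rfl⟩
    rw [g.ev_En ⟨j, hj, rfl⟩ ⟨i, hi, rfl⟩ h2 hr h]
    refine ⟨(g.mem_S _).2 ⟨_, h3, X.sd_lt _ _, rfl⟩, fun ξ hξ => ?_⟩
    obtain ⟨x, l1, l2⟩ := Sys.ae_ex (D := g.sys) hξ
    obtain ⟨b, l3, -, rfl⟩ := (g.sn_univ.mem_s x).1 l1
    rw [h3.ev l3] at l2
    subst l2
    have l4 : g.Sn {x | X.sd X.k j.y x ≠ X.sd X.k j.y b} := by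
      obtain ⟨i', hi', e'⟩ := h3.app l3
      obtain ⟨i, hi, e⟩ := h3
      rw [← e', ← e]
      exact g.op_mem 15 [i, i'] (mem_list₂ hi hi') ⟨{ X.a₀ with s := _ }, rfl⟩
    refine Sys.ae_false (D := g.sys) hξ (l4.ae (Q := fun x =>
      ev g.E (g.fM univ (X.sd X.k j.y)) x ≠ g.o (X.sd X.k j.y b))
      ((X.sd_map _ X.k_lt j.y {X.sd X.k j.y b}ᶜ).2 (Ultrafilter.compl_mem_iff_notMem.2 (X.np _ _)))
      fun c m1 m2 => ?_) fun x _ m1 m2 => m2 m1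
    rw [h3.ev m1]
    exact fun e => m2 (o_inj (h3.app m1) (h3.app l3) e)
  nr W hW := by
    have := ne g.E
    obtain ⟨_, ⟨j, hj, rfl⟩, h⟩ := g.seed hW
    obtain ⟨j', hj', h1⟩ := g.op_mem 16 [j] (mem_list₁ hj)
      (let ⟨y, h⟩ := X.nr j.y; ⟨{ X.a₀ with y := y }, h⟩)
    obtain ⟨r, hr, i, hi, -, -, h2, h3⟩ := g.req .sur [] [j'] mem_list₀ (mem_list₁ hj')
      fun r => X.ex_sur _ _ r
    have h4 : g.Fn (X.sd X.k j.y) := fn_sd g.on_k ⟨j, hj, rfl⟩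
    have h5 : g.Fn (X.sd X.k j'.y) := fn_sd g.on_k ⟨j', hj', rfl⟩
    refine ⟨_, (o_lt ⟨i, hi, rfl⟩ g.on_kp).2 h2, fun f hf => ?_⟩
    rw [g.ev_En ⟨j', hj', rfl⟩ ⟨i, hi, rfl⟩ h2 hr h3]
    obtain ⟨f₀, l1, -, A, l3, l4, l5⟩ := g.capt h4 (X.sd_lt _ _) hf
    have l1' := l1
    obtain ⟨u, hu, rfl⟩ := l1
    obtain ⟨z, hz, l6, l7⟩ := g.op_mem 17 [j', j, u] (mem_listc hj' (mem_list₂ hj hu))
      (let ⟨Z, h, h'⟩ := h1 u.f; ⟨{ X.a₀ with s := Z }, h, h'⟩)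
    have hz' : g.Sn z.s := ⟨z, hz, rfl⟩
    have l8 : g.Sn (z.s ∩ Iio X.k) := hz'.inter g.on_k.iio
    refine ⟨_, g.sub_k l8, (l8.pre h5).ae ((X.sd_map _ X.k_lt _ _).2
      (Filter.inter_mem l6 (X.k_mem _))) fun b m1 m2 => ?_, ?_⟩
    · rw [h5.ev m1]; exact (l8.o_mem (h5.app m1)).2 m2
    · obtain ⟨Z, hZ⟩ := sep (E := g.E) (g.o X.k) fun ξ =>
        ¬ g.E (ev g.E f ξ) (g.sM (z.s ∩ Iio X.k))
      refine ⟨Z, (h _ g.on_k X.k_lt Z fun x hx => ((hZ x).1 hx).1).2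
        ((l3.inter ((hz'.compl.pre l1').pre h4)).ae (Filter.inter_mem l4
          ((X.sd_map _ X.k_lt _ _).2 l7)) fun b m1 m2 => ?_), fun x hx => ((hZ x).1 hx).2⟩
      rw [h4.ev m1, hZ, l5 b m1 m2.1, l8.o_mem (l1'.app (h4.app m1))]
      exact ⟨(o_lt (h4.app m1) g.on_k).2 (X.sd_lt _ _ _), fun h => m2.2 h.1⟩
  code f β hβ hf := by
    obtain ⟨σ, hσ, rfl⟩ := g.val_surj f
    obtain ⟨b, h0, h2, rfl⟩ := (g.on_k.mem_o _).1 hβ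
    have h0' := h0
    obtain ⟨i, hi, rfl⟩ := h0
    obtain ⟨r, hr, j, hj, -, -, h3, h4, h5⟩ := g.req .code [σ] [i] (mem_list₁ hσ) (mem_list₁ hi)
      fun r => X.ex_code _ _ r h2
    have hj' : g.On j.o := ⟨j, hj, rfl⟩
    refine ⟨_, (o_lt hj' g.on_k).2 h3, fun x y hx hy => ?_⟩
    rw [g.ev_R hj' h3]
    have key : ∀ ξ ζ, g.On ξ → g.On ζ → App g.E (g.val (relN (X.dec j.o))) (g.o ξ) (g.o ζ) →
        App g.E (g.val σ) (g.o ξ) (g.o ζ) := fun ξ ζ l1 l2 l3 => by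
      obtain ⟨q, l4, l5⟩ := (rl_iff (g.rel_mem hj') l1 l2).1 l3
      obtain ⟨s, l6, l7, l8⟩ := g.dir _ _ l4 hr
      refine (rl_iff hσ l1 l2).2 ⟨s, l6, Rl.reg fun t ht => ?_⟩
      obtain ⟨u, l9, l10⟩ := (rl_relN (X.dec_mono _)).1 l5 t (ht.trans l7)
      exact ⟨u, l9, h4 _ _ _ (l9.trans (ht.trans l8)) l10⟩
    obtain ⟨ξ, l1, -, rfl⟩ := (g.on_k.mem_o _).1 hx
    obtain ⟨ζ, l3, l4, rfl⟩ := (g.on_k.mem_o _).1 hy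
    refine ⟨fun h => ?_, key _ _ l1 l3⟩
    obtain ⟨ζ', l5, -, l7⟩ := ex_app (g.rel_mem hj') hσ l1 g.on_k g.on_k l3 l4 h hr
      (h5 ξ ((o_lt l1 h0').1 (hf.mem zf h).1))
    rwa [hf.2.2 _ _ _ h (key _ _ l1 l5 l7)]

end Hull

theorem main {κ : Cardinal.{0}} (h : StronglyCompact κ) :
    ∃ (M : Type 1) (E : M → M → Prop), IsZFC E ∧ ∃ k l, IsMeasurableCard E k ∧ IsSuccCard E l k ∧
      GP E k l ∧ ¬ GPU E k l := by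
  obtain ⟨O, _, _, ⟨X⟩⟩ := exists_gd h
  obtain ⟨g⟩ := exists_hull ⟨default, ∅, by simp, fun _ => Cond.cst X.y₀⟩ X.a₀ X.W
  exact ⟨_, g.E, g.zfc, _, _, g.full.main⟩

end Pool.Agent.Work.MP_1ec257_lc
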