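import Pool.Agent.Work.MP_58a5a1_lc.Card
import Pool.Agent.Work.MP_58a5a1_lc.Iface
import Mathlib.Data.List.Infix

/-! The two-step iteration: a Cohen real followed by the collapse with conditions of size `μ`
of the extension. -/

namespace Pool.Agent.Work.MP_1ec257_lc
open Pool.Agent.Work.MP_58a5a1_lc Cardinal Set Order

/-- Cohen conditions. -/
def Coh : Type := List Bool

instance : Preorder Coh where
  le a b := List.IsSuffix b a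
  le_refl a := List.suffix_refl a
  le_trans _ _ _ h h' := List.IsSuffix.trans h' h

instance : Countable Coh := inferInstanceAs (Countable (List Bool))
instance : Inhabited Coh := inferInstanceAs (Inhabited (List Bool))

theorem Coh.split (a b : Coh) : ∃ a' ≤ a, ∃ b' ≤ b, ∀ t, t ≤ a' → t ≤ b' → False := by
  have key : ∀ a b : List Bool, ∃ a', a <:+ a' ∧ ∃ b', b <:+ b' ∧
      ∀ t, a' <:+ t → b' <:+ t → False := fun a b => by
    refine ⟨true :: (List.replicate (List.length b) false ++ a),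
      (List.suffix_append _ _).trans (List.suffix_cons _ _),
      false :: (List.replicate (List.length a) false ++ b),
      (List.suffix_append _ _).trans (List.suffix_cons _ _), fun t h h' => ?_⟩
    have h1 := List.suffix_of_suffix_length_le h h' (by simp; omega)
    have h2 := h1.eq_of_length (by simp; omega)
    simp at h2
  exact key a b

/-- Cohen names for elements of `Y`. -/
structure Nm (Y : Type) where
  rel : Coh → Y → Prop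
  mono : ∀ t t' y, t' ≤ t → rel t y → rel t' y
  func : ∀ t y y', rel t y → rel t y' → y = y'
  dense : ∀ t, ∃ t' ≤ t, ∃ y, rel t' y

variable {O Y : Type} {μ : Cardinal.{0}}

def Nm.Eqv (p : Coh) (a b : Nm Y) : Prop := ∀ t ≤ p, ∀ y y', a.rel t y → b.rel t y' → y = y'

theorem Nm.Eqv.refl (p : Coh) (a : Nm Y) : Nm.Eqv p a a := fun t _ => a.func t

theorem Nm.Eqv.symm {p : Coh} {a b : Nm Y} (h : Nm.Eqv p a b) : Nm.Eqv p b a :=
  fun t ht y y' h1 h2 => (h t ht y' y h2 h1).symm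

theorem Nm.Eqv.mono {p q : Coh} {a b : Nm Y} (h : Nm.Eqv p a b) (hq : q ≤ p) : Nm.Eqv q a b :=
  fun t ht => h t (ht.trans hq)

theorem Nm.Eqv.trans {p : Coh} {a b c : Nm Y} (h : Nm.Eqv p a b) (h' : Nm.Eqv p b c) :
    Nm.Eqv p a c := fun t ht y y' h1 h2 => by
  obtain ⟨s, hs, z, hz⟩ := b.dense t
  exact (h s (hs.trans ht) y z (a.mono _ _ _ hs h1) hz).trans
    (h' s (hs.trans ht) z y' hz (c.mono _ _ _ hs h2))

structure Cond (O Y : Type) (μ : Cardinal.{0}) where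
  p : Coh
  D : Set O
  small : #D ≤ μ
  val : O → Nm Y

instance : Preorder (Cond O Y μ) where
  le r' r := r'.p ≤ r.p ∧ r.D ⊆ r'.D ∧ ∀ i ∈ r.D, Nm.Eqv r'.p (r'.val i) (r.val i)
  le_refl r := ⟨le_rfl, Subset.rfl, fun _ _ => Nm.Eqv.refl _ _⟩
  le_trans _ _ _ h h' := ⟨h.1.trans h'.1, h'.2.1.trans h.2.1, fun i hi =>
    (h.2.2 i (h'.2.1 hi)).trans ((h'.2.2 i hi).mono h.1)⟩

namespace Cond

def setp (r : Cond O Y μ) (p : Coh) : Cond O Y μ := ⟨p, r.D, r.small, r.val⟩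

/-- The term order. -/
def TLe (q' q : Cond O Y μ) : Prop := q.D ⊆ q'.D ∧ ∀ i ∈ q.D, ∀ p, Nm.Eqv p (q'.val i) (q.val i)

theorem setp_le {r : Cond O Y μ} {p : Coh} (h : p ≤ r.p) : r.setp p ≤ r :=
  ⟨h, Subset.rfl, fun _ _ => Nm.Eqv.refl _ _⟩

theorem le_setp {r q : Cond O Y μ} {p : Coh} (h : r ≤ q) (hp : r.p ≤ p) : r ≤ q.setp p :=
  ⟨hp, h.2⟩

theorem TLe.le {q' q : Cond O Y μ} (h : TLe q' q) (p : Coh) : q'.setp p ≤ q.setp p :=
  ⟨le_rfl, h.1, fun i hi => h.2 i hi p⟩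

theorem TLe.refl (q : Cond O Y μ) : TLe q q := ⟨Subset.rfl, fun _ _ _ => Nm.Eqv.refl _ _⟩

theorem TLe.trans (a b c : Cond O Y μ) (h : TLe a b) (h' : TLe b c) : TLe a c :=
  ⟨h'.1.trans h.1, fun i hi p => (h.2 i (h'.1 hi) p).trans (h'.2 i hi p)⟩

theorem closed (hμ : ℵ₀ ≤ μ) : Closed (TLe (O := O) (Y := Y) (μ := μ)) (succ μ) := by
  classical
  intro ι q ⟨i₀⟩ hι hq
  let c : O → ι := fun a => if h : ∃ i, a ∈ (q i).D then h.choose else i₀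
  have hc : ∀ a i, a ∈ (q i).D → a ∈ (q (c a)).D := fun a i hi => by
    have h : ∃ i, a ∈ (q i).D := ⟨i, hi⟩
    simp only [c, dif_pos h]; exact h.choose_spec
  refine ⟨⟨default, ⋃ i, (q i).D, sm_iUnion hμ (lt_succ_iff.1 hι) fun i => (q i).small,
    fun a => (q (c a)).val a⟩, fun i => ⟨subset_iUnion (fun i => (q i).D) i, fun a ha p => ?_⟩⟩
  rcases hq i (c a) with h | h
  · exact (h.2 a (hc a i ha) p).symm
  · exact h.2 a ha p

theorem mix (hμ : ℵ₀ ≤ μ) {q r₀ r₁ : Cond O Y μ} {p₀ p₁ : Coh} (h₀ : r₀ ≤ q.setp p₀)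
    (h₁ : r₁ ≤ q.setp p₁) :
    ∃ q', TLe q' q ∧ (∃ p ≤ r₀.p, q'.setp p ≤ r₀) ∧ ∃ p ≤ r₁.p, q'.setp p ≤ r₁ := by
  obtain ⟨a, ha, b, hb, hab⟩ := Coh.split r₀.p r₁.p
  let ν : O → Nm Y := fun i => ⟨fun t y => (t ≤ a ∧ (r₀.val i).rel t y) ∨
      (t ≤ b ∧ (r₁.val i).rel t y) ∨ ((∀ s ≤ t, ¬ s ≤ a ∧ ¬ s ≤ b) ∧ (q.val i).rel t y),
    fun t t' y h => by
      rintro (h1 | h1 | h1)
      · exact Or.inl ⟨h.trans h1.1, Nm.mono _ _ _ _ h h1.2⟩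
      · exact Or.inr (Or.inl ⟨h.trans h1.1, Nm.mono _ _ _ _ h h1.2⟩)
      · exact Or.inr (Or.inr ⟨fun s hs => h1.1 s (hs.trans h), Nm.mono _ _ _ _ h h1.2⟩),
    fun t y y' => by
      rintro (h1 | h1 | h1) (h2 | h2 | h2)
      · exact Nm.func _ _ _ _ h1.2 h2.2
      · exact (hab t h1.1 h2.1).elim
      · exact absurd h1.1 (h2.1 t le_rfl).1
      · exact (hab t h2.1 h1.1).elim
      · exact Nm.func _ _ _ _ h1.2 h2.2
      · exact absurd h1.1 (h2.1 t le_rfl).2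
      · exact absurd h2.1 (h1.1 t le_rfl).1
      · exact absurd h2.1 (h1.1 t le_rfl).2
      · exact Nm.func _ _ _ _ h1.2 h2.2,
    fun t => by
      by_cases h1 : ∃ s ≤ t, s ≤ a
      · obtain ⟨s, h1, h2⟩ := h1
        obtain ⟨s', h3, y, h4⟩ := (r₀.val i).dense s
        exact ⟨s', h3.trans h1, y, Or.inl ⟨h3.trans h2, h4⟩⟩
      by_cases h2 : ∃ s ≤ t, s ≤ b
      · obtain ⟨s, h1, h2⟩ := h2
        obtain ⟨s', h3, y, h4⟩ := (r₁.val i).dense s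
        exact ⟨s', h3.trans h1, y, Or.inr (Or.inl ⟨h3.trans h2, h4⟩)⟩
      · obtain ⟨s', h3, y, h4⟩ := (q.val i).dense t
        exact ⟨s', h3, y, Or.inr (Or.inr ⟨fun s hs => ⟨fun h => h1 ⟨s, hs.trans h3, h⟩,
          fun h => h2 ⟨s, hs.trans h3, h⟩⟩, h4⟩)⟩⟩
  refine ⟨⟨default, r₀.D ∪ r₁.D, sm_union hμ r₀.small r₁.small, ν⟩,
    ⟨h₀.2.1.trans subset_union_left, fun i hi p t _ y y' h h' => ?_⟩,
    ⟨a, ha, ha, subset_union_left, fun i _ t ht y y' h h' => ?_⟩,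
    ⟨b, hb, hb, subset_union_right, fun i _ t ht y y' h h' => ?_⟩⟩
  · rcases h with h | h | h
    · exact h₀.2.2 i hi t (h.1.trans ha) y y' h.2 h'
    · exact h₁.2.2 i hi t (h.1.trans hb) y y' h.2 h'
    · exact Nm.func _ _ _ _ h.2 h'
  · rcases h with h | h | h
    · exact Nm.func _ _ _ _ h.2 h'
    · exact (hab t ht h.1).elim
    · exact absurd ht (h.1 t le_rfl).1
  · rcases h with h | h | h
    · exact (hab t h.1 ht).elim
    · exact Nm.func _ _ _ _ h.2 h'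
    · exact absurd ht (h.1 t le_rfl).2

/-- Up to the Cohen part, `μ` many dense open sets can be met at once. -/
theorem capture (hμ : ℵ₀ ≤ μ) {Z : Type} (I : Set Z) (hI : #I ≤ μ) (Dn : Z → Cond O Y μ → Prop)
    (hm : ∀ z, Mono (Dn z)) (hd : ∀ z r, ∃ s ≤ r, Dn z s) (r : Cond O Y μ) :
    ∃ q ≤ r, ∀ z ∈ I, ∀ p, ∃ p' ≤ p, Dn z (q.setp p') := by
  obtain ⟨q, h1, h2⟩ := reduce TLe.refl TLe.trans (hμ.trans (le_succ μ)) (closed hμ)
    (I ×ˢ (univ : Set Coh)) (lt_succ_iff.2 (sm_prod hμ hI (sm_count hμ _)))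
    (fun i q => ∃ p' ≤ i.2, Dn i.1 (q.setp p'))
    (fun i _ q q' h ⟨p', h1, h2⟩ => ⟨p', h1, hm _ _ _ (h.le p') h2⟩) r
  refine ⟨q.setp r.p, h1.le r.p, fun z hz p => ?_⟩
  obtain ⟨s, h3, h4⟩ := hd z (q.setp p)
  obtain ⟨q', h5, ⟨p', h6, h7⟩, -⟩ := mix hμ h3 h3
  exact h2 (z, p) ⟨hz, trivial⟩ q' h5 ⟨p', h6.trans h3.1, hm _ _ _ h7 h4⟩

/-- The approximation property. -/
theorem approx (hμ : ℵ₀ ≤ μ) {Z : Type} [Nonempty Z] (In : Z → Cond O Y μ → Prop)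
    (hm : ∀ z, Mono (In z)) (hr : ∀ z r, Dns (In z) r → In z r) (r : Cond O Y μ) :
    ∃ q ≤ r, (∀ z, In z q ∨ ∀ s ≤ q, ¬ In z s) ∨ ∃ X : Coh → Z, ∀ r' ≤ q, ∃ p,
      (∃ s ≤ r', In (X p) s) ∧ ∃ s ≤ r', ∀ s' ≤ s, ¬ In (X p) s' := by
  by_cases hc : ∃ q ≤ r, ∀ z, In z q ∨ ∀ s ≤ q, ¬ In z s
  · obtain ⟨q, h1, h2⟩ := hc
    exact ⟨q, h1, Or.inl h2⟩
  push Not at hc
  obtain ⟨q, h1, h2⟩ := reduce TLe.refl TLe.trans (hμ.trans (le_succ μ)) (closed hμ)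
    (univ : Set Coh) (lt_succ_iff.2 (sm_count hμ _))
    (fun p q => ∃ z, (∃ p' ≤ p, In z (q.setp p')) ∧ ∃ p' ≤ p, ∀ s ≤ q.setp p', ¬ In z s)
    (fun i _ q q' h ⟨z, ⟨p', h1, h2⟩, p'', h3, h4⟩ => ⟨z, ⟨p', h1, hm _ _ _ (h.le p') h2⟩,
      p'', h3, fun s hs => h4 s (hs.trans (h.le p''))⟩) r
  have h3 : ∀ p, ∃ z, p ≤ r.p → (∃ p' ≤ p, In z (q.setp p')) ∧
      ∃ p' ≤ p, ∀ s ≤ q.setp p', ¬ In z s := fun p => by
    by_cases hp : p ≤ r.p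
    swap
    · exact ⟨Classical.arbitrary Z, fun h => absurd h hp⟩
    obtain ⟨z, h3, s, h4, h5⟩ := hc (q.setp p) ((h1.le p).trans (setp_le hp))
    have h6 : ∃ s' ≤ q.setp p, ∀ t ≤ s', ¬ In z t := by
      by_contra h6
      push Not at h6
      exact h3 (hr z _ fun t ht => let ⟨u, h7, h8⟩ := h6 t ht; ⟨u, h7, h8⟩)
    obtain ⟨s', h6, h7⟩ := h6
    obtain ⟨q', h8, ⟨a, h9, h10⟩, b, h11, h12⟩ := mix hμ h4 h6
    obtain ⟨z', h13⟩ := h2 p trivial q' h8 ⟨z, ⟨a, h9.trans h4.1, hm _ _ _ h10 h5⟩,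
      b, h11.trans h6.1, fun t ht => h7 t (ht.trans h12)⟩
    exact ⟨z', fun _ => h13⟩
  choose X hX using h3
  refine ⟨q.setp r.p, h1.le r.p, Or.inr ⟨X, fun r' hr' => ⟨r'.p, ?_⟩⟩⟩
  obtain ⟨⟨a, h4, h5⟩, b, h6, h7⟩ := hX r'.p hr'.1
  exact ⟨⟨r'.setp a, setp_le h4, hm _ _ _ (le_setp ((setp_le h4).trans hr') le_rfl) h5⟩,
    r'.setp b, setp_le h6, fun s hs => h7 s
      (hs.trans (le_setp (q := q.setp r.p) ((setp_le h6).trans hr') le_rfl))⟩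

/-- `r` forces that the generic map sends `β` to `y`. -/
def Gn (β : O) (y : Y) (r : Cond O Y μ) : Prop :=
  β ∈ r.D ∧ ∀ t ≤ r.p, ∀ y', (r.val β).rel t y' → y' = y

theorem Gn.mono (β : O) (y : Y) : Mono (Gn (μ := μ) β y) := fun r r' h h1 =>
  ⟨h.2.1 h1.1, fun t ht y' h2 => by
    obtain ⟨s, hs, z, hz⟩ := (r.val β).dense t
    exact (h.2.2 β h1.1 s (hs.trans ht) y' z (Nm.mono _ _ _ _ hs h2) hz).trans
      (h1.2 s (hs.trans (ht.trans h.1)) z hz)⟩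

theorem Gn.func {β : O} {y y' : Y} {r : Cond O Y μ} (h : Gn β y r) (h' : Gn β y' r) : y = y' := by
  obtain ⟨s, hs, z, hz⟩ := (r.val β).dense r.p
  exact (h.2 s hs z hz).symm.trans (h'.2 s hs z hz)

theorem Gn.total (hμ : ℵ₀ ≤ μ) (β : O) (r : Cond O Y μ) : ∃ s ≤ r, ∃ y, Gn β y s := by
  obtain ⟨t, ht, y, hy⟩ := (r.val β).dense r.p
  exact ⟨⟨t, r.D ∪ {β}, sm_union hμ r.small (sm_sing hμ β), r.val⟩,
    ⟨ht, subset_union_left, fun _ _ => Nm.Eqv.refl _ _⟩, y, Or.inr rfl,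
    fun s hs y' h => Nm.func _ _ _ _ h (Nm.mono _ _ _ _ hs hy)⟩

def cst (y : Y) : Nm Y := ⟨fun _ y' => y' = y, fun _ _ _ _ h => h,
  fun _ _ _ h h' => h.trans h'.symm, fun t => ⟨t, le_rfl, y, rfl⟩⟩

theorem Gn.onto (hμ : ℵ₀ ≤ μ) (y : Y) (r : Cond O Y μ) {β : O} (hβ : β ∉ r.D) :
    ∃ s ≤ r, Gn β y s := by
  classical
  refine ⟨⟨r.p, r.D ∪ {β}, sm_union hμ r.small (sm_sing hμ β), Function.update r.val β (cst y)⟩,
    ⟨le_rfl, subset_union_left, fun i hi => ?_⟩, Or.inr rfl, fun s _ y' h => ?_⟩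
  · show Nm.Eqv _ (Function.update r.val β (cst y) i) _
    rw [Function.update_of_ne fun e : i = β => hβ (e ▸ hi)]
    exact Nm.Eqv.refl _ _
  · change (Function.update r.val β (cst y) β).rel s y' at h
    rwa [Function.update_self] at h

end Cond

end Pool.Agent.Work.MP_1ec257_lc
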