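import Pool.Agent.Work.MP_1ec257_lc.Defs
import Pool.Agent.Work.MP_1ec257_lc.Poset
import Pool.Agent.Work.MP_58a5a1_lc.Ctx

/-! The ground data obtained from a strongly compact cardinal. -/

namespace Pool.Agent.Work.MP_1ec257_lc
open Pool.Agent.Work.MP_58a5a1_lc Cardinal Set Order Filter

/-- A map that fixes a countably complete ultrafilter on a well order is almost the identity. -/
theorem rigid {O : Type} [LinearOrder O] [WellFoundedLT O] (y : Ultrafilter O)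
    [CountableInterFilter (y : Filter O)] (g : O → O) (h : ∀ X, g ⁻¹' X ∈ y ↔ X ∈ y) :
    {x | g x = x} ∈ y := by
  have h1 : ∀ A ∈ y, {x | ∀ n, g^[n] x ∈ A} ∈ y := fun A hA => by
    rw [ofPred_forall]
    refine countable_iInter_mem.2 fun n => ?_
    induction n with
    | zero => exact hA
    | succ n ih => exact (h _).2 ih
  by_contra hn
  have h2 : {x | g x < x} ∪ {x | x < g x} ∈ y :=
    mem_of_superset (Ultrafilter.compl_mem_iff_notMem.2 hn) fun x hx => lt_or_gt_of_ne hx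
  rcases Ultrafilter.union_mem_iff.1 h2 with h3 | h3
  · obtain ⟨x, hx⟩ := y.nonempty_of_mem (h1 _ h3)
    obtain ⟨_, ⟨n, rfl⟩, hm⟩ := wellFounded_lt.has_min (range fun n => g^[n] x) ⟨_, 0, rfl⟩
    exact hm _ ⟨n + 1, Function.iterate_succ_apply' g n x⟩ (hx n)
  · let r : O → O := fun x => @Classical.epsilon O ⟨x⟩ fun z => ∃ n m, g^[n] x = g^[m] z
    have h4 : ∀ x, ∃ n m, g^[n] x = g^[m] (r x) := fun x =>
      Classical.epsilon_spec (p := fun z => ∃ n m, g^[n] x = g^[m] z) ⟨x, 0, 0, rfl⟩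
    have h5 : ∀ x, r (g x) = r x := fun x => by
      have : (fun z => ∃ n m, g^[n] (g x) = g^[m] z) = fun z => ∃ n m, g^[n] x = g^[m] z := by
        funext z
        refine propext ⟨fun ⟨n, m, h⟩ => ⟨n + 1, m, h⟩, fun ⟨n, m, h⟩ => ⟨n, m + 1, ?_⟩⟩
        rw [← Function.iterate_succ_apply, Function.iterate_succ_apply', h,
          Function.iterate_succ_apply']
      simp only [r, this]
    let B : Set O := {x | ∃ n m, Even (n + m) ∧ g^[n] x = g^[m] (r x)}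
    have h6 : ∀ x, x ∈ B ∨ g x ∈ B := fun x => by
      obtain ⟨n, m, h6⟩ := h4 x
      rcases Nat.even_or_odd (n + m) with h7 | h7
      · exact Or.inl ⟨n, m, h7, h6⟩
      · refine Or.inr ⟨n, m + 1, h7.add_one, ?_⟩
        rw [h5, ← Function.iterate_succ_apply, Function.iterate_succ_apply', h6,
          Function.iterate_succ_apply']
    have h7 : ∀ x, (∀ n, g^[n] x < g (g^[n] x)) → x ∈ B → g x ∈ B → False := by
      rintro x hx ⟨n, m, l1, l2⟩ ⟨n', m', l3, l4⟩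
      have l5 : StrictMono fun n => g^[n] x := strictMono_nat_of_lt_succ fun n => by
        rw [Function.iterate_succ_apply']; exact hx n
      have l6 : g^[m' + n] x = g^[m + (n' + 1)] x := by
        rw [Function.iterate_add_apply, Function.iterate_add_apply, l2,
          Function.iterate_succ_apply, l4, h5, ← Function.iterate_add_apply,
          ← Function.iterate_add_apply, add_comm]
      have l7 := l5.injective l6
      obtain ⟨a, ha⟩ := l1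
      obtain ⟨b, hb⟩ := l3
      omega
    rcases y.mem_or_compl_mem B with h8 | h8
    · obtain ⟨x, ⟨l1, l2⟩, l3⟩ := y.nonempty_of_mem
        (inter_mem (inter_mem (h1 _ h3) h8) ((h _).2 h8))
      exact h7 x l1 l2 l3
    · obtain ⟨x, l1, l2⟩ := y.nonempty_of_mem (inter_mem h8 ((h _).2 h8))
      exact (h6 x).elim l1 l2

structure Gd (O : Type) [LinearOrder O] where
  μ : Cardinal.{0}
  inf : ℵ₀ ≤ μ
  nat : ℕ → O
  w : O
  k : O
  kp : O
  lt_nat : ∀ x n, x < nat n ↔ ∃ m < n, x = nat m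
  lt_w : ∀ x, x < w ↔ ∃ n, x = nat n
  w_lt : w < k
  k_lt : k < kp
  mk_k : #(Iio k) ≤ μ
  inj : ∀ a < kp, ∃ e : O → O, (∀ x < a, e x < k) ∧ InjOn e (Iio a)
  bdd : ∀ s : Set O, #s ≤ μ → ∃ γ < kp, ∀ x ∈ s, x < kp → x < γ
  U : Ultrafilter O
  cc : ∀ A : Coh → Set O, (⋃ p, A p) ∈ U → ∃ p, A p ∈ U
  d : O → O
  d_lt : ∀ x, d x < k
  d_gt : ∀ ξ < k, {x | ξ < d x} ∈ U
  d_min : ∀ t : O → O, (∀ x, t x < k) → {x | d x ≤ t x} ∈ U ∨ ∃ ξ < k, {x | t x = ξ} ∈ U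
  cd : O → (O → Coh → Option O) → O
  cd_lt : ∀ β h, β < k → (∀ i p ζ, h i p = some ζ → ζ < k) → cd β h < k
  cd_inj : ∀ β h β' h', β < k → (∀ i p ζ, h i p = some ζ → ζ < k) → β' < k →
    (∀ i p ζ, h' i p = some ζ → ζ < k) → cd β h = cd β' h' → β = β' ∧ ∀ i < β, h i = h' i
  Y : Type
  y₀ : Y
  ult : Y → Ultrafilter O
  sd : O → Y → O → O
  sd_lt : ∀ β y x, sd β y x < k
  sd_map : ∀ β < kp, ∀ y X, sd β y ⁻¹' X ∈ U ↔ X ∈ ult y
  sd_inc : ∀ β γ y y', β < γ → γ < kp → {x | sd β y x < sd γ y' x} ∈ U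
  np : ∀ y ξ, {ξ} ∉ ult y
  all : ∀ In : Set O → Prop, (∀ β < k, ∀ X : O → Set O, ∃ α, β ≤ α ∧ α < k ∧
    ∀ i < β, (α ∈ X i ↔ In (X i))) → ∃ y, ∀ X, X ∈ ult y ↔ In X
  nr : ∀ y, ∃ y', ∀ f : O → O, ∃ X ∈ ult y', {ξ | f ξ ∉ X} ∈ ult y

structure Ini (O : Type) [LinearOrder O] (κ θ : Cardinal.{0}) where
  sc : StronglyCompact κ
  le : succ κ ≤ θ
  nat : ℕ → O
  lt_nat : ∀ x n, x < nat n ↔ ∃ m < n, x = nat m
  ini : Cardinal.{0} → O
  lt_w : ∀ x, x < ini ℵ₀ ↔ ∃ n, x = nat n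
  mk_ini : ∀ c ≤ θ, #(Iio (ini c)) = c
  lt_ini : ∀ c ≤ θ, ∀ b, b < ini c ↔ #(Iio b) < c

theorem exists_ini {κ θ : Cardinal.{0}} (sc : StronglyCompact κ) (le : succ κ ≤ θ) :
    ∃ (O : Type) (_ : LinearOrder O) (_ : WellFoundedLT O), Nonempty (Ini O κ θ) := by
  have h0 : ℵ₀ ≤ θ := sc.1.le.trans ((le_succ κ).trans le)
  let O := (succ θ.ord).ToType
  have hm : ∀ c ≤ θ, c.ord ∈ Iio (succ θ.ord) := fun c hc => lt_succ_of_le (ord_le_ord.2 hc)
  let ini : Cardinal.{0} → O := fun c => Ordinal.ToType.mk ⟨(min c θ).ord, hm _ (min_le_right _ _)⟩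
  have hcard : ∀ x : O, #(Iio x) = (x : Ordinal.{0}).card := fun _ => rfl
  have hcoe : ∀ c ≤ θ, ((ini c : O) : Ordinal.{0}) = c.ord := fun c hc => by
    simp [ini, Ordinal.ToType.toOrd, min_eq_left hc]
  have hlt' : ∀ x y : O, (x : Ordinal.{0}) < (y : Ordinal.{0}) ↔ x < y := fun x y => by
    simp [Ordinal.ToType.toOrd]
  have hn : ∀ n : ℕ, ((ini n : O) : Ordinal.{0}) = n := fun n => by
    rw [hcoe _ ((natCast_lt_aleph0 (n := n)).le.trans h0), ord_natCast]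
  have he : ∀ x y : O, (x : Ordinal.{0}) = (y : Ordinal.{0}) → x = y := fun x y h =>
    le_antisymm (not_lt.1 fun h' => ((hlt' _ _).2 h').ne' h) (not_lt.1 fun h' => ((hlt' _ _).2 h').ne h)
  refine ⟨O, inferInstance, inferInstance, ⟨⟨sc, le, fun n => ini n, fun x n => ?_, ini,
    fun x => ?_, fun c hc => ?_, fun c hc b => ?_⟩⟩⟩
  · rw [← hlt', hn]
    constructor
    · intro h
      obtain ⟨m, hm⟩ := Ordinal.lt_omega0.1 (h.trans (Ordinal.natCast_lt_omega0 n))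
      exact ⟨m, by rw [hm] at h; exact_mod_cast h, he _ _ (hm.trans (hn m).symm)⟩
    · rintro ⟨m, hm, rfl⟩
      rw [hn]; exact_mod_cast hm
  · rw [← hlt', hcoe _ h0, ord_aleph0, Ordinal.lt_omega0]
    exact exists_congr fun n => ⟨fun h => he _ _ (h.trans (hn n).symm), fun h => h ▸ hn n⟩
  · rw [hcard, hcoe c hc, card_ord]
  · rw [← hlt', hcoe c hc, lt_ord, hcard]

namespace Ini
variable {O : Type} [LinearOrder O] {κ θ : Cardinal.{0}} (X : Ini O κ θ)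

def k : O := X.ini κ
noncomputable def kp : O := X.ini (succ κ)

include X

theorem κ_le : κ ≤ θ := (le_succ κ).trans X.le
theorem inf : ℵ₀ ≤ κ := X.sc.1.le
theorem two : 2 < κ := (by exact_mod_cast natCast_lt_aleph0 (n := 2) : (2 : Cardinal) < ℵ₀).trans X.sc.1
theorem mk_k : #(Iio X.k) = κ := X.mk_ini κ X.κ_le
theorem lt_k {b : O} : b < X.k ↔ #(Iio b) < κ := X.lt_ini κ X.κ_le b
theorem ini_lt {c : Cardinal.{0}} (h : c < κ) : X.ini c < X.k :=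
  X.lt_k.2 (by rwa [X.mk_ini c (h.le.trans X.κ_le)])

theorem bounded {μ : Cardinal.{0}} (hμ : μ.IsRegular) (h : μ ≤ θ) (s : Set O) (hc : #s < μ) :
    ∃ γ < X.ini μ, ∀ x ∈ s, x < X.ini μ → x < γ := by
  by_contra hn
  push Not at hn
  have h1 : Iio (X.ini μ) ⊆ ⋃ x ∈ s ∩ Iio (X.ini μ), Iic x := fun γ hγ => by
    obtain ⟨x, h1, h2, h3⟩ := hn γ hγ
    exact mem_biUnion ⟨h1, h2⟩ h3
  have h2 : #(⋃ x ∈ s ∩ Iio (X.ini μ), Iic x) < μ :=
    (card_biUnion_lt_iff_forall_of_isRegular (t := fun x _ => Iic x) hμ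
      ((mk_le_mk_of_subset inter_subset_left).trans_lt hc)).2 fun x hx => by
      rw [← Iio_union_right]
      refine lt_union hμ.aleph0_le ((X.lt_ini μ h x).1 hx.2) ?_
      rw [mk_singleton]; exact one_lt_aleph0.trans_le hμ.aleph0_le
  exact absurd ((X.mk_ini μ h).symm.trans_le (mk_le_mk_of_subset h1)) (not_le.2 h2)

theorem mk_Iic {a : O} (h : a < X.k) : #(Iic a) < κ := by
  rw [← Iio_union_right]
  refine lt_union X.inf (X.lt_k.1 h) ?_
  rw [mk_singleton]; exact one_lt_aleph0.trans X.sc.1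

/-- The nonprincipal `κ`-complete ultrafilters on `κ`. -/
def Y : Type := {y : Ultrafilter O // Iio X.k ∈ y ∧ CardinalInterFilter (y : Filter O) κ ∧
  ∀ ξ, {ξ} ∉ y}

theorem Y.big (y : X.Y) {s : Set O} (hs : #s < κ) : sᶜ ∈ y.1 := by
  have := y.2.2.1
  have h1 := (cardinal_bInter_mem (l := (y.1 : Filter O)) hs (s := fun i _ => {i}ᶜ)).2
    fun i _ => Ultrafilter.compl_mem_iff_notMem.2 (y.2.2.2 i)
  exact mem_of_superset h1 fun x hx h => (mem_iInter₂.1 hx x h) rfl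

theorem mk_Y : #X.Y ≤ 2 ^ (2 ^ κ : Cardinal) := by
  refine (mk_le_of_injective (f := fun y : X.Y => {Z : Set (Iio X.k) | Subtype.val '' Z ∈ y.1})
    fun y y' e => Subtype.ext (Ultrafilter.eq_of_le fun Z hZ => ?_)).trans
      (by rw [mk_set, mk_set, X.mk_k])
  have h1 : Subtype.val '' (Subtype.val ⁻¹' Z : Set (Iio X.k)) ∈ y'.1 := by
    rw [Subtype.image_preimage_coe]; exact inter_mem y'.2.1 hZ
  have h2 : Subtype.val '' (Subtype.val ⁻¹' Z : Set (Iio X.k)) ∈ y.1 := e.symm.subset h1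
  rw [Subtype.image_preimage_coe] at h2
  exact mem_of_superset h2 inter_subset_right

theorem ne_Y : Nonempty X.Y := by
  let F := ofCardinalInter {A : Set O | #(Iio X.k \ A : Set O) < κ} X.two
    (fun S h1 h2 => by
      have : Iio X.k \ ⋂₀ S = ⋃ A ∈ S, Iio X.k \ A := by
        ext x; simp only [Set.mem_sdiff, mem_sInter, mem_iUnion]; push Not; tauto
      show #(Iio X.k \ ⋂₀ S : Set O) < κ
      rw [this]
      exact (card_biUnion_lt_iff_forall_of_isRegular (t := fun A _ => Iio X.k \ A) X.sc.2.1 h1).2 h2)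
    fun s t h1 h2 => (mk_le_mk_of_subset (sdiff_subset_sdiff_right h2)).trans_lt h1
  obtain ⟨U, h1, h2⟩ := X.sc.2.2 O F ⟨fun h => by
    have : (∅ : Set O) ∈ F := h ▸ mem_bot
    have h2 : #(Iio X.k \ ∅ : Set O) < κ := this
    rw [sdiff_empty, X.mk_k] at h2
    exact lt_irrefl _ h2⟩ inferInstance
  refine ⟨⟨U, h1 (show #(Iio X.k \ Iio X.k : Set O) < κ by
    rw [Set.sdiff_self, mk_eq_zero]; exact X.sc.2.1.pos), h2, fun ξ =>
      Ultrafilter.compl_mem_iff_notMem.1 (h1 (show #(Iio X.k \ {ξ}ᶜ : Set O) < κ from ?_))⟩⟩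
  refine (mk_le_mk_of_subset (t := {ξ}) fun x hx => not_not.1 hx.2).trans_lt ?_
  rw [mk_singleton]; exact one_lt_aleph0.trans X.sc.1

theorem pow_lt {c : Cardinal.{0}} (hc : c < κ) : 2 ^ c < κ := by
  refine not_le.1 fun he => ?_
  obtain ⟨y⟩ := X.ne_Y
  have := y.2.2.1
  obtain ⟨f, h1, -⟩ := exists_injOn (s := Iio X.k) (t := (univ : Set (Set c.out)))
    (by rw [X.mk_k, mk_univ, mk_set, mk_out]; exact he) ∅
  have h2 := (eventually_cardinal_forall (l := (y.1 : Filter O)) (ι := c.out) (by simpa using hc)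
    (p := fun x i => (i ∈ f x ↔ ∀ᶠ z in (y.1 : Filter O), i ∈ f z))).2 fun i => by
      rcases y.1.em (fun z => i ∈ f z) with h | h
      · exact h.mono fun x hx => iff_of_true hx h
      · exact h.mono fun x hx => iff_of_false hx (Ultrafilter.eventually_not.1 h)
  obtain ⟨x, h3, h4⟩ := y.1.nonempty_of_mem (inter_mem h2 y.2.1)
  exact y.2.2.2 x (mem_of_superset (inter_mem h2 y.2.1) fun z hz =>
    h1 hz.2 h4 (Set.ext fun i => (hz.1 i).trans (h3 i).symm))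

theorem exists_cd : ∃ cd : O → (O → Coh → Option O) → O,
    (∀ β h, β < X.k → (∀ i p ζ, h i p = some ζ → ζ < X.k) → cd β h < X.k) ∧
    ∀ β h β' h', β < X.k → (∀ i p ζ, h i p = some ζ → ζ < X.k) → β' < X.k →
      (∀ i p ζ, h' i p = some ζ → ζ < X.k) → cd β h = cd β' h' → β = β' ∧ ∀ i < β, h i = h' i := by
  let Z : Set (O × Coh × O) := Iio X.k ×ˢ (Set.univ ×ˢ Iio X.k)
  have hZ : #Z ≤ κ := sm_prod X.inf X.mk_k.le (sm_prod X.inf (sm_count X.inf _) X.mk_k.le)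
  obtain ⟨g, h1, h2, -⟩ := exists_injOn
    (s := Iio X.k ×ˢ ⋃ β ∈ Iio X.k, {F | F ⊆ Z ∧ #F ≤ max #(Iio β) ℵ₀}) (t := Iio X.k) (by
      rw [X.mk_k]
      refine sm_prod X.inf X.mk_k.le (sm_biUnion X.inf X.mk_k.le fun β hβ =>
        mk_small_le X.sc.2.1 (max_lt (X.lt_k.1 hβ) X.sc.1) (fun m hm _ => ?_) X.sc.1 hZ)
      refine (power_le_power_right (cantor m).le).trans ?_
      rw [← power_mul]
      exact (X.pow_lt (mul_lt_of_lt X.inf hm (max_lt (X.lt_k.1 hβ) X.sc.1))).le) X.k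
  let F : O → (O → Coh → Option O) → Set (O × Coh × O) := fun β h =>
    {z | z.1 < β ∧ h z.1 z.2.1 = some z.2.2}
  have hF : ∀ β h, β < X.k → (∀ i p ζ, h i p = some ζ → ζ < X.k) → (β, F β h) ∈
      Iio X.k ×ˢ ⋃ β ∈ Iio X.k, {F | F ⊆ Z ∧ #F ≤ max #(Iio β) ℵ₀} := fun β h h3 h4 =>
    ⟨h3, mem_biUnion h3 ⟨fun z hz => ⟨hz.1.trans h3, trivial, h4 _ _ _ hz.2⟩,
      sm_inj (t := Iio β ×ˢ (univ : Set Coh)) (fun z => (z.1, z.2.1))
        (fun z hz z' hz' e => by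
          obtain ⟨a, p, ζ⟩ := z
          obtain ⟨a', p', ζ'⟩ := z'
          obtain ⟨rfl, rfl⟩ := Prod.mk.inj e
          obtain rfl := Option.some.inj (hz.2.symm.trans hz'.2)
          rfl)
        (fun z hz => ⟨hz.1, trivial⟩)
        (sm_prod (le_max_right _ _) (le_max_left _ _) (sm_count (le_max_right _ _) _))⟩⟩
  refine ⟨fun β h => g (β, F β h), fun β h h3 h4 => h2 (hF β h h3 h4),
    fun β h β' h' h3 h4 h5 h6 e => ?_⟩
  obtain ⟨rfl, e'⟩ := Prod.mk.inj (h1 (hF β h h3 h4) (hF β' h' h5 h6) e)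
  exact ⟨rfl, fun i hi => funext fun p => Option.ext fun ζ =>
    ⟨fun h => (e'.subset (show (i, p, ζ) ∈ F _ _ from ⟨hi, h⟩)).2,
      fun h => (e'.symm.subset (show (i, p, ζ) ∈ F _ _ from ⟨hi, h⟩)).2⟩⟩

theorem all (In : Set O → Prop) (h : ∀ β < X.k, ∀ Z : O → Set O, ∃ α, β ≤ α ∧ α < X.k ∧
    ∀ i < β, (α ∈ Z i ↔ In (Z i))) : ∃ y : X.Y, ∀ Z, Z ∈ y.1 ↔ In Z := by
  have key : ∀ T : Set (Set O), #T < κ → ∀ γ < X.k, ∃ α, γ ≤ α ∧ α < X.k ∧
      ∀ Z ∈ T, (α ∈ Z ↔ In Z) := fun T hT γ hγ => by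
    obtain ⟨g, h1, h2, -⟩ := exists_injOn (s := T) (t := Iio (X.ini #T))
      (X.mk_ini _ (hT.le.trans X.κ_le)).ge γ
    obtain ⟨α, h3, h4, h5⟩ := h (max γ (X.ini #T)) (max_lt hγ (X.ini_lt hT)) (Function.invFunOn g T)
    refine ⟨α, (le_max_left _ _).trans h3, h4, fun Z hZ => ?_⟩
    have := h5 (g Z) (lt_max_of_lt_right (h2 hZ))
    rwa [h1.leftInvOn_invFunOn hZ] at this
  have h0 := X.ini_lt X.sc.1
  have k2 : ∀ Z Z', ∀ γ < X.k, ∃ α, γ ≤ α ∧ α < X.k ∧ (α ∈ Z ↔ In Z) ∧ (α ∈ Z' ↔ In Z') :=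
    fun Z Z' γ hγ => by
      obtain ⟨α, h1, h2, h3⟩ := key {Z, Z'} ((toFinite _).lt_aleph0.trans X.sc.1) γ hγ
      exact ⟨α, h1, h2, h3 Z (Or.inl rfl), h3 Z' (Or.inr rfl)⟩
  let F := ofCardinalInter {Z | In Z} X.two
    (fun S h1 h2 => by
      obtain ⟨α, -, -, h3⟩ := key (insert (⋂₀ S) S) (mk_insert_le.trans_lt
        (add_lt_of_lt X.inf h1 (one_lt_aleph0.trans X.sc.1))) _ h0
      exact (h3 _ (Or.inl rfl)).1 fun Z hZ => (h3 Z (Or.inr hZ)).2 (h2 hZ))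
    fun s t h1 h2 => by
      obtain ⟨α, -, -, h3, h4⟩ := k2 s t _ h0
      exact h4.1 (h2 (h3.2 h1))
  refine ⟨⟨Ultrafilter.ofComplNotMemIff F fun s => ?_, ?_,
    (inferInstance : CardinalInterFilter F κ), fun ξ h1 => ?_⟩, fun Z => Iff.rfl⟩
  · obtain ⟨α, -, -, h3, h4⟩ := k2 s sᶜ _ h0
    exact (not_congr h4).symm.trans (not_not.trans h3)
  · obtain ⟨α, -, h2, h3, -⟩ := k2 (Iio X.k) ∅ _ h0
    exact h3.1 h2
  · obtain ⟨α, -, h2, h3, -⟩ := k2 {ξ} ∅ _ h0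
    obtain rfl : α = ξ := h3.2 h1
    obtain ⟨γ, h4, h5⟩ := X.bounded X.sc.2.1 X.κ_le {α}
      (by rw [mk_singleton]; exact one_lt_aleph0.trans X.sc.1)
    obtain ⟨α', h6, -, h7, -⟩ := k2 {α} ∅ γ h4
    exact absurd ((h5 α rfl h2).trans_le h6) (h7.2 h1 ▸ lt_irrefl _)

variable [WellFoundedLT O]

theorem nr (y : X.Y) : ∃ y' : X.Y, ∀ f : O → O, ∃ Z ∈ y'.1, {ξ | f ξ ∉ Z} ∈ y.1 := by
  have := y.2.2.1
  have : Nonempty (O × O) := ⟨(X.k, X.k)⟩
  obtain ⟨g, h1, h2, -⟩ := exists_injOn (s := Iio X.k ×ˢ Iio X.k) (t := Iio X.k)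
    (by rw [X.mk_k]; exact sm_prod X.inf X.mk_k.le X.mk_k.le) X.k
  let y' : Ultrafilter O := y.1.bind fun a => y.1.map fun b => g (a, b)
  have h3 : ∀ Z, Z ∈ y' ↔ {a | {b | g (a, b) ∈ Z} ∈ y.1} ∈ y.1 := fun _ => Iff.rfl
  let π := Function.invFunOn g (Iio X.k ×ˢ Iio X.k)
  have h4 : ∀ a < X.k, ∀ b < X.k, π (g (a, b)) = (a, b) := fun a ha b hb =>
    h1.leftInvOn_invFunOn ⟨ha, hb⟩
  refine ⟨⟨y', (h3 _).2 (mem_of_superset y.2.1 fun a ha => mem_of_superset y.2.1 fun b hb =>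
    h2 ⟨ha, hb⟩), ⟨fun S hS h => (h3 _).2 (mem_of_superset
      ((cardinal_bInter_mem hS (s := fun Z _ => {a | {b | g (a, b) ∈ Z} ∈ y.1})).2 h)
      fun a ha => mem_of_superset
        ((cardinal_bInter_mem hS (s := fun Z _ => {b | g (a, b) ∈ Z})).2 (mem_iInter₂.1 ha))
        fun b hb Z hZ => mem_iInter₂.1 hb Z hZ)⟩, fun ξ h => ?_⟩, fun f => ?_⟩
  · obtain ⟨a, l1, l2⟩ := y.1.nonempty_of_mem (inter_mem ((h3 _).1 h) y.2.1)
    exact y.2.2.2 (π ξ).2 (mem_of_superset (inter_mem l1 y.2.1) fun b hb =>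
      (congrArg Prod.snd ((congrArg π hb.1).symm.trans (h4 a l2 b hb.2))).symm)
  · by_contra hn
    push Not at hn
    have h5 : ∀ Z ∈ y', f ⁻¹' Z ∈ y.1 := fun Z hZ =>
      Ultrafilter.compl_notMem_iff.1 (hn Z hZ)
    have : CountableInterFilter (y.1 : Filter O) :=
      CardinalInterFilter.toCountableInterFilter _ X.sc.1
    have h6 : ∀ g' : O → O, (∀ Z ∈ y.1, g' ⁻¹' Z ∈ y.1) → {x | g' x = x} ∈ y.1 := fun g' h =>
      rigid y.1 g' fun Z => ⟨fun h' => Ultrafilter.compl_notMem_iff.1 fun h'' =>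
        Ultrafilter.compl_notMem_iff.2 h' (h _ h''), h Z⟩
    have h7 := h6 (fun x => (π (f x)).1) fun Z hZ => h5 {z | (π z).1 ∈ Z} ((h3 _).2
      (mem_of_superset (inter_mem hZ y.2.1) fun a ha => mem_of_superset y.2.1 fun b hb => by
        show (π (g (a, b))).1 ∈ Z
        rw [h4 a ha.2 b hb]; exact ha.1))
    have h8 := h6 (fun x => (π (f x)).2) fun Z hZ => h5 {z | (π z).2 ∈ Z} ((h3 _).2
      (mem_of_superset y.2.1 fun a ha => mem_of_superset (inter_mem hZ y.2.1) fun b hb => by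
        show (π (g (a, b))).2 ∈ Z
        rw [h4 a ha b hb.2]; exact hb.1))
    have h9 := h5 {z | (π z).1 ≠ (π z).2} ((h3 _).2
      (mem_of_superset y.2.1 fun a ha => mem_of_superset (inter_mem y.2.1
        (Ultrafilter.compl_mem_iff_notMem.2 (y.2.2.2 a))) fun b hb => by
        show (π (g (a, b))).1 ≠ (π (g (a, b))).2
        rw [h4 a ha b hb.1]; exact fun e => hb.2 e.symm))
    obtain ⟨x, ⟨l1, l2⟩, l3⟩ := y.1.nonempty_of_mem (inter_mem (inter_mem h7 h8) h9)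
    exact l3 (l1.trans l2.symm)

/-- One ultrafilter that glues all measures, in `κ⁺` increasing levels. -/
theorem exists_glue : ∃ U : Ultrafilter (Iio X.kp × X.Y → Iio X.k),
    CardinalInterFilter (U : Filter (Iio X.kp × X.Y → Iio X.k)) κ ∧ (∀ d, ∀ Z ∈ d.2.1, {x | (x d).1 ∈ Z} ∈ U) ∧
    ∀ d d', d.1 < d'.1 → {x | x d < x d'} ∈ U := by
  let F := ofCardinalInter {A : Set (Iio X.kp × X.Y → Iio X.k) |
    ∃ (D : Set (Iio X.kp × X.Y)) (Z : Iio X.kp × X.Y → Set O), #D < κ ∧ (∀ d, Z d ∈ d.2.1) ∧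
      ∀ x, (∀ d ∈ D, (x d).1 ∈ Z d) → (∀ d ∈ D, ∀ d' ∈ D, d.1 < d'.1 → x d < x d') → x ∈ A} X.two
    (fun S h1 h2 => by
      choose D Z h3 h4 h5 using h2
      refine ⟨⋃ (A) (h : A ∈ S), D h, fun d => ⋂ (A) (h : A ∈ S), Z h d,
        (card_biUnion_lt_iff_forall_of_isRegular X.sc.2.1 h1).2 fun A h => h3 h,
        fun d => have := d.2.2.2.1; (cardinal_bInter_mem h1).2 fun A h => h4 h d,
        fun x h6 h7 A hA => h5 hA x (fun d hd => mem_iInter₂.1 (h6 d (mem_iUnion₂.2 ⟨A, hA, hd⟩)) A hA)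
          fun d hd d' hd' => h7 d (mem_iUnion₂.2 ⟨A, hA, hd⟩) d' (mem_iUnion₂.2 ⟨A, hA, hd'⟩)⟩)
    fun s t ⟨D, Z, h1, h2, h3⟩ h => ⟨D, Z, h1, h2, fun x h4 h5 => h (h3 x h4 h5)⟩
  obtain ⟨U, h1, h2⟩ := X.sc.2.2 _ F ⟨fun h => by
    have : (∅ : Set _) ∈ F := h ▸ mem_bot
    obtain ⟨D, Z, h1, h2, h3⟩ := this
    have h4 : ∀ (d : Iio X.kp × X.Y) (T : Set (Iio X.k)), ∃ v : Iio X.k, v.1 ∈ Z d ∧
        (#T < κ → ∀ t ∈ T, t < v) := fun d T => by
      by_cases hT : #T < κ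
      · obtain ⟨γ, l1, l2⟩ := X.bounded X.sc.2.1 X.κ_le (Subtype.val '' T) (mk_image_le.trans_lt hT)
        obtain ⟨v, ⟨l3, l4⟩, l5⟩ := d.2.1.nonempty_of_mem (inter_mem (inter_mem (h2 d) d.2.2.1)
          (Y.big X d.2 (X.lt_k.1 l1)))
        exact ⟨⟨v, l4⟩, l3, fun _ t ht => (l2 t ⟨t, ht, rfl⟩ t.2).trans_le (not_lt.1 l5)⟩
      · obtain ⟨v, l3, l4⟩ := d.2.1.nonempty_of_mem (inter_mem (h2 d) d.2.2.1)
        exact ⟨⟨v, l4⟩, l3, fun h => absurd h hT⟩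
    choose ch h5 h6 using h4
    obtain ⟨x, hx⟩ := exists_rec (S := Iio X.kp) (fun _ : X.Y => (⟨_, X.ini_lt X.sc.1⟩ : Iio X.k))
      (fun β g y => ch (β, y) ((fun d => g d.1 d.2) '' {d ∈ D | d.1 < β}))
      fun β f g h => funext fun y => congrArg _ (image_congr fun d hd => by rw [h _ hd.2])
    refine h3 (fun d => x d.1 d.2) (fun d _ => by rw [hx]; exact h5 _ _) fun d hd d' _ h => ?_
    rw [hx d'.1]
    exact h6 _ _ (mk_image_le.trans_lt ((mk_le_mk_of_subset (sep_subset _ _)).trans_lt h1)) _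
      ⟨d, ⟨hd, h⟩, rfl⟩⟩ inferInstance
  refine ⟨U, h2, fun d Z hZ => h1 ?_, fun d d' h => h1 ?_⟩
  · classical
    refine ⟨{d}, Function.update (fun _ => Set.univ) d Z, (toFinite _).lt_aleph0.trans X.sc.1,
      fun d' => ?_, fun x h3 _ => by simpa using h3 d rfl⟩
    by_cases e : d' = d
    · subst e; rwa [Function.update_self]
    · rw [Function.update_of_ne e]; exact univ_mem
  · exact ⟨{d, d'}, fun _ => Set.univ, (toFinite _).lt_aleph0.trans X.sc.1, fun _ => univ_mem,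
      fun x _ h3 => h3 d (Or.inl rfl) d' (Or.inr rfl) h⟩

theorem exists_d (U : Ultrafilter O) [CardinalInterFilter (U : Filter O) κ] (s : O → O)
    (h1 : ∀ x, s x < X.k) (h2 : ∀ ξ < X.k, {x | ξ < s x} ∈ U) :
    ∃ d : O → O, (∀ x, d x < X.k) ∧ (∀ ξ < X.k, {x | ξ < d x} ∈ U) ∧
      ∀ t : O → O, (∀ x, t x < X.k) → {x | d x ≤ t x} ∈ U ∨ ∃ ξ < X.k, {x | t x = ξ} ∈ U := by
  have : CountableInterFilter (U : Filter O) := CardinalInterFilter.toCountableInterFilter _ X.sc.1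
  let T := {f : O → O // (∀ x, f x < X.k) ∧ ∀ ξ < X.k, {x | ξ < f x} ∈ U}
  obtain ⟨d, hd⟩ : ∃ d : T, ∀ t : T, {x | t.1 x < d.1 x} ∉ U := by
    by_contra hn
    push Not at hn
    choose nx hn using hn
    obtain ⟨x, hx⟩ := U.nonempty_of_mem (countable_iInter_mem.2 fun n : ℕ =>
      hn (nx^[n] ⟨s, h1, h2⟩))
    obtain ⟨_, ⟨n, rfl⟩, hm⟩ := wellFounded_lt.has_min
      (range fun n => (nx^[n] ⟨s, h1, h2⟩).1 x) ⟨_, 0, rfl⟩
    exact hm _ ⟨n + 1, by simp only [Function.iterate_succ_apply']⟩ (mem_iInter.1 hx n)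
  refine ⟨d.1, d.2.1, d.2.2, fun t ht => ?_⟩
  by_cases h : ∀ ξ < X.k, {x | ξ < t x} ∈ U
  · exact Or.inl (mem_of_superset (Ultrafilter.compl_mem_iff_notMem.2 (hd ⟨t, ht, h⟩))
      fun x hx => not_lt.1 hx)
  · push Not at h
    obtain ⟨ξ, h3, h4⟩ := h
    refine Or.inr (by_contra fun hn => h4 ?_)
    push Not at hn
    exact mem_of_superset ((cardinal_bInter_mem (l := (U : Filter O)) (X.mk_Iic h3)
      (s := fun ζ _ => {x | t x = ζ}ᶜ)).2 fun ζ hζ =>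
        Ultrafilter.compl_mem_iff_notMem.2 (hn ζ (hζ.trans_lt h3)))
      fun x hx => not_le.1 fun h => mem_iInter₂.1 hx (t x) h rfl

end Ini

theorem exists_gd {κ : Cardinal.{0}} (sc : StronglyCompact κ) :
    ∃ (O : Type) (_ : LinearOrder O) (_ : WellFoundedLT O), Nonempty (Gd O) := by
  classical
  obtain ⟨O, _, _, ⟨X⟩⟩ := exists_ini sc (le_max_left (succ κ) (κ ^ (succ κ * 2 ^ (2 ^ κ : Cardinal))))
  refine ⟨O, inferInstance, inferInstance, ?_⟩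
  obtain ⟨U, h1, h2, h3⟩ := X.exists_glue
  obtain ⟨y₀⟩ := X.ne_Y
  have hw := X.ini_lt sc.1
  have hk : X.k < X.kp := (X.lt_ini _ X.le _).2 (by rw [X.mk_k]; exact lt_succ κ)
  obtain ⟨e⟩ : Nonempty ((Iio X.kp × X.Y → Iio X.k) ↪ O) := by
    rw [← Cardinal.le_def, ← power_def, mk_prod, lift_id, lift_id, X.mk_k, Ini.kp, X.mk_ini _ X.le]
    exact (power_le_power_left sc.2.1.pos.ne' (mul_le_mul' le_rfl X.mk_Y)).trans
      ((le_max_right _ _).trans ((X.mk_ini _ le_rfl).ge.trans (mk_set_le _)))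
  have : Nonempty (Iio X.kp × X.Y → Iio X.k) := ⟨fun _ => ⟨_, hw⟩⟩
  let sd : O → X.Y → O → O := fun β y x =>
    if h : β < X.kp then (Function.invFun e x (⟨β, h⟩, y)).1 else X.ini ℵ₀
  have h4 : ∀ β (h : β < X.kp) y z, sd β y (e z) = (z (⟨β, h⟩, y)).1 := fun β h y z => by
    simp only [sd, dif_pos h, Function.leftInverse_invFun e.injective z]
  have h5 : ∀ β y x, sd β y x < X.k := fun β y x => by
    simp only [sd]; split_ifs
    · exact (Function.invFun e x _).2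
    · exact hw
  have h6 : ∀ β < X.kp, ∀ (y : X.Y) Z, sd β y ⁻¹' Z ∈ U.map e ↔ Z ∈ y.1 := fun β h y => by
    have l1 : ∀ Z ∈ y.1, sd β y ⁻¹' Z ∈ U.map e := fun Z hZ =>
      Ultrafilter.mem_map.2 <| mem_of_superset (h2 (⟨β, h⟩, y) Z hZ) fun z hz => by
        show sd β y (e z) ∈ Z
        rwa [h4 β h]
    exact fun Z => ⟨fun h' => Ultrafilter.compl_notMem_iff.1 fun h'' =>
      Ultrafilter.compl_notMem_iff.2 h' (l1 _ h''), l1 Z⟩
  have : CardinalInterFilter ((U.map e : Ultrafilter O) : Filter O) κ :=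
    (inferInstance : CardinalInterFilter (Filter.map e U) κ)
  obtain ⟨d, h7, h8, h9⟩ := X.exists_d (U.map e) (sd X.k y₀) (h5 _ _) fun ξ hξ =>
    mem_of_superset ((h6 _ hk y₀ _).2 (Ini.Y.big X y₀ (X.mk_Iic hξ))) fun x hx => not_le.1 hx
  obtain ⟨cd, h10, h11⟩ := X.exists_cd
  refine ⟨⟨κ, X.inf, X.nat, X.ini ℵ₀, X.k, X.kp, X.lt_nat, X.lt_w, hw, hk, X.mk_k.le,
    fun a ha => ?_, fun s hs => X.bounded (isRegular_succ X.inf) X.le s (lt_succ_iff.2 hs),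
    U.map e, fun A hA => ?_, d, h7, h8, h9, cd, h10, h11, X.Y, y₀, Subtype.val, sd, h5, h6,
    fun β γ y y' l1 l2 => ?_, fun y => y.2.2.2, X.all, X.nr⟩⟩
  · obtain ⟨g, l1, l2, -⟩ := exists_injOn (s := Iio a) (t := Iio X.k)
      (by rw [X.mk_k]; exact lt_succ_iff.1 ((X.lt_ini _ X.le _).1 ha)) a
    exact ⟨g, l2, l1⟩
  · by_contra hn
    push Not at hn
    refine Ultrafilter.compl_notMem_iff.2 hA ?_
    rw [compl_iUnion]
    exact (cardinal_iInter_mem (mk_le_aleph0.trans_lt sc.1)).2 fun p =>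
      Ultrafilter.compl_mem_iff_notMem.2 (hn p)
  · exact Ultrafilter.mem_map.2 <|
      mem_of_superset (h3 (⟨β, l1.trans l2⟩, y) (⟨γ, l2⟩, y') l1) fun z hz => by
      show sd β y (e z) < sd γ y' (e z)
      rwa [h4 β (l1.trans l2), h4 γ l2]

end Pool.Agent.Work.MP_1ec257_lc
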