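import Pool.Agent.Work.MP_1ec257_lc.Int0
import Pool.Agent.Work.MP_58a5a1_lc.Ext

/-! A generic extension of a countable hull, with one family of requests. -/

namespace Pool.Agent.Work.MP_1ec257_lc
open Pool.Agent.Lib.ZFModel Pool.Agent.Work.MP_63c7e0_lc Pool.Agent.Work.MP_58a5a1_lc Name

variable {P A K : Type} [Preorder P]

abbrev Req (P A K : Type) := K → (ℕ → Name P) → (ℕ → A) → P → A → Name P → Prop

structure Hull₀ (a₀ : A) (W : Req P A K) extends Gen (P := P) Unit where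
  AN : Set A
  zfc : IsZFC toGen.E
  upair_mem : ∀ a ∈ N, ∀ b ∈ N, upairN a b ∈ N
  meet : ∀ k (l₁ : List (Name P)) (l₃ : List A), (∀ x ∈ l₁, x ∈ N) → (∀ x ∈ l₃, x ∈ AN) →
    ∀ p, G p → Dns (fun r => ∃ j y, W k (envOf emptyName l₁) (envOf a₀ l₃) r j y) p →
      ∃ r, G r ∧ ∃ j ∈ AN, ∃ y ∈ N, W k (envOf emptyName l₁) (envOf a₀ l₃) r j y

theorem exists_hull₀ [Countable K] (p₀ : P) (a₀ : A) (W : Req P A K) : Nonempty (Hull₀ a₀ W) := by
  obtain ⟨g⟩ := exists_genW p₀ a₀ (fun k v c a y => W k v (fun i => a (i + 1)) (c 0) (a 0) y)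
    (fun k v _ a x => ∃ y, W k v a x.1 x.2 y)
  refine ⟨⟨g.toGen, g.AN, g.zfc, g.upair_mem, fun k l₁ l₃ h₁ h₃ p hp hd => ?_⟩⟩
  obtain ⟨q, hq, hGq, j, hj, h⟩ := g.meet k l₁ [] l₃ h₁ mem_list₀ h₃ p hp hd
  exact ⟨q, hGq, j, hj, g.clN k l₁ [q] (j :: l₃) h₁ (mem_list₁ hq) (mem_listc hj h₃) h⟩

theorem Gen.wf (g : Gen (P := P) Unit) : WellFounded g.E := by
  have : ∀ x, ∀ h : x ∈ g.N, Acc g.E (g.cl ⟨x, h⟩) := fun x => by
    induction x using Name.child_wf.induction with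
    | h x ih =>
      intro h
      refine ⟨_, fun a ha => ?_⟩
      obtain ⟨j, hj, -, rfl⟩ := g.E_cl_child.1 ha
      exact ih _ ⟨j, rfl⟩ hj
  refine ⟨fun a => ?_⟩
  obtain ⟨⟨x, h⟩, rfl⟩ := g.cl_surj a
  exact this x h

/-- `b` collects witnesses for `φ` over `a`. -/
def Coll (φ : Fml) (v : ℕ → Name P) (a b : Name P) : Prop :=
  ∀ x y p, MemF x a p → Forces Unit φ p (cons y (cons x v)) →
    Dns (fun r => ∃ y', MemF y' b r ∧ Forces Unit φ r (cons y' (cons x v))) p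

theorem exists_coll (φ : Fml) (v : ℕ → Name P) (a : Name P) : ∃ b, Coll φ v a b := by
  let T : a.Idx × P → Name P → Prop := fun i y => Forces Unit φ i.2 (cons y (cons (a.ch i.1) v))
  refine ⟨Name.mk {i // ∃ y, T i y} (fun i => i.2.choose) fun i => i.1.2, fun x y p h1 h2 q hq => ?_⟩
  obtain ⟨r, hr, i, -, he⟩ := h1 q hq
  have h3 : ∃ y, T (i, r) y := ⟨y, Forces.congr (cons_agree (R := fun a b => EqF a b r)
    (EqF.refl _ _) (cons_agree (R := fun a b => EqF a b r) he fun _ _ => EqF.refl _ _))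
    (h2.mono (hr.trans hq))⟩
  exact ⟨r, hr, h3.choose, fun s hs => ⟨s, le_rfl, ⟨(i, r), h3⟩, hs, EqF.refl _ _⟩,
    Forces.congr (cons_agree (R := fun a b => EqF a b r) (EqF.refl _ _)
      (cons_agree (R := fun a b => EqF a b r) he.symm fun _ _ => EqF.refl _ _)) h3.choose_spec⟩

structure Hull (a₀ : A) (W : Req P A K) extends Hull₀ a₀ W where
  nice : Nice toGen.E

theorem exists_hull [Countable K] (p₀ : P) (a₀ : A) (W : Req P A K) : Nonempty (Hull a₀ W) := by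
  let W' : Req P A (K ⊕ Fml ⊕ Fml) := fun k v a r j y => match k with
    | .inl k => W k v a r j y
    | .inr (.inl φ) => Coll φ (fun i => v (i + 1)) (v 0) y
    | .inr (.inr φ) => MemF y (v 0) r ∧ Forces Unit φ r (cons y fun i => v (i + 1))
  obtain ⟨g⟩ := exists_hull₀ p₀ a₀ W'
  refine ⟨⟨⟨g.toGen, g.AN, g.zfc, g.upair_mem, fun k => g.meet (.inl k)⟩,
    g.zfc, Gen.wf _, fun φ v a => ?_⟩⟩
  obtain ⟨a, rfl⟩ := g.toGen.cl_surj a
  choose w hw using fun i => g.toGen.cl_surj (v i)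
  obtain ⟨l, -, hl⟩ := exists_envOf g.toGen.e0 φ.bd w
  obtain ⟨p, hp⟩ := g.toGen.ne
  have hl' := g.toGen.map_val_mem l
  obtain ⟨_, _, _, _, b, hb, h1⟩ := g.meet (.inr (.inl φ)) (a.1 :: l.map Subtype.val) []
    (mem_listc a.2 hl') mem_list₀ p hp fun r _ => ⟨r, le_rfl, a₀, exists_coll φ _ _⟩
  have key : ∀ x y : g.N, Sat g.toGen.E φ (cons (g.toGen.cl y) (cons (g.toGen.cl x) v)) ↔
      ∃ p, g.G p ∧ Forces Unit φ p
        (cons y.1 (cons x.1 (envOf emptyName (l.map Subtype.val)))) := fun x y => by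
    have := g.toGen.truth φ (cons y (cons x (envOf g.toGen.e0 l)))
    rw [comp_cons g.toGen.cl, comp_cons g.toGen.cl, comp_cons Subtype.val, comp_cons Subtype.val,
      g.toGen.val_envOf] at this
    rw [← this]
    exact sat_congr φ _ _ (cons_agree (R := Eq) rfl (cons_agree (R := Eq) rfl fun i hi => by
      rw [hl i (by omega), hw]))
  refine ⟨g.toGen.cl ⟨b, hb⟩, fun x hx ⟨y, hy⟩ => ?_⟩
  obtain ⟨x, rfl⟩ := g.toGen.cl_surj x
  obtain ⟨y, rfl⟩ := g.toGen.cl_surj y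
  obtain ⟨q, hq, h2⟩ := g.toGen.E_cl.1 hx
  obtain ⟨q', hq', h3⟩ := (key x y).1 hy
  obtain ⟨r, hr, h4, h5⟩ := g.dir _ _ hq hq'
  obtain ⟨s, hs, _, _, y', hy', h6, h7⟩ := g.meet (.inr (.inr φ))
    (b :: x.1 :: l.map Subtype.val) [] (mem_listc hb (mem_listc x.2 hl')) mem_list₀ r hr
    fun s hs => let ⟨t, h6, h7⟩ := h1 x.1 y.1 r (h2.mono h4) (h3.mono h5) s hs; ⟨t, h6, a₀, h7⟩
  exact ⟨g.toGen.cl ⟨y', hy'⟩, g.toGen.E_cl.2 ⟨s, hs, h6⟩, (key x ⟨y', hy'⟩).2 ⟨s, hs, h7⟩⟩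

namespace Hull
variable {a₀ : A} {W : Req P A K} (g : Hull a₀ W)

abbrev M := g.toGen.M
abbrev E := g.toGen.E

instance : Nice g.E := g.nice

open Classical in
/-- The value of a name. -/
noncomputable def val (x : Name P) : g.M :=
  if h : x ∈ g.N then g.toGen.cl ⟨x, h⟩ else g.toGen.cl g.toGen.e0

theorem val_eq {x : Name P} (h : x ∈ g.N) : g.val x = g.toGen.cl ⟨x, h⟩ := dif_pos h

theorem val_surj (a : g.M) : ∃ x ∈ g.N, g.val x = a := by
  obtain ⟨x, rfl⟩ := g.toGen.cl_surj a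
  exact ⟨x.1, x.2, g.val_eq x.2⟩

theorem E_val {x y : Name P} (hx : x ∈ g.N) (hy : y ∈ g.N) :
    g.E (g.val x) (g.val y) ↔ ∃ p, g.G p ∧ MemF x y p := by
  rw [g.val_eq hx, g.val_eq hy]; exact g.toGen.E_cl

theorem E_rName {ι : Type} {B : ι → Name P} {R : ι → P → Prop} (h : rName B R ∈ g.N) (a : g.M) :
    g.E a (g.val (rName B R)) ↔ ∃ i p, R i p ∧ g.G p ∧ B i ∈ g.N ∧ a = g.val (B i) := by
  rw [g.val_eq h]
  refine (g.toGen.E_rName h a).trans (exists_congr fun i => exists_congr fun p =>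
    and_congr_right fun _ => and_congr_right fun _ => ⟨fun ⟨h1, h2⟩ => ⟨h1, ?_⟩,
      fun ⟨h1, h2⟩ => ⟨h1, ?_⟩⟩)
  · rwa [g.val_eq h1]
  · rwa [g.val_eq h1] at h2

theorem pair_mem {a b : Name P} (ha : a ∈ g.N) (hb : b ∈ g.N) : pairN a b ∈ g.N :=
  g.upair_mem _ (g.upair_mem _ ha _ ha) _ (g.upair_mem _ ha _ hb)

theorem isPair {a b : Name P} (ha : a ∈ g.N) (hb : b ∈ g.N) :
    IsPair g.E (g.val (pairN a b)) (g.val a) (g.val b) := by
  have h1 := g.toGen.mem_upair ha ha (g.upair_mem _ ha _ ha)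
  have h2 := g.toGen.mem_upair ha hb (g.upair_mem _ ha _ hb)
  rw [g.val_eq ha, g.val_eq hb, g.val_eq (g.pair_mem ha hb)]
  intro z
  refine (g.toGen.mem_upair (g.upair_mem _ ha _ ha) (g.upair_mem _ ha _ hb)
    (g.pair_mem ha hb) z).trans ⟨?_, ?_⟩
  · rintro (rfl | rfl)
    · exact Or.inl fun x => (h1 x).trans or_self_iff
    · exact Or.inr h2
  · rintro (h3 | h3)
    · exact Or.inl (ext (E := g.E) fun x => (h3 x).trans ((h1 x).trans or_self_iff).symm)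
    · exact Or.inr (ext (E := g.E) fun x => (h3 x).trans (h2 x).symm)

theorem app_val {σ a b : Name P} (hσ : σ ∈ g.N) (ha : a ∈ g.N) (hb : b ∈ g.N) :
    App g.E (g.val σ) (g.val a) (g.val b) ↔ ∃ q, g.G q ∧ MemF (pairN a b) σ q := by
  have h6 := g.isPair ha hb
  refine Iff.trans ⟨fun ⟨p, h1, h2⟩ => ?_, fun h => ⟨_, h, h6⟩⟩ (g.E_val (g.pair_mem ha hb) hσ)
  rwa [pair_unique zf h2 h6] at h1

theorem clash {Q : P → Prop} (hQ : Mono Q) {p q : P} (hp : g.G p) (hq : g.G q) (h : Q p)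
    (h' : ∀ r ≤ q, ¬ Q r) : False :=
  let ⟨r, _, h1, h2⟩ := g.dir _ _ hp hq
  h' r h2 (hQ _ _ h1 h)

end Hull

end Pool.Agent.Work.MP_1ec257_lc
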