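import Pool.Agent.Work.MP_1ec257_lc.Defs
import Pool.Agent.Work.MP_63c7e0_lc.Basic

/-! Definable terms, choice and dependent choice in a well-founded model of ZFC with
collection. -/

namespace Pool.Agent.Work.MP_1ec257_lc
open Pool.Agent.Lib.ZFModel Pool.Agent.Work.MP_63c7e0_lc Pool.Agent.Work.MP_58a5a1_lc

set_option synthInstance.maxSize 100000

variable {M : Type 1}

class Nice (E : M → M → Prop) : Prop where
  zfc : IsZFC E
  wf : WellFounded E
  coll : ∀ (φ : Fml) (v : ℕ → M) (a : M), ∃ b, ∀ x, E x a →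
    (∃ y, Sat E φ (cons y (cons x v))) → ∃ y, E y b ∧ Sat E φ (cons y (cons x v))

variable {E : M → M → Prop}

theorem Dfn.comp (Q : (ℕ → M) → Prop) [h : Dfn E Q] (ρ : ℕ → ℕ) :
    Dfn E (fun v => Q fun i => v (ρ i)) := by
  obtain ⟨φ, c, h⟩ := h.out
  refine ⟨φ.rename (rn (fun n => vi (ρ n)) ci), c, fun v => ?_⟩
  simp only [sat_rename, comp_rn, weave_vi, weave_ci, h]

/-- `t` has a definable graph. -/
class DT (E : M → M → Prop) (t : (ℕ → M) → M) : Prop where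
  out : Dfn E (fun v => v 0 = t (tail v))

theorem DT.comp (t : (ℕ → M) → M) [h : DT E t] (ρ : ℕ → ℕ) :
    DT E (fun v => t fun i => v (ρ i)) :=
  ⟨@Dfn.comp M E _ h.out (cons 0 fun i => ρ i + 1)⟩

instance DT.var [Nonempty M] (i : ℕ) : DT E (fun v => v i) :=
  ⟨(inferInstance : Dfn E (fun v => v 0 = v (i + 1)))⟩

instance DT.const [Nonempty M] (a : M) : DT E (fun _ => a) :=
  ⟨(inferInstance : Dfn E (fun v => v 0 = a))⟩

theorem Dfn.sub1 [Nonempty M] (Q : M → (ℕ → M) → Prop) [Dfn E fun v => Q (v 0) (tail v)]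
    (t : (ℕ → M) → M) [h : DT E t] : Dfn E (fun v => Q (t v) v) := by
  have := h.out
  exact (inferInstance : Dfn E fun v => ∃ y, y = t v ∧ Q y v).congr fun v => by simp

theorem Dfn.rel1 [Nonempty M] (R : M → Prop) [h : Dfn E fun v => R (v 0)]
    (s : (ℕ → M) → M) [DT E s] : Dfn E (fun v => R (s v)) :=
  Dfn.sub1 (fun y _ => R y) s

theorem Dfn.rel2 [Nonempty M] (R : M → M → Prop) [h : Dfn E fun v => R (v 0) (v 1)]
    (s t : (ℕ → M) → M) [DT E s] [DT E t] : Dfn E (fun v => R (s v) (t v)) := by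
  have : DT E fun v => t (tail v) := DT.comp t (· + 1)
  have : Dfn E fun v => R (v 1) (v 0) := Dfn.comp (fun v => R (v 0) (v 1)) (cons 1 fun _ => 0)
  have : Dfn E fun v => R (v 0) (t (tail v)) := Dfn.sub1 (fun y v => R (v 0) y) _
  exact Dfn.sub1 (fun y v => R y (t v)) s

theorem Dfn.rel3 [Nonempty M] (R : M → M → M → Prop)
    [h : Dfn E fun v => R (v 0) (v 1) (v 2)]
    (s t u : (ℕ → M) → M) [DT E s] [DT E t] [DT E u] : Dfn E (fun v => R (s v) (t v) (u v)) := by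
  have : DT E fun v => t (tail v) := DT.comp t (· + 1)
  have : DT E fun v => u (tail (tail v)) := DT.comp u (· + 2)
  have : Dfn E fun v => R (v 2) (v 1) (v 0) :=
    Dfn.comp (fun v => R (v 0) (v 1) (v 2)) (cons 2 (cons 1 fun _ => 0))
  have : Dfn E fun v => R (v 1) (v 0) (u (tail (tail v))) :=
    Dfn.sub1 (fun y v => R (v 1) (v 0) y) _
  have : Dfn E fun v => R (v 0) (t (tail v)) (u (tail v)) :=
    Dfn.sub1 (fun y v => R (v 0) y (u (tail v))) _
  exact Dfn.sub1 (fun y v => R y (t v) (u v)) s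

section inst
variable [Nonempty M] (s t u : (ℕ → M) → M) [DT E s] [DT E t] [DT E u]

instance (priority := low) dMem : Dfn E (fun v => E (s v) (t v)) := Dfn.rel2 E s t
instance (priority := low) dEq : Dfn E (fun v => s v = t v) := Dfn.rel2 Eq s t
instance (priority := low) dSub : Dfn E (fun v => Sub E (s v) (t v)) := Dfn.rel2 (Sub E) s t
instance (priority := low) dSing : Dfn E (fun v => IsSing E (s v) (t v)) :=
  Dfn.rel2 (IsSing E) s t
instance (priority := low) dPair : Dfn E (fun v => IsPair E (s v) (t v) (u v)) :=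
  Dfn.rel3 (IsPair E) s t u
instance (priority := low) dApp : Dfn E (fun v => App E (s v) (t v) (u v)) :=
  Dfn.rel3 (App E) s t u
instance (priority := low) dFun : Dfn E (fun v => IsFun E (s v) (t v) (u v)) :=
  Dfn.rel3 (IsFun E) s t u
instance dSeq : Dfn E (fun v => IsSeq E (s v) (t v)) :=
  have : Dfn E fun v => IsSeq E (v 0) (v 1) := by unfold IsSeq; infer_instance
  Dfn.rel2 (IsSeq E) s t

end inst

theorem Dfn.sat [Nonempty M] (φ : Fml) : ∀ (t : ℕ → (ℕ → M) → M), (∀ i, DT E (t i)) →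
    Dfn E (fun v => Sat E φ fun i => t i v) := by
  induction φ with
  | mem i j => intro t h; exact dMem (t i) (t j)
  | eq i j => intro t h; exact dEq (t i) (t j)
  | fal => intro t _; exact ⟨.fal, fun _ => Classical.arbitrary M, fun _ => Iff.rfl⟩
  | imp φ ψ ih1 ih2 =>
    intro t h
    have := ih1 t h
    have := ih2 t h
    exact Dfn.imp _ _
  | all φ ih =>
    intro t h
    have := ih (cons (fun v => v 0) fun i v => t i (tail v)) (by
      rintro (_ | i)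
      · exact DT.var 0
      · exact DT.comp (t i) (· + 1))
    have : Dfn E fun v => Sat E φ (cons (v 0) fun i => t i (tail v)) :=
      this.congr fun v => by
        congr! 2 with i
        cases i <;> rfl
    exact Dfn.all (fun v x => Sat E φ (cons x fun i => t i v))

open Classical in
/-- The value of `f` at `x`. -/
noncomputable def ev (E : M → M → Prop) (f x : M) : M :=
  if h : ∃! y, App E f x y then h.choose else x

theorem ev_iff (f x y : M) : y = ev E f x ↔ (App E f x y ∧ ∀ y', App E f x y' → y' = y) ∨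
    ((¬ ∃ z, App E f x z ∧ ∀ y', App E f x y' → y' = z) ∧ y = x) := by
  unfold ev
  split_ifs with h
  · exact ⟨fun e => Or.inl (e ▸ h.choose_spec), fun h' => h'.elim
      (fun h' => h.choose_spec.2 y h'.1) fun h' => absurd h h'.1⟩
  · exact ⟨fun e => Or.inr ⟨h, e⟩, fun h' => h'.elim (fun h' => absurd ⟨y, h'⟩ h) fun h' => h'.2⟩

instance dEv [Nonempty M] (s t : (ℕ → M) → M) [DT E s] [DT E t] :
    DT E (fun v => ev E (s v) (t v)) := by
  have : DT E fun v => s (tail v) := DT.comp s (· + 1)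
  have : DT E fun v => t (tail v) := DT.comp t (· + 1)
  have : Dfn E fun v => v 0 = ev E (v 1) (v 2) :=
    Dfn.congr (Q := fun v => (App E (v 1) (v 2) (v 0) ∧ ∀ y', App E (v 1) (v 2) y' → y' = v 0) ∨
      ((¬ ∃ z, App E (v 1) (v 2) z ∧ ∀ y', App E (v 1) (v 2) y' → y' = z) ∧ v 0 = v 2))
      inferInstance fun v => ev_iff _ _ _
  exact ⟨Dfn.rel3 (fun y f x => y = ev E f x) (fun v => v 0) _ _⟩

theorem IsFun.seq {f A B : M} (h : IsFun E f A B) : IsSeq E f A := ⟨B, h⟩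

theorem IsSeq.ev_eq {f A x y : M} (h : IsSeq E f A) (h1 : App E f x y) : ev E f x = y := by
  obtain ⟨B, h⟩ := h
  exact ((ev_iff _ _ _).2 (Or.inl ⟨h1, fun y' h2 => h.2.2 _ _ _ h2 h1⟩)).symm

theorem IsSeq.app {f A x : M} (h : IsSeq E f A) (hx : E x A) : App E f x (ev E f x) := by
  obtain ⟨y, hy⟩ := h.choose_spec.2.1 x hx
  rw [h.ev_eq hy]; exact hy

variable [N : Nice E]

theorem zf : IsZF E := N.zfc.zf

theorem ne (E : M → M → Prop) [N : Nice E] : Nonempty M := N.zfc.zf.nonempty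

theorem irr (a : M) : ¬ E a a := not_mem_self zf a

theorem ext {a b : M} (h : ∀ x, E x a ↔ E x b) : a = b := zf.extensionality a b h

theorem IsSeq.dom {f A x y : M} (h : IsSeq E f A) (h1 : App E f x y) : E x A :=
  (h.choose_spec.mem zf h1).1

theorem IsSeq.app_iff {f A x y : M} (h : IsSeq E f A) :
    App E f x y ↔ E x A ∧ y = ev E f x :=
  ⟨fun h1 => ⟨h.dom h1, (h.ev_eq h1).symm⟩, fun ⟨h1, h2⟩ => h2 ▸ h.app h1⟩

theorem IsFun.ev_mem {f A B x : M} (h : IsFun E f A B) (hx : E x A) : E (ev E f x) B :=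
  (h.mem zf ((IsFun.seq h).app hx)).2

theorem IsSeq.mem_iff {f A p : M} (h : IsSeq E f A) :
    E p f ↔ ∃ x, E x A ∧ IsPair E p x (ev E f x) := by
  constructor
  · intro hp
    obtain ⟨x, y, hx, -, h1⟩ := h.choose_spec.1 p hp
    exact ⟨x, hx, (h.ev_eq ⟨p, hp, h1⟩).symm ▸ h1⟩
  · rintro ⟨x, hx, h1⟩
    obtain ⟨q, hq, h2⟩ := h.app hx
    exact pair_unique zf h2 h1 ▸ hq

theorem IsSeq.isFun {f A B : M} (h : IsSeq E f A) (hB : ∀ x, E x A → E (ev E f x) B) :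
    IsFun E f A B := by
  refine ⟨fun p hp => ?_, h.choose_spec.2⟩
  obtain ⟨x, hx, h1⟩ := h.mem_iff.1 hp
  exact ⟨x, _, hx, hB x hx, h1⟩

theorem IsSeq.ext {f g A : M} (h : IsSeq E f A) (h' : IsSeq E g A)
    (he : ∀ x, E x A → ev E f x = ev E g x) : f = g :=
  MP_1ec257_lc.ext (E := E) fun p => by
    rw [h.mem_iff, h'.mem_iff]
    exact exists_congr fun x => and_congr_right fun hx => by rw [he x hx]

theorem sep (a : M) (Q : M → Prop) [Dfn E (fun v => Q (v 0))] :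
    ∃ b, ∀ x, E x b ↔ E x a ∧ Q x := zf.sep a Q

theorem coll (a : M) (R : M → M → Prop) [Dfn E fun v => R (v 0) (v 1)] :
    ∃ b, ∀ x, E x a → (∃ y, R x y) → ∃ y, E y b ∧ R x y := by
  have : Dfn E fun v => R (v 1) (v 0) := Dfn.comp (fun v => R (v 0) (v 1)) (cons 1 fun _ => 0)
  obtain ⟨φ, c, h⟩ := Dfn.two (E := E) fun y x => R x y
  obtain ⟨b, hb⟩ := N.coll φ c a
  exact ⟨b, fun x hx => by simpa only [h] using hb x hx⟩

theorem rel (A B : M) (R : M → M → Prop) [Dfn E fun v => R (v 0) (v 1)] :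
    ∃ f, (∀ p, E p f → ∃ x y, E x A ∧ E y B ∧ IsPair E p x y) ∧
      ∀ x y, App E f x y ↔ E x A ∧ E y B ∧ R x y := by
  have := ne E
  have : Dfn E fun v => R (v 1) (v 0) := Dfn.comp (fun v => R (v 0) (v 1)) (cons 1 fun _ => 0)
  exact exists_rel zf A B R

theorem choice_rel (A B g : M) (h : ∀ x, E x A → ∃ y, E y B ∧ App E g x y) :
    ∃ f, IsFun E f A B ∧ ∀ x y, App E f x y → App E g x y := by
  have := ne E
  obtain ⟨W, hW⟩ := (zf (E := E)).powerset g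
  obtain ⟨a, ha⟩ := sep (E := E) W fun z => ∃ x, E x A ∧
    ∀ p, E p z ↔ E p g ∧ ∃ y, E y B ∧ IsPair E p x y
  obtain ⟨c, hc⟩ := N.zfc.choice a (by
      intro z hz
      obtain ⟨-, x, hx, h1⟩ := (ha z).1 hz
      obtain ⟨y, hy, p, hp, h2⟩ := h x hx
      exact ⟨p, (h1 p).2 ⟨hp, y, hy, h2⟩⟩)
    (by
      intro z z' p hz hz' h1 h2
      obtain ⟨-, x, -, h3⟩ := (ha z).1 hz
      obtain ⟨-, x', -, h4⟩ := (ha z').1 hz'
      obtain ⟨-, y, -, h5⟩ := (h3 p).1 h1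
      obtain ⟨-, y', -, h6⟩ := (h4 p).1 h2
      obtain rfl := (pair_inj zf h5 h6).1
      exact ext fun q => (h3 q).trans (h4 q).symm)
  obtain ⟨f, h1, h2⟩ := rel (E := E) A B fun x y => ∃ p, E p g ∧ E p c ∧ IsPair E p x y
  have key : ∀ x, E x A → ∃! p, (E p g ∧ ∃ y, E y B ∧ IsPair E p x y) ∧ E p c := by
    intro x hx
    obtain ⟨z, hz⟩ := sep (E := E) g fun p => ∃ y, E y B ∧ IsPair E p x y
    have := hc z ((ha z).2 ⟨(hW z).2 fun p hp => ((hz p).1 hp).1, x, hx, hz⟩)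
    simpa only [hz] using this
  refine ⟨f, ⟨h1, fun x hx => ?_, fun x y y' h3 h4 => ?_⟩, fun x y h3 => ?_⟩
  · obtain ⟨p, ⟨⟨h3, y, h4, h5⟩, h6⟩, -⟩ := key x hx
    exact ⟨y, (h2 x y).2 ⟨hx, h4, p, h3, h6, h5⟩⟩
  · obtain ⟨hx, hy, p, a1, a2, a3⟩ := (h2 _ _).1 h3
    obtain ⟨-, hy', p', b1, b2, b3⟩ := (h2 _ _).1 h4
    obtain rfl := (key x hx).unique ⟨⟨a1, y, hy, a3⟩, a2⟩ ⟨⟨b1, y', hy', b3⟩, b2⟩
    exact (pair_inj zf a3 b3).2
  · obtain ⟨-, -, p, a1, -, a3⟩ := (h2 _ _).1 h3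
    exact ⟨p, a1, a3⟩

/-- Choice for definable relations. -/
theorem choice (A : M) (R : M → M → Prop) [Dfn E fun v => R (v 0) (v 1)]
    (h : ∀ x, E x A → ∃ y, R x y) : ∃ f, IsSeq E f A ∧ ∀ x, E x A → R x (ev E f x) := by
  obtain ⟨B, hB⟩ := coll (E := E) A R
  obtain ⟨g, -, hg⟩ := rel (E := E) A B R
  obtain ⟨f, h1, h2⟩ := choice_rel A B g fun x hx => by
    obtain ⟨y, hy, h3⟩ := hB x hx (h x hx)
    exact ⟨y, hy, (hg x y).2 ⟨hx, hy, h3⟩⟩
  exact ⟨f, IsFun.seq h1, fun x hx => ((hg _ _).1 (h2 _ _ ((IsFun.seq h1).app hx))).2.2⟩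

theorem exists_funs (A B : M) : ∃ Z, ∀ e, IsFun E e A B → E e Z := by
  have := ne E
  obtain ⟨g, -, hg⟩ := rel (E := E) A B fun a _ => a = a
  obtain ⟨Z, hZ⟩ := (zf (E := E)).powerset g
  refine ⟨Z, fun e he => (hZ e).2 fun p hp => ?_⟩
  obtain ⟨x, y, hx, hy, h⟩ := he.1 p hp
  obtain ⟨q, hq, h'⟩ := (hg x y).2 ⟨hx, hy, rfl⟩
  exact pair_unique zf h' h ▸ hq

theorem exists_trans (a : M) : ∃ T, Sub E a T ∧ ∀ y, E y T → Sub E y T := by
  have := ne E
  induction a using N.wf.induction with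
  | h a ih =>
    obtain ⟨b, hb⟩ := coll (E := E) a fun z T => Sub E z T ∧ ∀ y, E y T → Sub E y T
    obtain ⟨b', hb'⟩ := sep (E := E) b fun T => ∀ y, E y T → Sub E y T
    obtain ⟨c, hc⟩ := (zf (E := E)).union b'
    obtain ⟨T, hT⟩ := exists_union (zf (E := E)) a c
    refine ⟨T, fun x hx => (hT x).2 (Or.inl hx), fun y hy z hz => (hT z).2 (Or.inr ?_)⟩
    rcases (hT y).1 hy with h | h
    · obtain ⟨T', h1, h2, h3⟩ := hb y h (ih y h)
      exact (hc z).2 ⟨T', (hb' T').2 ⟨h1, h3⟩, h2 z hz⟩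
    · obtain ⟨T', h1, h2⟩ := (hc y).1 h
      exact (hc z).2 ⟨T', h1, ((hb' T').1 h1).2 y h2 z hz⟩

theorem exists_range (h : M) : ∃ r, ∀ x y, App E h x y → E y r := by
  obtain ⟨c, hc⟩ := (zf (E := E)).union h
  obtain ⟨r, hr⟩ := (zf (E := E)).union c
  refine ⟨r, fun x y ⟨p, hp, h1⟩ => ?_⟩
  obtain ⟨t, ht⟩ := (zf (E := E)).pairing x y
  exact (hr y).2 ⟨t, (hc t).2 ⟨p, hp, (h1 t).2 (Or.inr ht)⟩, (ht y).2 (Or.inr rfl)⟩

theorem exists_insert (h x y : M) :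
    ∃ h', ∀ a b, App E h' a b ↔ App E h a b ∨ (a = x ∧ b = y) := by
  obtain ⟨p, hp⟩ := exists_pair (zf (E := E)) x y
  obtain ⟨s, hs⟩ := exists_sing (zf (E := E)) p
  obtain ⟨h', hh⟩ := exists_union (zf (E := E)) h s
  refine ⟨h', fun a b => ⟨fun ⟨q, h1, h2⟩ => ?_, ?_⟩⟩
  · rcases (hh q).1 h1 with h3 | h3
    · exact Or.inl ⟨q, h3, h2⟩
    · exact Or.inr (pair_inj zf h2 ((hs q).1 h3 ▸ hp))
  · rintro (⟨q, h1, h2⟩ | ⟨rfl, rfl⟩)
    · exact ⟨q, (hh q).2 (Or.inl h1), h2⟩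
    · exact ⟨p, (hh p).2 (Or.inr ((hs p).2 rfl)), hp⟩

theorem IsOrd.mem {k x : M} (h : IsOrd E k) (hx : E x k) : IsOrd E x := by
  refine ⟨fun y hy z hz => ?_, fun y z hy hz => h.2 y z (h.1 x hx y hy) (h.1 x hx z hz)⟩
  rcases h.2 z x (h.1 y (h.1 x hx y hy) z hz) hx with h1 | h1 | h1
  · exact h1
  · exact absurd (h1 ▸ hz) (N.wf.asymmetric _ _ hy)
  · exact absurd h1 (N.wf.asymmetric₃ _ _ _ hz hy)

/-- Standard natural numbers. -/
structure Nats (E : M → M → Prop) where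
  nat : ℕ → M
  w : M
  mem_nat : ∀ a n, E a (nat n) ↔ ∃ m < n, a = nat m
  mem_w : ∀ a, E a w ↔ ∃ n, a = nat n

/-- `i = i' ∪ {i'}`. -/
def Suc (E : M → M → Prop) (i i' : M) : Prop := ∀ z, E z i ↔ E z i' ∨ z = i'

instance [Nonempty M] (s t : (ℕ → M) → M) [DT E s] [DT E t] :
    Dfn E (fun v => Suc E (s v) (t v)) :=
  have : Dfn E fun v => Suc E (v 0) (v 1) := by unfold Suc; infer_instance
  Dfn.rel2 (Suc E) s t

namespace Nats
variable (D : Nats E)

theorem nat_lt {m n : ℕ} : E (D.nat m) (D.nat n) ↔ m < n := by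
  rw [D.mem_nat]
  refine ⟨fun ⟨l, h1, h2⟩ => not_le.1 fun h => irr (E := E) (D.nat l) ?_, fun h => ⟨m, h, rfl⟩⟩
  exact (congrArg (E (D.nat l)) h2).mp ((D.mem_nat _ _).2 ⟨l, h1.trans_le h, rfl⟩)

theorem nat_inj {m n : ℕ} (h : D.nat m = D.nat n) : m = n := by
  rcases lt_trichotomy m n with h1 | h1 | h1
  · exact absurd (h ▸ D.nat_lt.2 h1) (irr _)
  · exact h1
  · exact absurd (h ▸ D.nat_lt.2 h1) (irr _)

omit N in
theorem nat_w (n : ℕ) : E (D.nat n) D.w := (D.mem_w _).2 ⟨n, rfl⟩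

omit N in
theorem suc (n : ℕ) : Suc E (D.nat (n + 1)) (D.nat n) := fun z => by
  rw [D.mem_nat, D.mem_nat]
  constructor
  · rintro ⟨m, hm, rfl⟩
    rcases Nat.lt_succ_iff_lt_or_eq.1 hm with h | rfl
    · exact Or.inl ⟨m, h, rfl⟩
    · exact Or.inr rfl
  · rintro (⟨m, hm, rfl⟩ | rfl)
    · exact ⟨m, by omega, rfl⟩
    · exact ⟨n, by omega, rfl⟩

theorem suc_eq {i : M} {n : ℕ} (h : Suc E i (D.nat n)) : i = D.nat (n + 1) :=
  ext fun z => (h z).trans (D.suc n z).symm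

theorem isOmega : IsOmega E D.w := by
  have h0 : IsEmptySet E (D.nat 0) := fun x hx => by
    obtain ⟨m, hm, -⟩ := (D.mem_nat _ _).1 hx
    omega
  refine ⟨⟨⟨_, D.nat_w 0, h0⟩, fun x hx => ?_⟩, fun w' hw' x hx => ?_⟩
  · obtain ⟨n, rfl⟩ := (D.mem_w _).1 hx
    exact ⟨_, D.nat_w (n + 1), D.suc n⟩
  · obtain ⟨n, rfl⟩ := (D.mem_w _).1 hx
    clear hx
    induction n with
    | zero =>
      obtain ⟨e, he, he'⟩ := hw'.1
      exact empty_unique zf he' h0 ▸ he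
    | succ n ih =>
      obtain ⟨y, hy, h⟩ := hw'.2 _ ih
      exact D.suc_eq h ▸ hy

/-- Dependent choice. -/
theorem dc (K x₀ : M) (h₀ : E x₀ K) (R : M → M → Prop) [Dfn E fun v => R (v 0) (v 1)]
    (h : ∀ x, E x K → ∃ y, E y K ∧ R x y) :
    ∃ σ, IsFun E σ D.w K ∧ ∀ n, R (ev E σ (D.nat n)) (ev E σ (D.nat (n + 1))) := by
  have := ne E
  obtain ⟨c, -, hc⟩ := choice (E := E) K (fun x y => E y K ∧ R x y) h
  let a : ℕ → M := fun n => (ev E c)^[n] x₀
  have ha : ∀ n, a (n + 1) = ev E c (a n) := fun n => Function.iterate_succ_apply' _ n x₀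
  have haK : ∀ n, E (a n) K := fun n => by
    induction n with
    | zero => exact h₀
    | succ n ih => rw [ha]; exact (hc _ ih).1
  let Just : M → Prop := fun g => ∀ i y, App E g i y → (i = D.nat 0 ∧ y = x₀) ∨
    ∃ i' y', App E g i' y' ∧ Suc E i i' ∧ y = ev E c y'
  have h1 : ∀ g, Just g → ∀ n y, App E g (D.nat n) y → y = a n := fun g hg n => by
    induction n with
    | zero =>
      intro y hy
      rcases hg _ _ hy with h1 | ⟨i', -, -, h1, -⟩
      · exact h1.2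
      · obtain ⟨m, hm, -⟩ := (D.mem_nat _ _).1 ((h1 i').2 (Or.inr rfl))
        omega
    | succ n ih =>
      intro y hy
      rcases hg _ _ hy with h1 | ⟨i', y', h1, h2, rfl⟩
      · exact absurd (D.nat_inj h1.1) (by omega)
      · obtain ⟨m, -, rfl⟩ := (D.mem_nat _ _).1 ((h2 i').2 (Or.inr rfl))
        obtain rfl : n = m := by have := D.nat_inj (D.suc_eq h2); omega
        rw [ih _ h1, ha]
  have h2 : ∀ n, ∃ g, Just g ∧ App E g (D.nat n) (a n) := fun n => by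
    induction n with
    | zero =>
      obtain ⟨e, he⟩ := exists_empty (zf (E := E))
      obtain ⟨g, hg⟩ := exists_insert (E := E) e (D.nat 0) x₀
      exact ⟨g, fun i y h => ((hg _ _).1 h).elim (fun ⟨p, hp, _⟩ => absurd hp (he p)) Or.inl,
        (hg _ _).2 (Or.inr ⟨rfl, rfl⟩)⟩
    | succ n ih =>
      obtain ⟨g, h3, h4⟩ := ih
      obtain ⟨g', hg⟩ := exists_insert (E := E) g (D.nat (n + 1)) (a (n + 1))
      refine ⟨g', fun i y h => ?_, (hg _ _).2 (Or.inr ⟨rfl, rfl⟩)⟩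
      rcases (hg _ _).1 h with h5 | ⟨rfl, rfl⟩
      · exact (h3 i y h5).imp_right fun ⟨i', y', h6, h7⟩ => ⟨i', y', (hg _ _).2 (Or.inl h6), h7⟩
      · exact Or.inr ⟨_, _, (hg _ _).2 (Or.inl h4), D.suc n, ha n⟩
  obtain ⟨σ, h3, h4⟩ := choice (E := E) D.w (fun i y => ∃ g, (∀ i y, App E g i y →
    (i = D.nat 0 ∧ y = x₀) ∨ ∃ i' y', App E g i' y' ∧ Suc E i i' ∧ y = ev E c y') ∧ App E g i y)
    fun i hi => by
      obtain ⟨n, rfl⟩ := (D.mem_w _).1 hi
      exact ⟨_, h2 n⟩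
  have h5 : ∀ n, ev E σ (D.nat n) = a n := fun n => by
    obtain ⟨g, h5, h6⟩ := h4 _ (D.nat_w n)
    exact h1 g h5 n _ h6
  refine ⟨σ, h3.isFun fun i hi => ?_, fun n => ?_⟩
  · obtain ⟨n, rfl⟩ := (D.mem_w _).1 hi
    rw [h5]; exact haK n
  · rw [h5, h5, ha]; exact (hc _ (haK n)).2

end Nats

end Pool.Agent.Work.MP_1ec257_lc
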