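import Pool.Agent.Work.MP_1ec257_lc.Int0

/-! The ultrapower by a short extender, presented as a filter on an index set together with a
directed family of functions into `k`, and its transitive collapse. -/

namespace Pool.Agent.Work.MP_1ec257_lc
open Pool.Agent.Lib.ZFModel Pool.Agent.Work.MP_63c7e0_lc Pool.Agent.Work.MP_58a5a1_lc

set_option synthInstance.maxSize 100000

variable {M : Type 1}

/-- `P` holds on a member of `U`. -/
def AE (E : M → M → Prop) (U : M) (P : M → Prop) : Prop := ∃ A, E A U ∧ ∀ x, E x A → P x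

/-- On `I`, the value of `s` determines the value of `f`. -/
def Ref (E : M → M → Prop) (I s f : M) : Prop :=
  ∀ x, E x I → ∀ x', E x' I → ev E s x = ev E s x' → ev E f x = ev E f x'

structure Sys (E : M → M → Prop) extends Nats E where
  k : M
  I : M
  S : M
  U : M
  d : M
  w_k : E w k
  ord_k : IsOrd E k
  S_fun : ∀ s, E s S → IsFun E s I k
  U_sub : ∀ A, E A U → Sub E A I
  U_dir : ∀ A B, E A U → E B U → ∃ C, E C U ∧ Sub E C A ∧ Sub E C B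
  U_pr : ∀ A, E A U → ∃ x, E x A
  d_S : E d S
  d_gt : ∀ ξ, E ξ k → AE E U fun x => E ξ (ev E d x)
  d_min : ∀ t, E t S → AE E U (fun x => ¬ E (ev E t x) (ev E d x)) ∨
    ∃ ξ, E ξ k ∧ AE E U fun x => ev E t x = ξ
  dir : ∀ s t, E s S → E t S → ∃ u, E u S ∧ Ref E I u s ∧ Ref E I u t
  gr : ∀ s e, E s S → IsFun E e k k → ∃ t, E t S ∧ AE E U fun x => ev E e (ev E s x) = ev E t x
  cl : ∀ σ, IsFun E σ k S → ∃ u, E u S ∧ ∀ x, E x I → ∀ x', E x' I → ev E u x = ev E u x' →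
    ev E d x = ev E d x' ∧ ∀ i, E i (ev E d x) → ev E (ev E σ i) x = ev E (ev E σ i) x'

variable {E : M → M → Prop}

instance [Nonempty M] (U : M) (P : (ℕ → M) → M → Prop)
    [Dfn E fun v => P (tail (tail v)) (v 0)] : Dfn E (fun v => AE E U (P v)) := by
  unfold AE; infer_instance

instance [Nonempty M] (I : M) (s t : (ℕ → M) → M) [DT E s] [DT E t] :
    Dfn E (fun v => Ref E I (s v) (t v)) :=
  have : Dfn E fun v => Ref E I (v 0) (v 1) := by unfold Ref; infer_instance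
  Dfn.rel2 (Ref E I) s t

theorem AE.mono {U : M} {P Q : M → Prop} (h : AE E U P) (h' : ∀ x, P x → Q x) : AE E U Q :=
  let ⟨A, h1, h2⟩ := h
  ⟨A, h1, fun x hx => h' x (h2 x hx)⟩

theorem Ref.trans {I s t f : M} (h : Ref E I s t) (h' : Ref E I t f) : Ref E I s f :=
  fun x hx x' hx' e => h' x hx x' hx' (h x hx x' hx' e)

namespace Sys
variable [N : Nice E] (D : Sys E)

abbrev ae (P : M → Prop) : Prop := AE E D.U P

/-- The functions that represent elements of the ultrapower. -/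
def R (f : M) : Prop := IsSeq E f D.I ∧ ∃ s, E s D.S ∧ Ref E D.I s f
def In (f g : M) : Prop := D.ae fun x => E (ev E f x) (ev E g x)
def Eqv (f g : M) : Prop := D.ae fun x => ev E f x = ev E g x

section
variable [Nonempty M] (s t : (ℕ → M) → M) [DT E s] [DT E t]
omit N
instance : Dfn E (fun v => D.R (s v)) :=
  have : Dfn E fun v => D.R (v 0) := by unfold R; infer_instance
  Dfn.rel1 D.R s
instance : Dfn E (fun v => D.In (s v) (t v)) :=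
  have : Dfn E fun v => D.In (v 0) (v 1) := by unfold In; infer_instance
  Dfn.rel2 D.In s t
instance : Dfn E (fun v => D.Eqv (s v) (t v)) :=
  have : Dfn E fun v => D.Eqv (v 0) (v 1) := by unfold Eqv; infer_instance
  Dfn.rel2 D.Eqv s t
end

variable {D}

omit N in
theorem ae_and {P Q : M → Prop} (h : D.ae P) (h' : D.ae Q) : D.ae fun x => P x ∧ Q x := by
  obtain ⟨A, h1, h2⟩ := h
  obtain ⟨B, h3, h4⟩ := h'
  obtain ⟨C, h5, h6, h7⟩ := D.U_dir A B h1 h3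
  exact ⟨C, h5, fun x hx => ⟨h2 x (h6 x hx), h4 x (h7 x hx)⟩⟩

omit N in
theorem ae_I {P : M → Prop} (h : D.ae P) : D.ae fun x => E x D.I ∧ P x :=
  let ⟨A, h1, h2⟩ := h
  ⟨A, h1, fun x hx => ⟨D.U_sub A h1 x hx, h2 x hx⟩⟩

omit N in
theorem ae_of {P : M → Prop} (h : ∀ x, E x D.I → P x) : D.ae P :=
  (ae_I (D.d_gt _ D.w_k)).mono fun x hx => h x hx.1

omit N in
theorem ae_ex {P : M → Prop} (h : D.ae P) : ∃ x, E x D.I ∧ P x := by
  obtain ⟨A, h1, h2⟩ := ae_I h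
  obtain ⟨x, hx⟩ := D.U_pr A h1
  exact ⟨x, h2 x hx⟩

omit N in
theorem ae_false {P Q : M → Prop} (h : D.ae P) (h' : D.ae Q) (hf : ∀ x, E x D.I → P x → Q x → False) :
    False :=
  let ⟨x, h1, h2, h3⟩ := ae_ex (ae_and h h')
  hf x h1 h2 h3

theorem d_mem {x : M} (hx : E x D.I) : E (ev E D.d x) D.k := IsFun.ev_mem (D.S_fun _ D.d_S) hx

theorem d_trans {x a b : M} (hx : E x D.I) (h : E a b) (h' : E b (ev E D.d x)) :
    E a (ev E D.d x) := (IsOrd.mem D.ord_k (d_mem hx)).1 b h' a h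

omit N in
theorem nat_k (n : ℕ) : E (D.nat n) D.k := D.ord_k.1 _ D.w_k _ (D.nat_w n)

omit N in
theorem R.ref₂ {f g : M} (hf : D.R f) (hg : D.R g) :
    ∃ s, E s D.S ∧ Ref E D.I s f ∧ Ref E D.I s g := by
  obtain ⟨-, s, h1, h2⟩ := hf
  obtain ⟨-, t, h3, h4⟩ := hg
  obtain ⟨u, h5, h6, h7⟩ := D.dir s t h1 h3
  exact ⟨u, h5, h6.trans h2, h7.trans h4⟩

omit N in
theorem R.ref₃ {f g h : M} (hf : D.R f) (hg : D.R g) (hh : D.R h) :
    ∃ s, E s D.S ∧ Ref E D.I s f ∧ Ref E D.I s g ∧ Ref E D.I s h := by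
  obtain ⟨s, h1, h2, h2'⟩ := hf.ref₂ hg
  obtain ⟨-, t, h3, h4⟩ := hh
  obtain ⟨u, h5, h6, h7⟩ := D.dir s t h1 h3
  exact ⟨u, h5, h6.trans h2, h6.trans h2', h7.trans h4⟩

omit N in
theorem R_of_S {s : M} (h : E s D.S) : D.R s :=
  ⟨IsFun.seq (D.S_fun s h), s, h, fun _ _ _ _ e => e⟩

/-- A represented function below `d` is constant almost everywhere. -/
theorem const {g : M} (hg : D.R g) (h : D.ae fun x => E (ev E g x) (ev E D.d x)) :
    ∃ ξ, E ξ D.k ∧ D.ae fun x => ev E g x = ξ := by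
  have := ne E
  obtain ⟨-, s, h1, h2⟩ := hg
  obtain ⟨e, h3, h4⟩ := choice (E := E) D.k (fun ξ y => E y D.k ∧
    ∀ x, E x D.I → ev E s x = ξ → E (ev E g x) D.k → y = ev E g x) fun ξ hξ => by
      by_cases hc : ∃ x, E x D.I ∧ ev E s x = ξ ∧ E (ev E g x) D.k
      · obtain ⟨x, l1, l2, l3⟩ := hc
        exact ⟨_, l3, fun x' l4 l5 _ => h2 x l1 x' l4 (l2.trans l5.symm)⟩
      · exact ⟨ξ, hξ, fun x l1 l2 l3 => absurd ⟨x, l1, l2, l3⟩ hc⟩
  obtain ⟨t, h5, h6⟩ := D.gr s e h1 (h3.isFun fun ξ hξ => (h4 ξ hξ).1)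
  have h7 : D.ae fun x => ev E t x = ev E g x := (ae_I (ae_and h h6)).mono fun x ⟨l1, l2, l3⟩ =>
    l3.symm.trans ((h4 _ (IsFun.ev_mem (D.S_fun s h1) l1)).2 x l1 rfl
      (D.ord_k.1 _ (d_mem l1) _ l2))
  rcases D.d_min t h5 with h8 | ⟨ξ, h8, h9⟩
  · exact (ae_false (ae_and h h7) h8 fun x _ ⟨l1, l2⟩ l3 => l3 (l2 ▸ l1)).elim
  · exact ⟨ξ, h8, (ae_and h7 h9).mono fun x ⟨l1, l2⟩ => l1.symm.trans l2⟩

/-- Witness functions. -/
theorem wit {s : M} (hs : E s D.S) (Q : M → M → Prop) [Dfn E fun v => Q (v 0) (v 1)]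
    (inv : ∀ x, E x D.I → ∀ x', E x' D.I → ev E s x = ev E s x' → ∀ y, Q x y → Q x' y) :
    ∃ g, D.R g ∧ Ref E D.I s g ∧ ∀ x, E x D.I → (∃ y, Q x y) → Q x (ev E g x) := by
  have := ne E
  have : Dfn E fun v => Q (v 0) (v 2) := Dfn.rel2 Q _ _
  have : Dfn E fun v => Q (v 1) (v 0) := Dfn.rel2 Q _ _
  obtain ⟨e, -, h4⟩ := choice (E := E) D.k (fun ξ y =>
    ∀ x, E x D.I → ev E s x = ξ → (∃ y', Q x y') → Q x y) fun ξ _ => by
      by_cases hc : ∃ x, E x D.I ∧ ev E s x = ξ ∧ ∃ y', Q x y'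
      · obtain ⟨x, l1, l2, y, l3⟩ := hc
        exact ⟨y, fun x' l4 l5 _ => inv x l1 x' l4 (l2.trans l5.symm) y l3⟩
      · exact ⟨ξ, fun x l1 l2 l3 => absurd ⟨x, l1, l2, l3⟩ hc⟩
  obtain ⟨g, h5, h6⟩ := choice (E := E) D.I (fun x y => y = ev E e (ev E s x)) fun x _ => ⟨_, rfl⟩
  have h7 : Ref E D.I s g := fun x hx x' hx' h => by rw [h6 x hx, h6 x' hx', h]
  exact ⟨g, ⟨h5, s, hs, h7⟩, h7, fun x hx h => by
    rw [h6 x hx]; exact h4 _ (IsFun.ev_mem (D.S_fun s hs) hx) x hx rfl h⟩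

theorem ultra {s : M} (hs : E s D.S) (P : M → Prop) [Dfn E fun v => P (v 0)]
    (inv : ∀ x, E x D.I → ∀ x', E x' D.I → ev E s x = ev E s x' → P x → P x') :
    D.ae P ∨ D.ae fun x => ¬ P x := by
  have := ne E
  obtain ⟨g, h1, -, h2⟩ := wit hs (fun x y => (P x ∧ y = D.nat 0) ∨ (¬ P x ∧ y = D.nat 1))
    fun x hx x' hx' e y h => h.imp (fun h => ⟨inv x hx x' hx' e h.1, h.2⟩)
      fun h => ⟨fun h' => h.1 (inv x' hx' x hx e.symm h'), h.2⟩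
  have h3 : ∀ x, E x D.I → (P x ∧ ev E g x = D.nat 0) ∨ (¬ P x ∧ ev E g x = D.nat 1) :=
    fun x hx => h2 x hx ((em (P x)).elim (fun h => ⟨_, Or.inl ⟨h, rfl⟩⟩) fun h => ⟨_, Or.inr ⟨h, rfl⟩⟩)
  obtain ⟨ξ, -, h4⟩ := const h1 ((ae_I (ae_and (D.d_gt _ (nat_k 0)) (D.d_gt _ (nat_k 1)))).mono
    fun x ⟨l1, l2, l3⟩ => (h3 x l1).elim (fun h => h.2 ▸ l2) fun h => h.2 ▸ l3)
  by_cases h : ξ = D.nat 0
  · refine Or.inl ((ae_I h4).mono fun x ⟨l1, l2⟩ => (h3 x l1).elim (fun h => h.1) fun h' => ?_)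
    exact absurd (D.nat_inj (h'.2.symm.trans (l2.trans h))) (by omega)
  · exact Or.inr ((ae_I h4).mono fun x ⟨l1, l2⟩ => (h3 x l1).elim
      (fun h' => absurd (l2.symm.trans h'.2) h) fun h => h.1)

theorem ultra₂ {f g : M} (hf : D.R f) (hg : D.R g) (P : M → M → Prop)
    [Dfn E fun v => P (v 0) (v 1)] :
    D.ae (fun x => P (ev E f x) (ev E g x)) ∨ D.ae fun x => ¬ P (ev E f x) (ev E g x) := by
  have := ne E
  obtain ⟨s, h1, h2, h3⟩ := hf.ref₂ hg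
  have : Dfn E fun v => P (ev E f (v 0)) (ev E g (v 0)) := Dfn.rel2 P _ _
  exact ultra h1 _ fun x hx x' hx' e h => by rwa [← h2 x hx x' hx' e, ← h3 x hx x' hx' e]

omit N in
theorem Eqv.refl (f : M) : D.Eqv f f := ae_of fun _ _ => rfl
omit N in
theorem Eqv.symm {f g : M} (h : D.Eqv f g) : D.Eqv g f := AE.mono h fun _ h => h.symm
omit N in
theorem Eqv.trans {f g h : M} (h1 : D.Eqv f g) (h2 : D.Eqv g h) : D.Eqv f h :=
  (ae_and h1 h2).mono fun _ h => h.1.trans h.2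
omit N in
theorem In.left {f f' g : M} (h1 : D.In f g) (h2 : D.Eqv f' f) : D.In f' g :=
  (ae_and h1 h2).mono fun _ h => h.2 ▸ h.1
omit N in
theorem In.right {f g g' : M} (h1 : D.In f g) (h2 : D.Eqv g g') : D.In f g' :=
  (ae_and h1 h2).mono fun _ h => h.2 ▸ h.1

/-- There is no descending sequence in the ultrapower. -/
theorem no_desc {σ K : M} (hσ : IsFun E σ D.w K) (h1 : ∀ f, E f K → D.R f)
    (h2 : ∀ n, D.In (ev E σ (D.nat (n + 1))) (ev E σ (D.nat n))) : False := by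
  have := ne E
  obtain ⟨τ, h3, h4⟩ := choice (E := E) D.k (fun i s => E s D.S ∧
    (E i D.w → Ref E D.I s (ev E σ i))) fun i _ => by
      by_cases hi : E i D.w
      · obtain ⟨-, s, l1, l2⟩ := h1 _ (IsFun.ev_mem hσ hi)
        exact ⟨s, l1, fun _ => l2⟩
      · exact ⟨_, D.d_S, fun h => absurd h hi⟩
  obtain ⟨u, h5, h6⟩ := D.cl τ (h3.isFun fun i hi => (h4 i hi).1)
  obtain ⟨g, h7, -, h8⟩ := wit h5 (fun x n => E n D.w ∧ ∀ m, Suc E m n → E m D.w →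
    ¬ (E m (ev E D.d x) ∧ E (ev E (ev E σ m) x) (ev E (ev E σ n) x)))
    fun x hx x' hx' e n ⟨l1, l2⟩ => ⟨l1, fun m l3 l4 ⟨l5, l6⟩ => by
      obtain ⟨l7, l8⟩ := h6 x hx x' hx' e
      rw [← l7] at l5
      have l9 := d_trans hx ((l3 n).2 (Or.inr rfl)) l5
      refine l2 m l3 l4 ⟨l5, ?_⟩
      rw [(h4 m (D.ord_k.1 _ D.w_k _ l4)).2 l4 x hx x' hx' (l8 m l5),
        (h4 n (D.ord_k.1 _ D.w_k _ l1)).2 l1 x hx x' hx' (l8 n l9)]
      exact l6⟩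
  have h9 : ∀ x, E x D.I → _ := fun x hx => h8 x hx (by
    obtain ⟨_, ⟨n, rfl⟩, hn⟩ := N.wf.has_min (Set.range fun n => ev E (ev E σ (D.nat n)) x)
      ⟨_, 0, rfl⟩
    refine ⟨D.nat n, D.nat_w n, fun m l1 _ l2 => ?_⟩
    obtain rfl := D.suc_eq l1
    exact hn _ ⟨n + 1, rfl⟩ l2.2)
  obtain ⟨ξ, -, h10⟩ := const h7 ((ae_I (D.d_gt _ D.w_k)).mono fun x ⟨l1, l2⟩ =>
    d_trans l1 (h9 x l1).1 l2)
  obtain ⟨x, l1, l2⟩ := ae_ex h10
  obtain ⟨n, rfl⟩ := (D.mem_w _).1 (l2 ▸ (h9 x l1).1)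
  refine ae_false h10 (ae_and (D.d_gt _ (nat_k (n + 1))) (h2 n)) fun x l3 l4 l5 => ?_
  have := h9 x l3
  rw [l4] at this
  exact this.2 _ (D.suc n) (D.nat_w _) l5

variable (D)

def Good (h : M) : Prop := ∀ g y, App E h g y → D.R g ∧
  (∀ z, E z y → ∃ g', App E h g' z ∧ D.In g' g) ∧
  ∀ g', D.R g' → D.In g' g → ∃ g'' z, D.Eqv g'' g' ∧ App E h g'' z ∧ E z y

/-- The transitive collapse of the class of `f` is `y`. -/
def Col (f y : M) : Prop := ∃ h, D.Good h ∧ App E h f y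

section
variable [Nonempty M] (s t : (ℕ → M) → M) [DT E s] [DT E t]
omit N
instance : Dfn E (fun v => D.Good (s v)) :=
  have : Dfn E fun v => D.Good (v 0) := by unfold Good; infer_instance
  Dfn.rel1 D.Good s
instance : Dfn E (fun v => D.Col (s v) (t v)) :=
  have : Dfn E fun v => D.Col (v 0) (v 1) := by unfold Col; infer_instance
  Dfn.rel2 D.Col s t
end

variable {D}

omit N in
theorem Col.R {f y : M} (h : D.Col f y) : D.R f := let ⟨_, h1, h2⟩ := h; (h1 _ _ h2).1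

omit N in
theorem Col.down {f y z : M} (h : D.Col f y) (hz : E z y) : ∃ g, D.Col g z ∧ D.In g f := by
  obtain ⟨h, h1, h2⟩ := h
  obtain ⟨g, h3, h4⟩ := (h1 _ _ h2).2.1 z hz
  exact ⟨g, ⟨h, h1, h3⟩, h4⟩

omit N in
theorem Col.up {f y g : M} (h : D.Col f y) (hg : D.R g) (hi : D.In g f) :
    ∃ g' z, D.Eqv g' g ∧ D.Col g' z ∧ E z y := by
  obtain ⟨h, h1, h2⟩ := h
  obtain ⟨g', z, h3, h4, h5⟩ := (h1 _ _ h2).2.2 g hg hi
  exact ⟨g', z, h3, ⟨h, h1, h4⟩, h5⟩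

theorem Col.uniq {y : M} : ∀ {f f' y' : M}, D.Col f y → D.Col f' y' → D.Eqv f f' → y = y' := by
  induction y using N.wf.induction with
  | h y ih =>
    intro f f' y' h h' e
    refine ext (E := E) fun z => ⟨fun hz => ?_, fun hz => ?_⟩
    · obtain ⟨g, h1, h2⟩ := h.down hz
      obtain ⟨g', z', h3, h4, h5⟩ := h'.up h1.R (h2.right e)
      exact ih z hz h1 h4 h3.symm ▸ h5
    · obtain ⟨g, h1, h2⟩ := h'.down hz
      obtain ⟨g', z', h3, h4, h5⟩ := h.up h1.R (h2.right e.symm)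
      exact ih z' h5 h4 h1 h3 ▸ h5

theorem Col.mem_of {f g y z : M} (h : D.Col f y) (h' : D.Col g z) (hi : D.In g f) : E z y := by
  obtain ⟨g', z', h1, h2, h3⟩ := h.up h'.R hi
  exact h2.uniq h' h1 ▸ h3

theorem Col.inj {y : M} : ∀ {f f' : M}, D.Col f y → D.Col f' y → D.Eqv f f' := by
  have := ne E
  have key : ∀ y, (∀ z, E z y → ∀ g g', D.Col g z → D.Col g' z → D.Eqv g g') →
      ∀ f f' g, D.Col f y → D.Col f' y → D.R g → D.In g f → D.In g f' := by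
    intro y ih f f' g h h' hg hi
    obtain ⟨g', z, h1, h2, h3⟩ := h.up hg hi
    obtain ⟨g'', h4, h5⟩ := h'.down h3
    exact h5.left (h1.symm.trans (ih z h3 _ _ h2 h4))
  induction y using N.wf.induction with
  | h y ih =>
    intro f f' h h'
    refine (ultra₂ h.R h'.R Eq).resolve_right fun hn => ?_
    obtain ⟨s, h1, h2, h3⟩ := h.R.ref₂ h'.R
    obtain ⟨g, h4, -, h5⟩ := wit h1 (fun x z => ¬ (E z (ev E f x) ↔ E z (ev E f' x)))
      fun x hx x' hx' e z hz => by rwa [← h2 x hx x' hx' e, ← h3 x hx x' hx' e]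
    have h6 : D.ae fun x => ¬ (E (ev E g x) (ev E f x) ↔ E (ev E g x) (ev E f' x)) :=
      (ae_I hn).mono fun x ⟨l1, l2⟩ => h5 x l1 (by
        by_contra hc
        exact l2 (ext (E := E) fun z => by_contra fun hz => hc ⟨z, hz⟩))
    rcases ultra₂ h4 h.R E with h7 | h7
    · exact ae_false (ae_and h7 (key y (fun z hz g g' => ih z hz) f f' g h h' h4 h7)) h6
        fun x _ l1 l2 => l2 (iff_of_true l1.1 l1.2)
    · have h8 : D.In g f' := (ae_and h6 h7).mono fun x ⟨l1, l2⟩ => by tauto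
      exact ae_false (key y (fun z hz g g' => ih z hz) f' f g h' h h4 h8) h7
        fun x _ l1 l2 => l2 l1

theorem Col.mem_iff {f g y z : M} (h : D.Col f y) (h' : D.Col g z) : E z y ↔ D.In g f :=
  ⟨fun hz => let ⟨_, h1, h2⟩ := h.down hz; h2.left (h'.inj h1), h.mem_of h'⟩

theorem Col.eq_iff {f g y z : M} (h : D.Col f y) (h' : D.Col g z) : y = z ↔ D.Eqv f g :=
  ⟨fun e => h.inj (e ▸ h'), h.uniq h'⟩

/-- An element of the class of `f` has a representative with values in `T`. -/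
theorem trim {f g T : M} (hf : D.R f) (hg : D.R g) (hi : D.In g f) (h0 : E (D.nat 0) T)
    (hT : ∀ x, E x D.I → Sub E (ev E f x) T) :
    ∃ g', D.R g' ∧ IsFun E g' D.I T ∧ D.Eqv g' g := by
  have := ne E
  obtain ⟨s, h1, -, h3⟩ := hf.ref₂ hg
  obtain ⟨g', h4, -, h5⟩ := wit h1 (fun x z => E z T ∧ (E (ev E g x) T → z = ev E g x))
    fun x hx x' hx' e z hz => by rwa [← h3 x hx x' hx' e]
  have h6 : ∀ x, E x D.I → _ := fun x hx => h5 x hx (by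
    by_cases hc : E (ev E g x) T
    · exact ⟨_, hc, fun _ => rfl⟩
    · exact ⟨_, h0, fun h => absurd h hc⟩)
  exact ⟨g', h4, h4.1.isFun fun x hx => (h6 x hx).1,
    (ae_I hi).mono fun x ⟨l1, l2⟩ => (h6 x l1).2 (hT x l1 _ l2)⟩

theorem exists_big (f : M) (hf : IsSeq E f D.I) :
    ∃ T, E (D.nat 0) T ∧ (∀ x, E x D.I → E (ev E f x) T) ∧ ∀ y, E y T → Sub E y T := by
  obtain ⟨B, hB⟩ := hf
  obtain ⟨s, hs⟩ := exists_sing (zf (E := E)) (D.nat 0)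
  obtain ⟨c, hc⟩ := exists_union (zf (E := E)) s B
  obtain ⟨T, h1, h2⟩ := exists_trans (E := E) c
  exact ⟨T, h1 _ ((hc _).2 (Or.inl ((hs _).2 rfl))),
    fun x hx => h1 _ ((hc _).2 (Or.inr (IsFun.ev_mem hB hx))), h2⟩

theorem col_step {f : M} (hf : D.R f)
    (ih : ∀ g, D.R g → D.In g f → ∃ g' z, D.Eqv g' g ∧ D.Col g' z) : ∃ y, D.Col f y := by
  have := ne E
  obtain ⟨T, h0, h1, h2⟩ := exists_big f hf.1
  obtain ⟨Z, hZ⟩ := exists_funs (E := E) D.I T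
  obtain ⟨b, hb⟩ := coll (E := E) Z fun g h => D.Good h ∧ ∃ g' z, D.Eqv g' g ∧ App E h g' z
  obtain ⟨b', hb'⟩ := sep (E := E) b fun h => D.Good h
  obtain ⟨H, hH⟩ := (zf (E := E)).union b'
  have hA : ∀ g z, App E H g z ↔ ∃ h, E h b ∧ D.Good h ∧ App E h g z := fun g z =>
    ⟨fun ⟨p, l1, l2⟩ => let ⟨h, l3, l4⟩ := (hH p).1 l1
      ⟨h, ((hb' h).1 l3).1, ((hb' h).1 l3).2, p, l4, l2⟩,
    fun ⟨h, l1, l2, p, l3, l4⟩ => ⟨p, (hH p).2 ⟨h, (hb' h).2 ⟨l1, l2⟩, l3⟩, l4⟩⟩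
  obtain ⟨r, hr⟩ := exists_range (E := E) H
  obtain ⟨y, hy⟩ := sep (E := E) r fun z => ∃ g, App E H g z ∧ D.In g f
  obtain ⟨H', hH'⟩ := exists_insert (E := E) H f y
  refine ⟨y, H', fun g z h => ?_, (hH' _ _).2 (Or.inr ⟨rfl, rfl⟩)⟩
  rcases (hH' _ _).1 h with h | ⟨rfl, rfl⟩
  · obtain ⟨h, l1, l2, l3⟩ := (hA _ _).1 h
    obtain ⟨l4, l5, l6⟩ := l2 _ _ l3
    refine ⟨l4, fun z' hz => ?_, fun g' l7 l8 => ?_⟩
    · obtain ⟨g', l7, l8⟩ := l5 z' hz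
      exact ⟨g', (hH' _ _).2 (Or.inl ((hA _ _).2 ⟨h, l1, l2, l7⟩)), l8⟩
    · obtain ⟨g'', z', l9, l10, l11⟩ := l6 g' l7 l8
      exact ⟨g'', z', l9, (hH' _ _).2 (Or.inl ((hA _ _).2 ⟨h, l1, l2, l10⟩)), l11⟩
  · refine ⟨hf, fun z' hz => ?_, fun g' l1 l2 => ?_⟩
    · obtain ⟨-, g', l1, l2⟩ := (hy z').1 hz
      exact ⟨g', (hH' _ _).2 (Or.inl l1), l2⟩
    · obtain ⟨g₁, l3, l4, l5⟩ := trim hf l1 l2 h0 fun x hx => h2 _ (h1 x hx)
      obtain ⟨h, l6, l7, g₂, z', l8, l9⟩ := hb g₁ (hZ g₁ l4) (by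
        obtain ⟨g₂, z', l6, h, l7, l8⟩ := ih g₁ l3 (l2.left l5)
        exact ⟨h, l7, g₂, z', l6, l8⟩)
      have l10 := (hA _ _).2 ⟨h, l6, l7, l9⟩
      exact ⟨g₂, z', l8.trans l5, (hH' _ _).2 (Or.inl l10),
        (hy z').2 ⟨hr _ _ l10, g₂, l10, l2.left (l8.trans l5)⟩⟩

theorem R.col {f : M} (hf : D.R f) : ∃ y, D.Col f y := by
  have := ne E
  have key : ∀ f, D.R f → ∃ g z, D.Eqv g f ∧ D.Col g z := by
    intro f hf
    by_contra hn
    obtain ⟨T, h0, h1, h2⟩ := exists_big f hf.1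
    obtain ⟨Z, hZ⟩ := exists_funs (E := E) D.I T
    obtain ⟨K, hK⟩ := sep (E := E) Z fun f => IsFun E f D.I T ∧ D.R f ∧
      ¬ ∃ g z, D.Eqv g f ∧ D.Col g z
    have l0 := hf.1.isFun h1
    obtain ⟨σ, h3, h4⟩ := D.dc K f ((hK f).2 ⟨hZ f l0, l0, hf, hn⟩) (fun f g => D.In g f)
      fun f hf => by
        obtain ⟨-, l1, l2, l3⟩ := (hK f).1 hf
        by_contra hc
        obtain ⟨y, hy⟩ := col_step l2 fun g l4 l5 => by
          by_contra l6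
          obtain ⟨g₁, l7, l8, l9⟩ := trim l2 l4 l5 h0 fun x hx => h2 _ (IsFun.ev_mem l1 hx)
          exact hc ⟨g₁, (hK g₁).2 ⟨hZ _ l8, l8, l7, fun ⟨g₂, z, l10, l11⟩ =>
            l6 ⟨g₂, z, l10.trans l9, l11⟩⟩, l5.left l9⟩
        exact l3 ⟨f, y, Eqv.refl f, hy⟩
    exact no_desc h3 (fun f hf => ((hK f).1 hf).2.2.1) h4
  exact col_step hf fun g hg _ => key g hg

end Sys

end Pool.Agent.Work.MP_1ec257_lc
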