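import Pool.Agent.Work.MP_1ec257_lc.Int1

/-! The theorem of Łoś, the critical point and the closure of the ultrapower. -/

namespace Pool.Agent.Work.MP_1ec257_lc
open Pool.Agent.Lib.ZFModel Pool.Agent.Work.MP_63c7e0_lc Pool.Agent.Work.MP_58a5a1_lc

set_option synthInstance.maxSize 100000

variable {M : Type 1} {E : M → M → Prop}

namespace Sys
variable [N : Nice E] (D : Sys E)

/-- The target class. -/
def Nc (y : M) : Prop := ∃ f, D.Col f y

def Cst (c a : M) : Prop := IsSeq E c D.I ∧ ∀ x, E x D.I → ev E c x = a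

variable {D}

theorem exists_cst (a : M) : ∃ c, D.Cst c a := by
  have := ne E
  exact choice (E := E) D.I (fun _ y => y = a) fun _ _ => ⟨a, rfl⟩

omit N in
theorem Cst.R {c a : M} (h : D.Cst c a) : D.R c :=
  ⟨h.1, _, D.d_S, fun x hx x' hx' _ => (h.2 x hx).trans (h.2 x' hx').symm⟩

theorem exists_j (a : M) : ∃ y : {y // D.Nc y}, ∀ c, D.Cst c a → D.Col c y.1 := by
  obtain ⟨c, hc⟩ := exists_cst (D := D) a
  obtain ⟨y, hy⟩ := hc.R.col
  refine ⟨⟨y, c, hy⟩, fun c' hc' => ?_⟩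
  rwa [hc'.1.ext hc.1 fun x hx => (hc'.2 x hx).trans (hc.2 x hx).symm]

variable (D) in
noncomputable def j (a : M) : {y // D.Nc y} := (exists_j (D := D) a).choose

theorem Cst.col {c a : M} (h : D.Cst c a) : D.Col c (D.j a).1 := (exists_j a).choose_spec c h

omit N in
theorem common (n : ℕ) (f : ℕ → M) (h : ∀ i, D.R (f i)) :
    ∃ s, E s D.S ∧ ∀ i < n, Ref E D.I s (f i) := by
  induction n with
  | zero => exact ⟨_, D.d_S, fun i hi => absurd hi (by omega)⟩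
  | succ n ih =>
    obtain ⟨s, h1, h2⟩ := ih
    obtain ⟨u, h3, h4, h5⟩ := (R_of_S h1).ref₂ (h n)
    refine ⟨u, h3, fun i hi => ?_⟩
    rcases Nat.lt_succ_iff_lt_or_eq.1 hi with h6 | rfl
    · exact h4.trans (h2 i h6)
    · exact h5

theorem ultra_sat (φ : Fml) (f : ℕ → M) (h : ∀ i, D.R (f i)) :
    D.ae (fun x => Sat E φ fun i => ev E (f i) x) ∨
      D.ae fun x => ¬ Sat E φ fun i => ev E (f i) x := by
  have := ne E
  obtain ⟨s, h1, h2⟩ := common φ.bd f h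
  have := Dfn.sat (E := E) φ (fun i v => ev E (f i) (v 0)) fun i => inferInstance
  exact ultra h1 _ fun x hx x' hx' e =>
    (sat_congr φ _ _ fun i hi => h2 i hi x hx x' hx' e).1

theorem los (φ : Fml) : ∀ (f : ℕ → M) (y : ℕ → {y // D.Nc y}), (∀ i, D.Col (f i) (y i).1) →
    (Sat (fun a b : {y // D.Nc y} => E a.1 b.1) φ y ↔
      D.ae fun x => Sat E φ fun i => ev E (f i) x) := by
  have := ne E
  induction φ with
  | mem i j => intro f y h; exact (h j).mem_iff (h i)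
  | eq i j => intro f y h; exact Subtype.ext_iff.trans ((h i).eq_iff (h j))
  | fal => intro f y h; exact ⟨False.elim, fun h => (ae_ex h).elim fun _ h => h.2⟩
  | imp φ ψ ih1 ih2 =>
    intro f y h
    simp only [Sat, ih1 f y h, ih2 f y h]
    refine ⟨fun h1 => ?_, fun h1 h2 => (ae_and h1 h2).mono fun _ h => h.1 h.2⟩
    rcases ultra_sat φ f fun i => (h i).R with h2 | h2
    · exact (h1 h2).mono fun _ h _ => h
    · exact h2.mono fun _ h h' => absurd h' h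
  | all φ ih =>
    intro f y h
    have key : ∀ g (z : {y // D.Nc y}), D.Col g z.1 →
        (Sat (fun a b : {y // D.Nc y} => E a.1 b.1) φ (cons z y) ↔
          D.ae fun x => Sat E φ (cons (ev E g x) fun i => ev E (f i) x)) := fun g z hz => by
      rw [ih (cons g f) (cons z y) (by rintro (_ | i); exacts [hz, h i])]
      simp only [fun x => comp_cons (fun f => ev E f x) g f]
    refine ⟨fun h1 => (ultra_sat (.all φ) f fun i => (h i).R).resolve_right fun h2 => ?_,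
      fun h1 z => ?_⟩
    · obtain ⟨s, h3, h4⟩ := common φ.bd f fun i => (h i).R
      have := Dfn.sat (E := E) φ (cons (fun v => v 1) fun i v => ev E (f i) (v 0)) (by
        rintro (_ | i)
        · exact DT.var 1
        · exact dEv _ _)
      have : Dfn E fun v => Sat E φ (cons (v 1) fun i => ev E (f i) (v 0)) :=
        this.congr fun v => by
          congr! 2 with i
          cases i <;> rfl
      obtain ⟨g, h5, -, h6⟩ := wit h3 (fun x z => ¬ Sat E φ (cons z fun i => ev E (f i) x))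
        fun x hx x' hx' e z hz h' => hz ((sat_congr φ _ _ (cons_agree (R := Eq) rfl
          fun i hi => h4 i (by omega) x hx x' hx' e)).2 h')
      obtain ⟨z, hz⟩ := h5.col
      exact ae_false ((key g ⟨z, g, hz⟩ hz).1 (h1 _)) h2 fun x l1 l2 l3 =>
        h6 x l1 (not_forall.1 l3) l2
    · obtain ⟨g, hg⟩ := z.2
      exact (key g z hg).2 (h1.mono fun x h => h _)

theorem isElemEmb : IsElemEmb E D.Nc D.j where
  def_N := by
    have := ne E
    have : Dfn E fun v => D.Nc (v 0) := by unfold Nc; infer_instance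
    obtain ⟨φ, c, h⟩ := Dfn.two (E := E) fun y _ => D.Nc y
    exact ⟨φ, cons D.k c, fun y => h y D.k⟩
  def_j := by
    have := ne E
    obtain ⟨φ, c, h⟩ := Dfn.two (E := E) fun x y =>
      ∀ c, (IsSeq E c D.I ∧ ∀ z, E z D.I → ev E c z = x) → D.Col c y
    refine ⟨φ, c, fun x y => Iff.trans ⟨?_, fun h => ?_⟩ (h x y)⟩
    · rintro rfl c hc; exact Cst.col hc
    · obtain ⟨c, hc⟩ := exists_cst (D := D) x
      exact (h c hc).uniq hc.col (Eqv.refl c)
  transitive y z := fun ⟨_, h⟩ hz => let ⟨g, h1, _⟩ := h.down hz; ⟨g, h1⟩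
  elementary φ v := by
    choose c hc using exists_cst (D := D)
    rw [los φ (fun i => c (v i)) _ fun i => (hc _).col]
    have : ∀ x, E x D.I → (fun i => ev E (c (v i)) x) = v :=
      fun x hx => funext fun i => (hc _).2 x hx
    refine ⟨fun h => ae_of fun x hx => (this x hx).symm ▸ h, fun h => ?_⟩
    obtain ⟨x, h1, h2⟩ := ae_ex h
    exact this x h1 ▸ h2

theorem mem_j {g z a : M} (h : D.Col g z) : E z (D.j a).1 ↔ D.ae fun x => E (ev E g x) a := by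
  obtain ⟨c, hc⟩ := exists_cst (D := D) a
  rw [hc.col.mem_iff h]
  exact ⟨fun h => (ae_I h).mono fun x h => hc.2 x h.1 ▸ h.2,
    fun h => (ae_I h).mono fun x h => (hc.2 x h.1).symm ▸ h.2⟩

theorem eq_j {g z a : M} (h : D.Col g z) (h' : D.ae fun x => ev E g x = a) : z = (D.j a).1 := by
  obtain ⟨c, hc⟩ := exists_cst (D := D) a
  exact h.uniq hc.col ((ae_I h').mono fun x h => h.2.trans (hc.2 x h.1).symm)

theorem j_fix (ξ : M) : E ξ D.k → (D.j ξ).1 = ξ := by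
  induction ξ using N.wf.induction with
  | h ξ ih =>
    intro hξ
    refine ext (E := E) fun z => ⟨fun hz => ?_, fun hz => ?_⟩
    · obtain ⟨g, hg⟩ := isElemEmb.transitive _ z (D.j ξ).2 hz
      have h1 := (mem_j hg).1 hz
      obtain ⟨ζ, h2, h3⟩ := const hg.R ((ae_I (ae_and h1 (D.d_gt _ hξ))).mono
        fun x ⟨l1, l2, l3⟩ => d_trans l1 l2 l3)
      obtain ⟨x, -, l1, l2⟩ := ae_ex (ae_and h1 h3)
      rw [eq_j hg h3, ih ζ (l2 ▸ l1) h2]
      exact l2 ▸ l1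
    · obtain ⟨c, hc⟩ := exists_cst (D := D) z
      rw [← ih z hz (D.ord_k.1 _ hξ _ hz)]
      exact (mem_j hc.col).2 (ae_of fun x hx => (hc.2 x hx).symm ▸ hz)

theorem col_d {y : M} (h : D.Col D.d y) : y = D.k := by
  refine ext (E := E) fun z => ⟨fun hz => ?_, fun hz => ?_⟩
  · obtain ⟨g, h1, h2⟩ := h.down hz
    obtain ⟨ζ, h3, h4⟩ := const h1.R h2
    rw [eq_j h1 h4, j_fix ζ h3]
    exact h3
  · obtain ⟨c, hc⟩ := exists_cst (D := D) z
    rw [← j_fix z hz]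
    exact h.mem_of hc.col ((ae_I (D.d_gt _ hz)).mono fun x h => (hc.2 x h.1).symm ▸ h.2)

theorem j_k : (D.j D.k).1 ≠ D.k := fun e => by
  obtain ⟨y, hy⟩ := (R_of_S D.d_S).col
  have := (mem_j hy).2 (ae_of fun x hx => d_mem hx)
  rw [col_d hy, e] at this
  exact irr _ this

theorem col_upair {g a b z ya yb : M} (hg : D.Col g z) (ha : D.Col a ya) (hb : D.Col b yb)
    (h : D.ae fun x => ∀ t, E t (ev E g x) ↔ t = ev E a x ∨ t = ev E b x) (t : M) :
    E t z ↔ t = ya ∨ t = yb := by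
  have := ne E
  refine ⟨fun ht => ?_, ?_⟩
  · obtain ⟨f, h1, h2⟩ := hg.down ht
    rcases ultra₂ h1.R ha.R Eq with h3 | h3
    · exact Or.inl (h1.uniq ha h3)
    · exact Or.inr (h1.uniq hb ((ae_and h (ae_and h2 h3)).mono fun x ⟨l1, l2, l3⟩ =>
        ((l1 _).1 l2).resolve_left l3))
  · rintro (rfl | rfl)
    · exact hg.mem_of ha (h.mono fun x h => (h _).2 (Or.inl rfl))
    · exact hg.mem_of hb (h.mono fun x h => (h _).2 (Or.inr rfl))

theorem exists_upair {a b : M} (ha : D.R a) (hb : D.R b) :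
    ∃ g, D.R g ∧ ∀ x, E x D.I → ∀ t, E t (ev E g x) ↔ t = ev E a x ∨ t = ev E b x := by
  have := ne E
  obtain ⟨s, h1, h2, h3⟩ := ha.ref₂ hb
  obtain ⟨g, h4, -, h5⟩ := wit h1 (fun x y => ∀ t, E t y ↔ t = ev E a x ∨ t = ev E b x)
    fun x hx x' hx' e z hz => by rwa [← h2 x hx x' hx' e, ← h3 x hx x' hx' e]
  exact ⟨g, h4, fun x hx => h5 x hx ((zf (E := E)).pairing _ _)⟩

theorem col_pair {g a b z ya yb : M} (hg : D.Col g z) (ha : D.Col a ya) (hb : D.Col b yb)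
    (h : D.ae fun x => IsPair E (ev E g x) (ev E a x) (ev E b x)) : IsPair E z ya yb := by
  obtain ⟨g₁, h1, h2⟩ := exists_upair ha.R ha.R
  obtain ⟨g₂, h3, h4⟩ := exists_upair ha.R hb.R
  obtain ⟨y₁, h5⟩ := h1.col
  obtain ⟨y₂, h6⟩ := h3.col
  have h7 := col_upair h5 ha ha (ae_of h2)
  have h8 := col_upair h6 ha hb (ae_of h4)
  intro t
  rw [col_upair hg h5 h6 ((ae_I h).mono fun x ⟨l1, l2⟩ t => (l2 t).trans (or_congr
    ⟨fun h => ext (E := E) fun u => (h u).trans ((h2 x l1 u).trans or_self_iff).symm,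
      fun h u => h ▸ (h2 x l1 u).trans or_self_iff⟩
    ⟨fun h => ext (E := E) fun u => (h u).trans (h4 x l1 u).symm, fun h u => h ▸ h4 x l1 u⟩))]
  exact or_congr ⟨fun h u => h ▸ (h7 u).trans or_self_iff,
      fun h => ext (E := E) fun u => (h u).trans ((h7 u).trans or_self_iff).symm⟩
    ⟨fun h u => h ▸ h8 u, fun h => ext (E := E) fun u => (h u).trans (h8 u).symm⟩

theorem closed {σ : M} (hσ : IsSeq E σ D.k) (h : ∀ i y, App E σ i y → D.Nc y) : D.Nc σ := by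
  have := ne E
  obtain ⟨F, -, h1⟩ := choice (E := E) D.k (fun i f => D.Col f (ev E σ i))
    fun i hi => h i _ (hσ.app hi)
  obtain ⟨τ, h2, h3⟩ := choice (E := E) D.k (fun i s => E s D.S ∧ Ref E D.I s (ev E F i))
    fun i hi => (h1 i hi).R.2
  obtain ⟨u, h4, h5⟩ := D.cl τ (h2.isFun fun i hi => (h3 i hi).1)
  have h6 : ∀ x, E x D.I → ∀ x', E x' D.I → ev E u x = ev E u x' → ∀ i, E i (ev E D.d x) →
      ev E (ev E F i) x = ev E (ev E F i) x' := fun x hx x' hx' e i hi =>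
    (h3 i (D.ord_k.1 _ (d_mem hx) _ hi)).2 x hx x' hx' ((h5 x hx x' hx' e).2 i hi)
  obtain ⟨f, h7, h8⟩ := choice (E := E) D.I (fun x y => IsSeq E y (ev E D.d x) ∧
    ∀ i, E i (ev E D.d x) → ev E y i = ev E (ev E F i) x) fun x _ =>
      choice (E := E) _ (fun i y => y = ev E (ev E F i) x) fun _ _ => ⟨_, rfl⟩
  have h9 : D.R f := ⟨h7, u, h4, fun x hx x' hx' e =>
    (h8 x hx).1.ext ((h5 x hx x' hx' e).1 ▸ (h8 x' hx').1) fun i hi => by
      rw [(h8 x hx).2 i hi, (h8 x' hx').2 i ((h5 x hx x' hx' e).1 ▸ hi), h6 x hx x' hx' e i hi]⟩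
  obtain ⟨y, hy⟩ := h9.col
  refine ⟨f, (ext (E := E) fun z => ?_ : y = σ) ▸ hy⟩
  rw [hσ.mem_iff]
  refine ⟨fun hz => ?_, fun ⟨i, hi, hz⟩ => ?_⟩
  · obtain ⟨g, l1, l2⟩ := hy.down hz
    obtain ⟨s, l3, l4, l5⟩ := (R_of_S h4).ref₂ l1.R
    obtain ⟨e, l6, -, l7⟩ := wit l3 (fun x i => E i (ev E D.d x) ∧
      IsPair E (ev E g x) i (ev E (ev E F i) x)) fun x hx x' hx' e i ⟨l6, l7⟩ => by
        have e' := l4 x hx x' hx' e
        rw [← (h5 x hx x' hx' e').1, ← l5 x hx x' hx' e, ← h6 x hx x' hx' e' i l6]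
        exact ⟨l6, l7⟩
    have l8 := (ae_I l2).mono fun x ⟨m1, m2⟩ => l7 x m1 (by
      obtain ⟨i, m3, m4⟩ := (h8 x m1).1.mem_iff.1 m2
      exact ⟨i, m3, (h8 x m1).2 i m3 ▸ m4⟩)
    obtain ⟨i, l9, l10⟩ := const l6 (l8.mono fun x h => h.1)
    obtain ⟨c, hc⟩ := exists_cst (D := D) i
    refine ⟨i, l9, ?_⟩
    have := col_pair l1 hc.col (h1 i l9) ((ae_I (ae_and l8 l10)).mono fun x ⟨m1, m2, m3⟩ => by
      rw [hc.2 x m1, ← m3]; exact m2.2)
    rwa [j_fix i l9] at this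
  · obtain ⟨c, hc⟩ := exists_cst (D := D) i
    obtain ⟨-, s, l1, l2⟩ := (h1 i hi).R
    obtain ⟨g, l3, -, l4⟩ := wit l1 (fun x p => IsPair E p i (ev E (ev E F i) x))
      fun x hx x' hx' e p hp => by rwa [← l2 x hx x' hx' e]
    have l5 : ∀ x, E x D.I → _ := fun x hx => l4 x hx (exists_pair zf _ _)
    obtain ⟨z', l6⟩ := l3.col
    have l7 := col_pair l6 hc.col (h1 i hi) (ae_of fun x hx => (hc.2 x hx).symm ▸ l5 x hx)
    rw [j_fix i hi] at l7
    rw [pair_unique zf hz l7]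
    exact hy.mem_of l6 ((ae_I (D.d_gt i hi)).mono fun x ⟨m1, m2⟩ =>
      (h8 x m1).1.mem_iff.2 ⟨i, m2, ((h8 x m1).2 i m2).symm ▸ l5 x m1⟩)

theorem col_ord {f y : M} (h : D.Col f y) (ho : D.ae fun x => IsOrd E (ev E f x)) : IsOrd E y := by
  have := ne E
  refine ⟨fun a ha b hb => ?_, fun a b ha hb => ?_⟩
  · obtain ⟨g, h1, h2⟩ := h.down ha
    obtain ⟨g', h3, h4⟩ := h1.down hb
    exact h.mem_of h3 ((ae_and ho (ae_and h2 h4)).mono fun x ⟨l1, l2, l3⟩ => l1.1 _ l2 _ l3)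
  · obtain ⟨g, h1, h2⟩ := h.down ha
    obtain ⟨g', h3, h4⟩ := h.down hb
    rcases ultra₂ h1.R h3.R E with h5 | h5
    · exact Or.inl (h3.mem_of h1 h5)
    rcases ultra₂ h1.R h3.R Eq with h6 | h6
    · exact Or.inr (Or.inl (h1.uniq h3 h6))
    · exact Or.inr (Or.inr (h1.mem_of h3 ((ae_and (ae_and ho (ae_and h2 h4)) (ae_and h5 h6)).mono
        fun x ⟨⟨l1, l2, l3⟩, l4, l5⟩ => ((l1.2 _ _ l2 l3).resolve_left l4).resolve_left l5)))

/-- Seeds arranged in increasing levels give the gluing property. -/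
theorem gp {α L : M}
    (h1 : ∀ β U, E β α → IsMeasure E D.k U → ∃ t, E t D.S ∧ App E L β t ∧
      ∀ X, Sub E X D.k → (E X U ↔ D.ae fun x => E (ev E t x) X))
    (h2 : ∀ β γ t t', E β γ → App E L β t → App E L γ t' → D.In t t') : GP E D.k α := by
  have := ne E
  intro σ hσ hU
  refine ⟨D.Nc, D.j, isElemEmb, j_fix, j_k, fun f => closed, ?_⟩
  obtain ⟨τ, -, h3⟩ := choice (E := E) α (fun β t => E t D.S ∧ App E L β t ∧
    ∀ X, Sub E X D.k → (E X (ev E σ β) ↔ D.ae fun x => E (ev E t x) X))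
    fun β hβ => h1 β _ hβ (hU _ _ (hσ.app hβ))
  obtain ⟨η, h4, h5⟩ := choice (E := E) α (fun β e => D.Col (ev E τ β) e)
    fun β hβ => (R_of_S (h3 β hβ).1).col
  refine ⟨η, h4, fun β e h => ?_, fun β γ e e' h h' h'' => ?_, fun β U e h h' X => ?_⟩
  · obtain ⟨l1, rfl⟩ := h4.app_iff.1 h
    exact col_ord (h5 β l1) (ae_of fun x hx =>
      IsOrd.mem D.ord_k (IsFun.ev_mem (D.S_fun _ (h3 β l1).1) hx))
  · obtain ⟨l1, rfl⟩ := h4.app_iff.1 h'
    obtain ⟨l2, rfl⟩ := h4.app_iff.1 h''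
    exact (h5 γ l2).mem_of (h5 β l1) (h2 β γ _ _ h (h3 β l1).2.1 (h3 γ l2).2.1)
  · obtain ⟨l1, rfl⟩ := h4.app_iff.1 h'
    obtain ⟨-, rfl⟩ := hσ.app_iff.1 h
    rw [mem_j (h5 β l1)]
    exact ⟨fun l2 => have l3 := (hU _ _ h).1.1 X l2; ⟨l3, ((h3 β l1).2.2 X l3).1 l2⟩,
      fun ⟨l2, l3⟩ => ((h3 β l1).2.2 X l2).2 l3⟩

end Sys

end Pool.Agent.Work.MP_1ec257_lc
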