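import Pool.Agent.Work.MP_1ec257_lc.Hull
import Pool.Agent.Work.MP_1ec257_lc.Ground

/-! Names for the ground objects and the density arguments. -/

namespace Pool.Agent.Work.MP_1ec257_lc
open Pool.Agent.Lib.ZFModel Pool.Agent.Work.MP_58a5a1_lc Name Set Cond

section general
variable {P : Type} [Preorder P]

/-- No extension satisfies `Q`. -/
def Nv (Q : P → Prop) (r : P) : Prop := ∀ s ≤ r, ¬ Q s

theorem Nv.mono (Q : P → Prop) : Mono (Nv Q) := fun _ _ h h' s hs => h' s (hs.trans h)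

theorem dec_dense (Q : P → Prop) (r : P) : ∃ s ≤ r, Q s ∨ Nv Q s := by
  by_cases h : ∃ s ≤ r, Q s
  · obtain ⟨s, h1, h2⟩ := h
    exact ⟨s, h1, Or.inl h2⟩
  · exact ⟨r, le_rfl, Or.inr fun s hs h' => h ⟨s, hs, h'⟩⟩

theorem mono_or {Q R : P → Prop} (h : Mono Q) (h' : Mono R) : Mono fun r => Q r ∨ R r :=
  fun _ _ hq => Or.imp (h _ _ hq) (h' _ _ hq)

end general

structure Ax (O Y : Type) where
  o : O
  f : O → O
  s : Set O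
  q : O → Set O
  y : Y

inductive Fm : Type
  | ord | sub | fn | S | U | seq | lv | en | rc
  deriving Countable

inductive Kd : Type
  | ord | rel | mk (m : Fm) | back (m : Fm) | op (n : ℕ) | nat (n : ℕ)
  | gr | cl₁ | cl₂ | bdd | ex | code | meas | meas₂ | hom | tot | sur
  deriving Countable

variable {O : Type} [LinearOrder O] (X : Gd O)

namespace Gd

abbrev P := Cond O X.Y X.μ
abbrev A := Ax O X.Y

def a₀ : X.A := ⟨X.k, X.d, univ, fun _ => ∅, X.y₀⟩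

theorem capture (Q : O → X.P → Prop) (hQ : ∀ z, Mono (Q z)) (r : X.P) :
    ∃ q ≤ r, ∀ z < X.k, ∀ p, ∃ p' ≤ p, Q z (q.setp p') ∨ Nv (Q z) (q.setp p') :=
  Cond.capture X.inf (Iio X.k) X.mk_k (fun z r => Q z r ∨ Nv (Q z) r)
    (fun z => mono_or (hQ z) (Nv.mono _)) (fun _ => dec_dense _) r

theorem dns_of {T : X.P → Prop} (hT : Mono T) {q : X.P} (h : ∀ p, ∃ p' ≤ p, T (q.setp p')) :
    Dns T q := fun r hr =>
  let ⟨p', h1, h2⟩ := h r.p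
  ⟨r.setp p', setp_le h1, hT _ _ (le_setp ((setp_le h1).trans hr) le_rfl) h2⟩

theorem large {T : O → X.P → Prop} {s : O → O} (hs : ∀ x, s x < X.k) {q : X.P}
    (h : ∀ z < X.k, ∀ p, ∃ p' ≤ p, T z (q.setp p')) :
    ∃ r ≤ q, {x | T (s x) r} ∈ X.U := by
  obtain ⟨p, hp⟩ := X.cc (fun p => {x | p ≤ q.p ∧ T (s x) (q.setp p)})
    (Filter.mem_of_superset Filter.univ_mem fun x _ => mem_iUnion.2 (h _ (hs x) q.p))
  obtain ⟨x, hx⟩ := X.U.nonempty_of_mem hp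
  exact ⟨_, setp_le hx.1, Filter.mem_of_superset hp fun x hx => hx.2⟩

theorem nat_inj : Function.Injective X.nat := fun m n h => by
  rcases lt_trichotomy m n with h1 | h1 | h1
  · exact absurd h ((X.lt_nat _ _).2 ⟨m, h1, rfl⟩).ne
  · exact h1
  · exact absurd h ((X.lt_nat _ _).2 ⟨n, h1, rfl⟩).ne'

theorem k_mem (y : X.Y) : Iio X.k ∈ X.ult y :=
  (X.sd_map _ X.k_lt y _).1 (Filter.mem_of_superset Filter.univ_mem fun x _ => X.sd_lt _ _ x)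

/-- The relation coded by `a`. -/
def dec (a i ζ : O) (r : X.P) : Prop :=
  ∃ β h, β < X.k ∧ (∀ i p ζ, h i p = some ζ → ζ < X.k) ∧ a = X.cd β h ∧ i < β ∧
    ∃ p, r.p ≤ p ∧ h i p = some ζ

theorem dec_mono (a i ζ : O) : Mono (X.dec a i ζ) :=
  fun _ _ hq ⟨β, h, h1, h2, h3, h4, p, h5, h6⟩ => ⟨β, h, h1, h2, h3, h4, p, hq.1.trans h5, h6⟩

def op : ℕ → (ℕ → X.A) → X.A → Prop
  | 0, _, j => j.o = X.k ∧ j.f = X.d ∧ j.s = univ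
  | 1, _, j => j.o = X.kp
  | 2, _, j => j.o = X.w
  | 3, a, j => j.s = Iio (a 0).o
  | 4, a, j => j.o = (a 0).f (a 1).o
  | 5, a, j => j.s = (a 0).q (a 1).o ∩ Iio X.k
  | 6, a, j => j.f = X.sd (a 0).o (a 1).y
  | 7, a, j => (∀ x < (a 0).o, j.f x < X.k) ∧ InjOn j.f (Iio (a 0).o)
  | 8, a, j => (∀ x, j.f x < X.k) ∧
      ∀ x x', j.f x = j.f x' → (a 0).f x = (a 0).f x' ∧ (a 1).f x = (a 1).f x'
  | 9, a, j => j.s = (a 0).s ∩ (a 1).s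
  | 10, a, j => j.o ∈ (a 0).s
  | 11, a, j => j.s = {x | (a 0).o < X.d x}
  | 12, a, j => j.s ∈ X.U ∧
      ((∀ x ∈ j.s, X.d x ≤ (a 0).f x) ∨ (j.o < X.k ∧ ∀ x ∈ j.s, (a 0).f x = j.o))
  | 13, a, j => j.s = (a 0).f ⁻¹' (a 1).s
  | 14, a, j => j.s = {x | (a 0).f x < (a 1).f x}
  | 15, a, j => j.s = {x | (a 0).f x ≠ (a 1).o}
  | 16, a, j => ∀ f : O → O, ∃ Z ∈ X.ult j.y, {ξ | f ξ ∉ Z} ∈ X.ult (a 0).y
  | 17, a, j => j.s ∈ X.ult (a 0).y ∧ {ξ | (a 2).f ξ ∉ j.s} ∈ X.ult (a 1).y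
  | 18, a, j => j.f = (a 0).f ∘ (a 1).f
  | 19, a, j => j.s = (a 0).sᶜ
  | 20, a, j => j.o = (a 0).o ∧ j.y = (a 1).y
  | _, _, _ => True

theorem ex_dir {s t : O → O} (hs : ∀ x, s x < X.k) (ht : ∀ x, t x < X.k) :
    ∃ u : O → O, (∀ x, u x < X.k) ∧ ∀ x x', u x = u x' → s x = s x' ∧ t x = t x' := by
  classical
  have h0 : ∀ n, X.nat n < X.k := fun n => ((X.lt_w _).2 ⟨n, rfl⟩).trans X.w_lt
  have h1 : ∀ x i (p : Coh) ζ, some (if i = X.nat 0 then s x else t x) = some ζ → ζ < X.k :=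
    fun x i p ζ h => by
      rw [← Option.some.inj h]; split_ifs
      exacts [hs x, ht x]
  refine ⟨fun x => X.cd (X.nat 2) fun i _ => some (if i = X.nat 0 then s x else t x),
    fun x => X.cd_lt _ _ (h0 2) (h1 x), fun x x' e => ?_⟩
  have h2 := (X.cd_inj _ _ _ _ (h0 2) (h1 x) (h0 2) (h1 x') e).2
  have h3 := congrFun (h2 (X.nat 0) ((X.lt_nat _ _).2 ⟨0, by omega, rfl⟩)) default
  have h4 := congrFun (h2 (X.nat 1) ((X.lt_nat _ _).2 ⟨1, by omega, rfl⟩)) default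
  have h5 : X.nat 1 ≠ X.nat 0 := fun e => absurd (X.nat_inj e) (by omega)
  exact ⟨by simpa using h3, by simpa [h5] using h4⟩

variable [WellFoundedLT O]

noncomputable def subN (s : Set O) : Name X.P :=
  rName (fun j : X.A => ordN j.o) fun j _ => j.o ∈ s

noncomputable def funN (D : Set O) (f : O → O) : Name X.P :=
  rName (fun j : X.A => pairN (ordN j.o) (ordN (f j.o))) fun j _ => j.o ∈ D

noncomputable def nm : Fm → (ℕ → X.A) → X.A → Name X.P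
  | .ord, _, j => ordN j.o
  | .sub, _, j => ordN j.o
  | .fn, a, j => pairN (ordN j.o) (ordN ((a 1).f j.o))
  | .S, _, j => X.funN univ j.f
  | .U, _, j => X.subN j.s
  | .seq, a, j => pairN (ordN j.o) (X.subN ((a 0).q j.o ∩ Iio X.k))
  | .lv, _, j => pairN (ordN j.o) (X.funN univ (X.sd j.o j.y))
  | .en, _, j => pairN (ordN j.o) (X.funN univ (X.sd X.k j.y))
  | .rc, _, j => pairN (ordN j.o) (relN (X.dec j.o))

def cnd : Fm → (ℕ → X.A) → X.A → X.P → Prop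
  | .ord, a, j, _ => j.o < (a 0).o
  | .sub, a, j, _ => j.o ∈ (a 0).s
  | .fn, a, j, _ => j.o ∈ (a 0).s
  | .S, _, j, _ => ∀ x, j.f x < X.k
  | .U, _, j, _ => j.s ∈ X.U
  | .seq, a, j, _ => j.o < (a 0).o
  | .lv, _, j, _ => j.o < X.kp
  | .en, _, j, r => j.o < X.kp ∧ Gn j.o j.y r
  | .rc, _, j, _ => j.o < X.k

omit [WellFoundedLT O] in
theorem cnd_mono (m : Fm) (a : ℕ → X.A) (j : X.A) : Mono (X.cnd m a j) := by
  cases m <;> intro p q hq h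
  case en => exact ⟨h.1, Gn.mono _ _ _ _ hq h.2⟩
  all_goals exact h

noncomputable def FN (m : Fm) (a : ℕ → X.A) : Name X.P := rName (X.nm m a) (X.cnd m a)

def Tot (σ : Name X.P) (ξ δ : O) (r : X.P) : Prop := ∃ ζ < δ, Rl σ ξ ζ r

theorem Tot.mono (σ : Name X.P) (ξ δ : O) : Mono (X.Tot σ ξ δ) :=
  fun _ _ hq ⟨ζ, h1, h2⟩ => ⟨ζ, h1, Rl.mono _ _ _ _ _ hq h2⟩

def TotS (σ : Name X.P) (i : O) (r : X.P) : Prop :=
  ∃ s : O → O, (∀ x, s x < X.k) ∧ MemF (pairN (ordN i) (X.funN univ s)) σ r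

theorem TotS.mono (σ : Name X.P) (i : O) : Mono (X.TotS σ i) :=
  fun _ _ hq ⟨s, h1, h2⟩ => ⟨s, h1, h2.mono hq⟩

def In (σ : Name X.P) (Z : Set O) (r : X.P) : Prop := MemF (X.subN (Z ∩ Iio X.k)) σ r

theorem In.mono (σ : Name X.P) (Z : Set O) : Mono (X.In σ Z) := fun _ _ hq h => MemF.mono h hq

def CL (σ : Name X.P) (u : O → O) (i : O) (r : X.P) (s : O → O) : Prop :=
  (MemF (pairN (ordN i) (X.funN univ s)) σ r ∧ ∀ x x', u x = u x' → i < X.d x → s x = s x') ∨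
    Nv (X.TotS σ i) r

def EX (σ τ : Name X.P) (ξ γ δ : O) (r : X.P) (ζ : O) : Prop :=
  (ζ < γ ∧ Rl σ ξ ζ r) ∨ Nv (X.Tot τ ξ δ) r

def MS (σ : Name X.P) (β : O) (Z : O → Set O) (α : O) (r : X.P) (i : O) : Prop :=
  i < β ∧ ((α ∈ Z i ∧ Nv (X.In σ (Z i)) r) ∨ (α ∉ Z i ∧ X.In σ (Z i) r))

def W : Req X.P X.A Kd := fun k v a r j y => match k with
  | .ord => y = ordN (a 0).o
  | .rel => y = relN (X.dec (a 0).o)
  | .mk m => y = X.FN m a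
  | .back m => v 0 = X.nm m a j ∧ X.cnd m a j r
  | .op n => X.op n a j
  | .nat n => j.o = X.nat n
  | .gr => (j.s ∈ X.U ∧ (∀ ξ, j.f ξ < X.k) ∧ ∀ x ∈ j.s, Rl (v 0) ((a 0).f x) (j.f ((a 0).f x)) r) ∨
      (j.o < X.k ∧ Nv (X.Tot (v 0) j.o X.k) r)
  | .cl₁ => (∀ x, j.f x < X.k) ∧ (∀ x x', j.f x = j.f x' → X.d x = X.d x') ∧
      ∀ i < X.k, Dns (fun r => ∃ s, X.CL (v 0) j.f i r s) r
  | .cl₂ => X.CL (v 0) (a 0).f (a 1).o r j.f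
  | .bdd => j.o < X.kp ∧ ∀ ξ < X.k, Dns (fun r => ∃ ζ, X.EX (v 0) (v 0) ξ j.o X.kp r ζ) r
  | .ex => X.EX (v 0) (v 1) (a 0).o (a 1).o (a 2).o r j.o
  | .code => j.o < X.k ∧ (∀ i ζ s, s ≤ r → X.dec j.o i ζ s → Rl (v 0) i ζ s) ∧
      ∀ i < (a 0).o, Dns (fun r => ∃ ζ, X.EX (relN (X.dec j.o)) (v 0) i X.k X.k r ζ) r
  | .meas => ((∀ Z, X.In (v 0) Z r ∨ Nv (X.In (v 0) Z) r) ∧ ∀ Z, Z ∈ X.ult j.y ↔ X.In (v 0) Z r) ∨
      (j.o < X.k ∧ ∀ α, j.o ≤ α → α < X.k → Dns (fun r => ∃ i, X.MS (v 0) j.o j.q α r i) r)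
  | .meas₂ => X.MS (v 0) (a 0).o (a 0).q (a 1).o r j.o
  | .hom => j.s ∈ X.ult (a 0).y ∧ ((∀ ξ ∈ j.s, MemF (ordN ξ) (v 0) r) ∨
      ∀ ξ ∈ j.s, Nv (MemF (ordN ξ) (v 0)) r)
  | .tot => Gn (a 0).o j.y r
  | .sur => j.o < X.kp ∧ Gn j.o (a 0).y r

variable (v : ℕ → Name X.P) (a : ℕ → X.A) (r : X.P)

theorem ex_gr (hs : ∀ x, (a 0).f x < X.k) : ∃ q ≤ r, ∃ j y, X.W .gr v a q j y := by
  classical
  obtain ⟨q, h1, h2⟩ := X.capture (fun ξ => X.Tot (v 0) ξ X.k) (fun ξ => Tot.mono X _ _ _) r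
  obtain ⟨s, h3, h4⟩ := X.large
    (T := fun ξ r => X.Tot (v 0) ξ X.k r ∨ Nv (X.Tot (v 0) ξ X.k) r) hs h2
  by_cases hc : ∃ x, Nv (X.Tot (v 0) ((a 0).f x) X.k) s
  · obtain ⟨x, hx⟩ := hc
    exact ⟨s, h3.trans h1, { X.a₀ with o := (a 0).f x }, emptyName, Or.inr ⟨hs x, hx⟩⟩
  · have h5 : ∀ ξ, ∃ ζ < X.k, X.Tot (v 0) ξ X.k s → Rl (v 0) ξ ζ s := fun ξ => by
      by_cases h : X.Tot (v 0) ξ X.k s
      · obtain ⟨ζ, l1, l2⟩ := h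
        exact ⟨ζ, l1, fun _ => l2⟩
      · exact ⟨_, X.w_lt, fun h' => absurd h' h⟩
    choose f h5 h6 using h5
    exact ⟨s, h3.trans h1, { X.a₀ with s := _, f := f }, emptyName, Or.inl ⟨h4, h5,
      fun x hx => h6 _ (hx.resolve_right fun h => hc ⟨x, h⟩)⟩⟩

theorem ex_cl : ∃ q ≤ r, ∃ j y, X.W .cl₁ v a q j y := by
  obtain ⟨q, h1, h2⟩ := X.capture (X.TotS (v 0)) (TotS.mono X _) r
  have h3 : ∀ i p, ∃ s : O → O, (∀ x, s x < X.k) ∧ (X.TotS (v 0) i (q.setp p) →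
      MemF (pairN (ordN i) (X.funN univ s)) (v 0) (q.setp p)) := fun i p => by
    by_cases h : X.TotS (v 0) i (q.setp p)
    · obtain ⟨s, l1, l2⟩ := h
      exact ⟨s, l1, fun _ => l2⟩
    · exact ⟨_, X.d_lt, fun h' => absurd h' h⟩
  choose s h3 h4 using h3
  have h5 : ∀ x i p ζ, some (s i p x) = some ζ → ζ < X.k := fun x i p ζ h =>
    Option.some.inj h ▸ h3 i p x
  have h6 := fun x x' => X.cd_inj _ _ _ _ (X.d_lt x) (h5 x) (X.d_lt x') (h5 x')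
  refine ⟨q, h1, { X.a₀ with f := fun x => X.cd (X.d x) fun i p => some (s i p x) }, emptyName,
    fun x => X.cd_lt _ _ (X.d_lt x) (h5 x), fun x x' e => (h6 x x' e).1,
    fun i hi => X.dns_of (fun _ _ hq ⟨s, h⟩ => ⟨s, h.imp (fun h => ⟨h.1.mono hq, h.2⟩)
      (Nv.mono _ _ _ hq)⟩) fun p => ?_⟩
  obtain ⟨p', l1, l2⟩ := h2 i hi p
  exact ⟨p', l1, s i p', l2.imp_left fun h => ⟨h4 i p' h, fun x x' e l3 =>
    Option.some.inj (congrFun ((h6 x x' e).2 i l3) p')⟩⟩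

theorem EX.mono (σ τ : Name X.P) (ξ γ δ : O) : Mono fun r => ∃ ζ, X.EX σ τ ξ γ δ r ζ :=
  fun _ _ hq ⟨ζ, h⟩ => ⟨ζ, h.imp (fun h => ⟨h.1, Rl.mono _ _ _ _ _ hq h.2⟩) (Nv.mono _ _ _ hq)⟩

theorem ex_bdd : ∃ q ≤ r, ∃ j y, X.W .bdd v a q j y := by
  obtain ⟨q, h1, h2⟩ := X.capture (fun ξ => X.Tot (v 0) ξ X.kp) (fun ξ => Tot.mono X _ _ _) r
  have h3 : ∀ ξ p, ∃ ζ < X.kp, X.Tot (v 0) ξ X.kp (q.setp p) → Rl (v 0) ξ ζ (q.setp p) :=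
    fun ξ p => by
      by_cases h : X.Tot (v 0) ξ X.kp (q.setp p)
      · obtain ⟨ζ, l1, l2⟩ := h
        exact ⟨ζ, l1, fun _ => l2⟩
      · exact ⟨_, X.k_lt, fun h' => absurd h' h⟩
  choose f h3 h4 using h3
  obtain ⟨γ, h5, h6⟩ := X.bdd ((fun z : O × Coh => f z.1 z.2) '' (Iio X.k ×ˢ univ))
    (sm_image _ (sm_prod X.inf X.mk_k (sm_count X.inf _)))
  refine ⟨q, h1, { X.a₀ with o := γ }, emptyName, h5,
    fun ξ hξ => X.dns_of (EX.mono X _ _ _ _ _) fun p => ?_⟩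
  obtain ⟨p', l1, l2⟩ := h2 ξ hξ p
  exact ⟨p', l1, f ξ p', l2.imp_left fun h =>
    ⟨h6 _ ⟨(ξ, p'), ⟨hξ, trivial⟩, rfl⟩ (h3 _ _), h4 _ _ h⟩⟩

theorem ex_code (hβ : (a 0).o < X.k) : ∃ q ≤ r, ∃ j y, X.W .code v a q j y := by
  obtain ⟨q, h1, h2⟩ := X.capture (fun ξ => X.Tot (v 0) ξ X.k) (fun ξ => Tot.mono X _ _ _) r
  have h3 : ∀ ξ p, ∃ o : Option O, (∀ ζ, o = some ζ → ζ < X.k ∧ Rl (v 0) ξ ζ (q.setp p)) ∧
      (X.Tot (v 0) ξ X.k (q.setp p) → ∃ ζ, o = some ζ) := fun ξ p => by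
    by_cases h : X.Tot (v 0) ξ X.k (q.setp p)
    · obtain ⟨ζ, l1, l2⟩ := h
      exact ⟨some ζ, fun _ e => Option.some.inj e ▸ ⟨l1, l2⟩, fun _ => ⟨ζ, rfl⟩⟩
    · exact ⟨none, fun _ e => (nomatch e), fun h' => absurd h' h⟩
  choose h h3 h4 using h3
  have h5 : ∀ i p ζ, h i p = some ζ → ζ < X.k := fun i p ζ e => (h3 i p ζ e).1
  refine ⟨q, h1, { X.a₀ with o := X.cd (a 0).o h }, emptyName, X.cd_lt _ _ hβ h5,
    fun i ζ s hs ⟨β, h', l1, l2, l3, l4, p, l5, l6⟩ => ?_,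
    fun i hi => X.dns_of (EX.mono X _ _ _ _ _) fun p => ?_⟩
  · obtain ⟨rfl, l7⟩ := X.cd_inj _ _ _ _ hβ h5 l1 l2 l3
    exact Rl.mono _ _ _ _ _ (le_setp hs l5) (h3 i p ζ ((congrFun (l7 i l4) p).trans l6)).2
  · obtain ⟨p', l1, l2 | l2⟩ := h2 i (hi.trans hβ) p
    · obtain ⟨ζ, l3⟩ := h4 i p' l2
      exact ⟨p', l1, ζ, Or.inl ⟨h5 _ _ _ l3, (rl_relN (X.dec_mono _)).2
        ((X.dec_mono _ _ _).dns ⟨_, h, hβ, h5, rfl, hi, p', le_rfl, l3⟩)⟩⟩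
    · exact ⟨p', l1, X.k, Or.inr l2⟩

theorem ex_meas : ∃ q ≤ r, ∃ j y, X.W .meas v a q j y := by
  obtain ⟨q, h1, h2 | ⟨Z, h2⟩⟩ := approx X.inf (X.In (v 0)) (In.mono X _)
    (fun _ _ h => MemF.reg h) r
  · by_cases hc : ∀ β < X.k, ∀ Z : O → Set O, ∃ α, β ≤ α ∧ α < X.k ∧
      ∀ i < β, (α ∈ Z i ↔ X.In (v 0) (Z i) q)
    · obtain ⟨y, hy⟩ := X.all (fun Z => X.In (v 0) Z q) hc
      exact ⟨q, h1, { X.a₀ with y := y }, emptyName, Or.inl ⟨h2, hy⟩⟩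
    · push Not at hc
      obtain ⟨β, l1, Z, l2⟩ := hc
      refine ⟨q, h1, { X.a₀ with o := β, q := Z }, emptyName, Or.inr ⟨l1, fun α l3 l4 s hs => ?_⟩⟩
      obtain ⟨i, l5, l6⟩ := l2 α l3 l4
      exact ⟨s, le_rfl, i, l5, l6.imp
        (fun h => ⟨h.1, Nv.mono _ _ _ hs ((h2 _).resolve_left h.2)⟩)
        fun h => ⟨h.1, In.mono X _ _ _ _ hs h.2⟩⟩
  · obtain ⟨e, he⟩ := exists_surjective_nat Coh
    refine ⟨q, h1, { X.a₀ with o := X.w, q := fun i => Z (e (Function.invFun X.nat i)) },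
      emptyName, Or.inr ⟨X.w_lt, fun α _ _ s hs => ?_⟩⟩
    obtain ⟨p, ⟨s₀, l1, l2⟩, s₁, l3, l4⟩ := h2 s hs
    obtain ⟨n, rfl⟩ := he p
    have l5 := Function.leftInverse_invFun X.nat_inj n
    by_cases hα : α ∈ Z (e n)
    · exact ⟨s₁, l3, X.nat n, (X.lt_w _).2 ⟨n, rfl⟩, Or.inl (by simp only [l5]; exact ⟨hα, l4⟩)⟩
    · exact ⟨s₀, l1, X.nat n, (X.lt_w _).2 ⟨n, rfl⟩, Or.inr (by simp only [l5]; exact ⟨hα, l2⟩)⟩

theorem ex_hom : ∃ q ≤ r, ∃ j y, X.W .hom v a q j y := by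
  obtain ⟨q, h1, h2⟩ := X.capture (fun ξ => MemF (ordN ξ) (v 0)) (fun ξ _ _ hq h => h.mono hq) r
  obtain ⟨s, h3, h4⟩ := X.large
    (T := fun ξ r => MemF (ordN ξ) (v 0) r ∨ Nv (MemF (ordN ξ) (v 0)) r)
    (X.sd_lt X.k (a 0).y) h2
  have h5 : {ξ | MemF (ordN ξ) (v 0) s} ∪ {ξ | Nv (MemF (ordN ξ) (v 0)) s} ∈ X.ult (a 0).y :=
    (X.sd_map _ X.k_lt _ _).1 h4
  rcases Ultrafilter.union_mem_iff.1 h5 with h | h
  · exact ⟨s, h3.trans h1, { X.a₀ with s := _ }, emptyName, h, Or.inl fun _ h => h⟩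
  · exact ⟨s, h3.trans h1, { X.a₀ with s := _ }, emptyName, h, Or.inr fun _ h => h⟩

theorem ex_tot : ∃ q ≤ r, ∃ j y, X.W .tot v a q j y :=
  let ⟨q, h1, y, h2⟩ := Gn.total X.inf (a 0).o r
  ⟨q, h1, { X.a₀ with y := y }, emptyName, h2⟩

theorem ex_sur : ∃ q ≤ r, ∃ j y, X.W .sur v a q j y := by
  obtain ⟨β, h1, h2⟩ := X.bdd r.D r.small
  obtain ⟨q, h3, h4⟩ := Gn.onto X.inf (a 0).y r fun h => lt_irrefl β (h2 β h h1)
  exact ⟨q, h3, { X.a₀ with o := β }, emptyName, h1, h4⟩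

end Gd

end Pool.Agent.Work.MP_1ec257_lc
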